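import Mathlib
import Pool.Agent.Helper543.PlaneC

/-! The centre and `N` points of a circle, in antipodal pairs: few circles. -/

namespace Pool.Agent.N390.CircUpper

open Finset Pool.Agent.Helper543.Melchior
open Pool.Agent.Helper543.Blocks Pool.Agent.Helper543.PlaneC

noncomputable section

open scoped Classical

/-- the points of the unit circle, `ff (2 i + 1) = - ff (2 i)` -/
def ff (k : ℕ) : Pt :=
  ((-1) ^ k * ((1 - ((k / 2 : ℕ) : ℝ) ^ 2) / (1 + ((k / 2 : ℕ) : ℝ) ^ 2)),
    (-1) ^ k * (2 * ((k / 2 : ℕ) : ℝ) / (1 + ((k / 2 : ℕ) : ℝ) ^ 2)))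

lemma ff_on (k : ℕ) : On 0 0 1 (ff k) := by
  have h0 : (1 + ((k / 2 : ℕ) : ℝ) ^ 2) ≠ 0 := by positivity
  have hs : ((-1 : ℝ) ^ k) ^ 2 = 1 := by rw [← pow_mul, mul_comm, pow_mul]; norm_num
  simp only [On, ff, mul_pow, hs]
  field_simp
  ring

lemma ff_odd (i : ℕ) : ff (2 * i + 1) = - ff (2 * i) := by
  have e1 : (2 * i + 1) / 2 = i := by omega
  have e2 : (2 * i) / 2 = i := by omega
  ext
  · simp only [ff, e1, e2, Prod.fst_neg, pow_succ]; ring
  · simp only [ff, e1, e2, Prod.snd_neg, pow_succ]; ring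

lemma ff_ne_zero (k : ℕ) : ff k ≠ 0 := by
  intro h
  have := ff_on k
  rw [h] at this
  simp [On] at this

lemma base_inj {i j : ℕ} {s t : ℝ} (hs : s = 1 ∨ s = -1) (ht : t = 1 ∨ t = -1)
    (h1 : s * ((1 - (i : ℝ) ^ 2) / (1 + (i : ℝ) ^ 2)) =
      t * ((1 - (j : ℝ) ^ 2) / (1 + (j : ℝ) ^ 2)))
    (h2 : s * (2 * (i : ℝ) / (1 + (i : ℝ) ^ 2)) = t * (2 * (j : ℝ) / (1 + (j : ℝ) ^ 2))) :
    i = j ∧ s = t := by
  have hi : (0 : ℝ) < 1 + (i : ℝ) ^ 2 := by positivity
  have hj : (0 : ℝ) < 1 + (j : ℝ) ^ 2 := by positivity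
  have hi0 : (0 : ℝ) ≤ i := by positivity
  have hj0 : (0 : ℝ) ≤ j := by positivity
  have key : ∀ σ : ℝ, (1 - (i : ℝ) ^ 2) / (1 + (i : ℝ) ^ 2) = σ * ((1 - (j : ℝ) ^ 2) / (1 + (j : ℝ) ^ 2)) →
      2 * (i : ℝ) / (1 + (i : ℝ) ^ 2) = σ * (2 * (j : ℝ) / (1 + (j : ℝ) ^ 2)) → (σ = 1 ∨ σ = -1) →
      i = j ∧ σ = 1 := by
    intro σ e1 e2 hσ
    rw [div_eq_iff hi.ne'] at e1 e2
    rw [← mul_div_assoc, div_mul_eq_mul_div, eq_div_iff hj.ne'] at e1 e2
    rcases hσ with rfl | rfl
    · refine ⟨?_, rfl⟩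
      have h3 : ((i : ℝ) ^ 2 - (j : ℝ) ^ 2) = 0 := by nlinarith
      have h4 : ((i : ℝ) - j) * (i + j) = 0 := by linarith
      rcases mul_eq_zero.1 h4 with h5 | h5
      · have : (i : ℝ) = j := by linarith
        exact_mod_cast this
      · have h6 : (i : ℝ) = 0 := by linarith
        have h7 : (j : ℝ) = 0 := by linarith
        have : (i : ℝ) = j := by rw [h6, h7]
        exact_mod_cast this
    · exfalso
      have h3 : (i : ℝ) * (1 + (j : ℝ) ^ 2) + j * (1 + (i : ℝ) ^ 2) = 0 := by linarith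
      have h4 : 0 ≤ (i : ℝ) * (1 + (j : ℝ) ^ 2) := by positivity
      have h5 : 0 ≤ (j : ℝ) * (1 + (i : ℝ) ^ 2) := by positivity
      have h6 : (i : ℝ) * (1 + (j : ℝ) ^ 2) = 0 := by linarith
      have h7 : (j : ℝ) * (1 + (i : ℝ) ^ 2) = 0 := by linarith
      have h8 : (i : ℝ) = 0 := by
        rcases mul_eq_zero.1 h6 with h | h
        · exact h
        · exact absurd h hj.ne'
      have h9 : (j : ℝ) = 0 := by
        rcases mul_eq_zero.1 h7 with h | h
        · exact h
        · exact absurd h hi.ne'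
      rw [h8, h9] at e1
      norm_num at e1
  rcases hs with rfl | rfl <;> rcases ht with rfl | rfl
  · obtain ⟨h, -⟩ := key 1 (by linarith) (by linarith) (Or.inl rfl)
    exact ⟨h, rfl⟩
  · obtain ⟨-, h⟩ := key (-1) (by linarith) (by linarith) (Or.inr rfl)
    norm_num at h
  · obtain ⟨-, h⟩ := key (-1) (by linarith) (by linarith) (Or.inr rfl)
    norm_num at h
  · obtain ⟨h, -⟩ := key 1 (by linarith) (by linarith) (Or.inl rfl)
    exact ⟨h, rfl⟩

lemma ff_inj : Function.Injective ff := by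
  intro a b h
  have h1 := congrArg Prod.fst h
  have h2 := congrArg Prod.snd h
  simp only [ff] at h1 h2
  obtain ⟨e1, e2⟩ := base_inj (neg_one_pow_eq_or ℝ a) (neg_one_pow_eq_or ℝ b) h1 h2
  have hpar : a % 2 = b % 2 := by
    rcases Nat.even_or_odd a with ha | ha <;> rcases Nat.even_or_odd b with hb | hb
    · rw [Nat.even_iff.1 ha, Nat.even_iff.1 hb]
    · rw [ha.neg_one_pow, hb.neg_one_pow] at e2; norm_num at e2
    · rw [ha.neg_one_pow, hb.neg_one_pow] at e2; norm_num at e2
    · rw [Nat.odd_iff.1 ha, Nat.odd_iff.1 hb]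
  omega

/-- the `N` points of the circle -/
def UU (N : ℕ) : Finset Pt := (range N).image ff

/-- the example -/
def PP (N : ℕ) : Finset Pt := insert 0 (UU N)

lemma card_UU (N : ℕ) : (UU N).card = N := by
  rw [UU, card_image_of_injective _ ff_inj, card_range]

lemma on_UU {N : ℕ} {x : Pt} (hx : x ∈ UU N) : On 0 0 1 x := by
  obtain ⟨k, _, rfl⟩ := mem_image.1 hx
  exact ff_on k

lemma zero_notMem (N : ℕ) : (0 : Pt) ∉ UU N := by
  intro h
  obtain ⟨k, _, hk⟩ := mem_image.1 h
  exact ff_ne_zero k hk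

lemma card_PP (N : ℕ) : (PP N).card = N + 1 := by
  rw [PP, card_insert_of_notMem (zero_notMem N), card_UU]

lemma not_on_zero : ¬ On 0 0 1 (0 : Pt) := by simp [On]

lemma block_dich {N : ℕ} {B : Finset Pt} (hB : B ∈ blocks (PP N)) :
    B = UU N ∨ ∃ a ∈ UU N, ∃ b ∈ UU N, a ≠ b ∧ B = {0, a, b} := by
  by_cases h0 : (0 : Pt) ∈ B
  · right
    obtain ⟨b, hb, c, hc, hb0, hc0, hcb, rfl⟩ := block_first hB h0
    have hbU : b ∈ UU N := by
      rcases mem_insert.1 hb with h | h
      · exact absurd h hb0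
      · exact h
    have hcU : c ∈ UU N := by
      rcases mem_insert.1 hc with h | h
      · exact absurd h hc0
      · exact h
    refine ⟨b, hbU, c, hcU, hcb.symm, ?_⟩
    ext x
    simp only [mem_insert, mem_singleton]
    constructor
    · intro hx
      by_contra hcon
      push Not at hcon
      obtain ⟨hx0, hxb, hxc⟩ := hcon
      have hxU : x ∈ UU N := by
        rcases mem_insert.1 (block_subset hB hx) with h | h
        · exact absurd h hx0
        · exact h
      have e := block_third hB (blk_mem2 hb) (blk_mem3 hc) hx hcb hxb hxc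
      have hz : (0 : Pt) ∈ blk (PP N) b c x := e ▸ blk_mem1 (mem_insert_self _ _)
      have hG := (mem_blk.1 hz).2
      exact not_on_zero (On_of_G (cr_ne_of_On (on_UU hbU) (on_UU hcU) (on_UU hxU) hcb.symm
        (Ne.symm hxb) (Ne.symm hxc)) (on_UU hbU) (on_UU hcU) (on_UU hxU) hG)
    · rintro (rfl | rfl | rfl)
      · exact blk_mem1 (mem_insert_self _ _)
      · exact blk_mem2 hb
      · exact blk_mem3 hc
  · left
    obtain ⟨a, ha, b, hb, c, hc, hab, hac, hbc, rfl⟩ := mem_blocks.1 hB
    have hne : ∀ x ∈ PP N, x ∈ blk (PP N) a b c → x ∈ UU N := by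
      intro x hx hxB
      rcases mem_insert.1 hx with h | h
      · exact absurd (h ▸ hxB) h0
      · exact h
    have haU := hne a ha (blk_mem1 ha)
    have hbU := hne b hb (blk_mem2 hb)
    have hcU := hne c hc (blk_mem3 hc)
    ext x
    constructor
    · intro hx
      exact hne x (mem_blk.1 hx).1 hx
    · intro hx
      rw [mem_blk]
      exact ⟨mem_insert_of_mem hx, G_of_On (on_UU haU) (on_UU hbU) (on_UU hcU) (on_UU hx)⟩

/-- index pairs which are not antipodal -/
def allowed (N : ℕ) : Finset (Finset ℕ) :=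
  powersetCard 2 (range N) \ (range (N / 2)).image (fun i => {2 * i, 2 * i + 1})

lemma card_allowed (N : ℕ) : (allowed N).card = N.choose 2 - N / 2 := by
  rw [allowed, card_sdiff_of_subset, card_powersetCard, card_range, card_image_of_injective,
    card_range]
  · intro i j h
    have h1 : 2 * i ∈ ({2 * j, 2 * j + 1} : Finset ℕ) := by
      have : 2 * i ∈ ({2 * i, 2 * i + 1} : Finset ℕ) := by simp
      rwa [show ({2 * i, 2 * i + 1} : Finset ℕ) = {2 * j, 2 * j + 1} from h] at this
    simp only [mem_insert, mem_singleton] at h1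
    omega
  · intro s hs
    obtain ⟨i, hi, rfl⟩ := mem_image.1 hs
    rw [mem_range] at hi
    rw [mem_powersetCard]
    constructor
    · intro x hx
      simp only [mem_insert, mem_singleton] at hx
      rw [mem_range]
      omega
    · rw [card_pair]; omega

lemma subset_image (N : ℕ) : blocks (PP N) \ lines (PP N) ⊆
    insert (UU N) ((allowed N).image (fun s => insert 0 (s.image ff))) := by
  intro B hB
  rw [mem_sdiff] at hB
  obtain ⟨hB, hBl⟩ := hB
  rcases block_dich hB with rfl | ⟨a, ha, b, hb, hab, rfl⟩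
  · exact mem_insert_self _ _
  · apply mem_insert_of_mem
    rw [mem_image]
    obtain ⟨i, hi, rfl⟩ := mem_image.1 ha
    obtain ⟨j, hj, rfl⟩ := mem_image.1 hb
    have hij : i ≠ j := fun e => hab (by rw [e])
    refine ⟨{i, j}, ?_, ?_⟩
    · rw [allowed, mem_sdiff, mem_powersetCard]
      refine ⟨⟨?_, card_pair hij⟩, ?_⟩
      · intro x hx
        simp only [mem_insert, mem_singleton] at hx
        rcases hx with rfl | rfl <;> assumption
      · intro hcon
        obtain ⟨k, hk, hk2⟩ := mem_image.1 hcon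
        apply hBl
        have hcr : cr 0 (ff i) (ff j) = 0 := by
          have h1 : i ∈ ({2 * k, 2 * k + 1} : Finset ℕ) := by rw [hk2]; simp
          have h2 : j ∈ ({2 * k, 2 * k + 1} : Finset ℕ) := by rw [hk2]; simp
          simp only [mem_insert, mem_singleton] at h1 h2
          rcases h1 with rfl | rfl <;> rcases h2 with rfl | rfl
          · exact absurd rfl hij
          · rw [ff_odd]; simp [cr]; ring
          · rw [ff_odd]; simp [cr]; ring
          · exact absurd rfl hij
        exact block_mem_lines hB (a := 0) (b := ff i) (c := ff j) (by simp) (by simp) (by simp)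
          (ff_ne_zero i).symm (ff_ne_zero j) hab.symm hcr
    · ext x
      simp [image_insert]

lemma card_le (N : ℕ) : (blocks (PP N) \ lines (PP N)).card ≤ N.choose 2 - N / 2 + 1 := by
  calc _ ≤ _ := card_le_card (subset_image N)
    _ ≤ _ := card_insert_le _ _
    _ ≤ (allowed N).card + 1 := by gcongr; exact card_image_le
    _ = _ := by rw [card_allowed]

/-- the example as a set of points of the plane -/
def EX (N : ℕ) : Finset Plane := (PP N).image psi

lemma psi_inj : Function.Injective psi := fun u v e => by rw [← phi_psi u, e, phi_psi]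

lemma image_EX (N : ℕ) : (EX N).image phi = PP N := by
  rw [EX, image_image]
  have : phi ∘ psi = id := by funext x; exact phi_psi x
  rw [this, image_id]

lemma card_EX (N : ℕ) : (EX N).card = N + 1 := by
  rw [EX, card_image_of_injective _ psi_inj, card_PP]

lemma adm_EX (N : ℕ) (hN : 3 ≤ N) : Admissible (EX N : Set Plane) := by
  rw [admissible_iff _ (by rw [card_EX]; omega), image_EX]
  intro B hB
  rcases block_dich hB with rfl | ⟨a, ha, b, hb, hab, rfl⟩
  · exact ⟨0, mem_insert_self _ _, zero_notMem N⟩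
  · by_contra hcon
    push Not at hcon
    have h1 := card_le_card (show PP N ⊆ {0, a, b} from hcon)
    rw [card_PP] at h1
    have h2 : ({0, a, b} : Finset Pt).card ≤ 3 := card_le_three
    omega

theorem upper (N : ℕ) : (Circles (EX N : Set Plane)).ncard ≤ N.choose 2 - N / 2 + 1 := by
  rw [ncard_circles, image_EX]
  exact card_le N

end

end Pool.Agent.N390.CircUpper
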