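import Mathlib
import Pool.Agent.Helper543.Small

/-! Counting by sizes when every block has at most four points. -/

namespace Pool.Agent.N390.Cnt

open Finset Pool.Agent.Helper543.Count Pool.Agent.Helper543.Bounds

variable {α : Type} [DecidableEq α]

/-- number of members of size `k` -/
def q (k : ℕ) (T : Finset (Finset α)) : ℤ := ((T.filter (fun b => b.card = k)).card : ℤ)

/-- number of members of size `k` through `x` -/
def qx (k : ℕ) (T : Finset (Finset α)) (x : α) : ℤ := q k (T.filter (fun b => x ∈ b))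

lemma q_nonneg (k : ℕ) (T : Finset (Finset α)) : 0 ≤ q k T := by unfold q; positivity

lemma qx_nonneg (k : ℕ) (T : Finset (Finset α)) (x : α) : 0 ≤ qx k T x := q_nonneg _ _

lemma q_eq_sum (k : ℕ) (T : Finset (Finset α)) : q k T = ∑ b ∈ T, if b.card = k then 1 else 0 := by
  unfold q
  rw [card_filter]
  push_cast
  rfl

lemma sum34 {T : Finset (Finset α)} (h : ∀ b ∈ T, 3 ≤ b.card ∧ b.card ≤ 4) (f : ℕ → ℤ) :
    ∑ b ∈ T, f b.card = f 3 * q 3 T + f 4 * q 4 T := by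
  rw [q_eq_sum, q_eq_sum, mul_sum, mul_sum, ← sum_add_distrib]
  refine sum_congr rfl fun b hb => ?_
  have h1 := h b hb
  have h2 : b.card = 3 ∨ b.card = 4 := by omega
  rcases h2 with h2 | h2 <;> simp [h2]

lemma sum24 {T : Finset (Finset α)} (h : ∀ b ∈ T, 2 ≤ b.card ∧ b.card ≤ 4) (f : ℕ → ℤ) :
    ∑ b ∈ T, f b.card = f 2 * q 2 T + f 3 * q 3 T + f 4 * q 4 T := by
  rw [q_eq_sum, q_eq_sum, q_eq_sum, mul_sum, mul_sum, mul_sum, ← sum_add_distrib,
    ← sum_add_distrib]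
  refine sum_congr rfl fun b hb => ?_
  have h1 := h b hb
  have h2 : b.card = 2 ∨ b.card = 3 ∨ b.card = 4 := by omega
  rcases h2 with h2 | h2 | h2 <;> simp [h2]

lemma sum_qx (k : ℕ) (T : Finset (Finset α)) (P : Finset α) (h : ∀ b ∈ T, b ⊆ P) :
    ∑ x ∈ P, qx k T x = k * q k T := by
  unfold qx
  simp_rw [q_eq_sum]
  rw [sum_point, mul_sum]
  refine sum_congr rfl fun b hb => ?_
  rw [inter_eq_left.2 (h b hb)]
  split_ifs with h1
  · rw [h1]
  · simp

section
variable (S : Cfg α)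

lemma hL4 (h4 : ∀ b ∈ S.B, b.card ≤ 4) : ∀ l ∈ S.L, 2 ≤ l.card ∧ l.card ≤ 4 := by
  intro l hl
  refine ⟨S.hL2 l hl, ?_⟩
  by_cases h3 : 3 ≤ l.card
  · exact h4 l (S.hLB l hl h3)
  · omega

lemma hC4 (h4 : ∀ b ∈ S.B, b.card ≤ 4) : ∀ l ∈ S.circ, 3 ≤ l.card ∧ l.card ≤ 4 := by
  intro l hl
  exact ⟨S.hB3 l (mem_sdiff.1 hl).1, h4 l (mem_sdiff.1 hl).1⟩

lemma sumB (h4 : ∀ b ∈ S.B, b.card ≤ 4) (f : ℕ → ℤ) : ∑ b ∈ S.B, f b.card =
    f 3 * (q 3 S.circ + q 3 S.L) + f 4 * (q 4 S.circ + q 4 S.L) := by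
  rw [split_B S (fun b => f b.card), sum34 (hC4 S h4) f]
  have := sum24 (hL4 S h4) (fun k => if (3 : ℤ) ≤ k then f k else 0)
  rw [this]
  norm_num
  ring

lemma sumBx (h4 : ∀ b ∈ S.B, b.card ≤ 4) (f : ℕ → ℤ) (x : α) :
    ∑ b ∈ S.B with x ∈ b, f b.card =
    f 3 * (qx 3 S.circ x + qx 3 S.L x) + f 4 * (qx 4 S.circ x + qx 4 S.L x) := by
  rw [sum_filter, split_B S (fun b => if x ∈ b then f b.card else 0), ← sum_filter,
    sum34 (fun b hb => hC4 S h4 b (mem_filter.1 hb).1) f]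
  have h1 : ∑ l ∈ S.L, (if (3 : ℤ) ≤ l.card then (if x ∈ l then f l.card else 0) else 0) =
      ∑ l ∈ S.L with x ∈ l, (if (3 : ℤ) ≤ l.card then f l.card else 0) := by
    rw [sum_filter]
    refine sum_congr rfl fun l _ => ?_
    split_ifs <;> rfl
  rw [h1]
  have := sum24 (T := S.L.filter (fun b => x ∈ b)) (fun b hb => hL4 S h4 b (mem_filter.1 hb).1)
    (fun k => if (3 : ℤ) ≤ k then f k else 0)
  rw [this]
  unfold qx
  norm_num
  ring

theorem glob (h4 : ∀ b ∈ S.B, b.card ≤ 4) :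
    cc S = q 3 S.circ + q 4 S.circ ∧
    6 * (q 3 S.circ + q 3 S.L) + 24 * (q 4 S.circ + q 4 S.L) =
      (S.P.card : ℤ) * (S.P.card - 1) * (S.P.card - 2) ∧
    2 * q 2 S.L + 6 * q 3 S.L + 12 * q 4 S.L = (S.P.card : ℤ) * (S.P.card - 1) ∧
    -3 * (q 3 S.circ + q 3 S.L) ≤ -3 * (S.P.card : ℤ) ∧
    -3 * q 3 S.circ - 2 * q 2 S.L + 4 * q 4 S.L ≤ -3 * (S.P.card : ℤ) ∧
    - q 2 S.L + q 4 S.L ≤ -3 := by
  have e1 := Etot S
  have e2 := Epair S
  have e3 := U3tot S
  have e4 := U5 S (Subset.refl S.P)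
  have e5 := S.m3
  have h2 : ∀ b ∈ S.circ, (b ∩ S.P) = b := fun b hb => inter_eq_left.2 (S.hBP b (mem_sdiff.1 hb).1)
  have h3 : ∀ b ∈ S.L, (b ∩ S.P) = b := fun b hb => inter_eq_left.2 (S.hLP b hb)
  rw [sum_congr rfl (fun b hb => by rw [h2 b hb]), sum_congr (s₁ := S.L) rfl
    (fun b hb => by rw [h3 b hb])] at e4
  have a1 := sumB S h4 (fun k => (k : ℤ) * (k - 1) * (k - 2))
  have a2 := sum24 (hL4 S h4) (fun k => (k : ℤ) * (k - 1))
  have a3 := sumB S h4 (fun k => (k : ℤ) * ((k : ℤ) - 4))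
  have a4 := sum34 (hC4 S h4) (fun k => (k : ℤ) * ((k : ℤ) - 4))
  have a5 := sum24 (hL4 S h4) (fun k => (k : ℤ) * ((k : ℤ) - 3))
  have a6 := sum24 (hL4 S h4) (fun k => (k : ℤ) - 3)
  have a7 := sum34 (hC4 S h4) (fun _ => 1)
  rw [a1] at e1
  rw [a2] at e2
  rw [a3] at e3
  rw [a4, a5] at e4
  rw [a6] at e5
  refine ⟨?_, ?_, ?_, ?_, ?_, ?_⟩
  · unfold cc
    rw [card_eq_sum_ones]
    push_cast
    rw [a7]; ring
  · rw [← e1]; norm_num
  · rw [← e2]; norm_num
  · refine le_trans (le_of_eq ?_) e3; norm_num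
  · refine le_trans (le_of_eq ?_) e4; norm_num; ring
  · refine le_trans (le_of_eq ?_) e5; norm_num

theorem loc (h4 : ∀ b ∈ S.B, b.card ≤ 4) {x : α} (hx : x ∈ S.P) :
    2 * (qx 3 S.circ x + qx 3 S.L x) + 6 * (qx 4 S.circ x + qx 4 S.L x) =
      ((S.P.card : ℤ) - 1) * (S.P.card - 2) ∧
    qx 2 S.L x + 2 * qx 3 S.L x + 3 * qx 4 S.L x = (S.P.card : ℤ) - 1 ∧
    -(qx 3 S.circ x + qx 3 S.L x) ≤ -3 ∧
    -qx 3 S.circ x - qx 2 S.L x + qx 4 S.L x ≤ -3 := by
  have hxP : ({x} : Finset α) ⊆ S.P := singleton_subset_iff.2 hx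
  have e1 := E2 S hxP
  have e2 := E5 S hxP
  have e3 := S.m1 x hx
  have e4 := S.m2 x hx
  have hT : ∀ b : Finset α, ((b ∩ {x}).card : ℤ) = if x ∈ b then 1 else 0 := by
    intro b
    split_ifs with h
    · rw [inter_singleton_of_mem h]; simp
    · rw [inter_singleton_of_notMem h]; simp
  have k1 : ∑ b ∈ S.B, ((b ∩ {x}).card : ℤ) * (((b.card : ℤ) - (b ∩ {x}).card) *
      ((b.card : ℤ) - (b ∩ {x}).card - 1)) = ∑ b ∈ S.B with x ∈ b,
        ((b.card : ℤ) - 1) * ((b.card : ℤ) - 2) := by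
    rw [sum_filter]
    refine sum_congr rfl fun b _ => ?_
    rw [hT]
    split_ifs
    · ring
    · ring
  have k2 : ∑ b ∈ S.L, ((b ∩ {x}).card : ℤ) * ((b.card : ℤ) - (b ∩ {x}).card) =
      ∑ b ∈ S.L with x ∈ b, ((b.card : ℤ) - 1) := by
    rw [sum_filter]
    refine sum_congr rfl fun b _ => ?_
    rw [hT]
    split_ifs
    · ring
    · ring
  have a1 := sumBx S h4 (fun k : ℕ => ((k : ℤ) - 1) * ((k : ℤ) - 2)) x
  have a2 := sum24 (T := S.L.filter (fun b => x ∈ b))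
    (fun b hb => hL4 S h4 b (mem_filter.1 hb).1) (fun k : ℕ => ((k : ℤ) - 1))
  have a3 := sumBx S h4 (fun k : ℕ => (k : ℤ) - 4) x
  rw [k1, a1] at e1
  rw [k2, a2] at e2
  rw [a3] at e3
  have a4 := sum34 (T := S.circ.filter (fun b => x ∈ b))
    (fun b hb => hC4 S h4 b (mem_filter.1 hb).1) (fun k : ℕ => (k : ℤ) - 4)
  have a5 := sum24 (T := S.L.filter (fun b => x ∈ b))
    (fun b hb => hL4 S h4 b (mem_filter.1 hb).1) (fun k : ℕ => (k : ℤ) - 3)
  have hcirc : S.circ = S.B \ S.L := rfl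
  rw [← hcirc, a4, a5] at e4
  rw [card_singleton] at e1 e2
  unfold qx at e1 e3 ⊢
  refine ⟨?_, ?_, ?_, ?_⟩
  · push_cast at e1; linarith
  · push_cast at e2; linarith
  · push_cast at e3; linarith
  · push_cast at e4; linarith

/-- number of blocks of size `k` through `x` and `y` -/
def q2 (k : ℕ) (x y : α) : ℤ := q k (S.B.filter (fun b => x ∈ b ∧ y ∈ b))

theorem loc2 (h4 : ∀ b ∈ S.B, b.card ≤ 4) {x y : α} (hx : x ∈ S.P) (hy : y ∈ S.P) (hxy : x ≠ y) :
    q2 S 3 x y + 2 * q2 S 4 x y = (S.P.card : ℤ) - 2 := by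
  have hP : ({x, y} : Finset α) ⊆ S.P := by
    intro z hz
    rw [mem_insert, mem_singleton] at hz
    rcases hz with rfl | rfl
    · exact hx
    · exact hy
  have e1 := E1 S hP
  rw [card_pair hxy] at e1
  have k1 : ∑ b ∈ S.B, ((b ∩ {x, y}).card : ℤ) * ((b ∩ {x, y}).card - 1) *
      ((b.card : ℤ) - (b ∩ {x, y}).card) = ∑ b ∈ S.B with (x ∈ b ∧ y ∈ b),
        (2 * ((b.card : ℤ) - 2)) := by
    rw [sum_filter]
    refine sum_congr rfl fun b _ => ?_
    by_cases h1 : x ∈ b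
    · by_cases h2 : y ∈ b
      · have : b ∩ {x, y} = {x, y} := by
          ext z; simp only [mem_inter, mem_insert, mem_singleton]
          constructor
          · rintro ⟨_, h⟩; exact h
          · rintro (rfl | rfl)
            · exact ⟨h1, Or.inl rfl⟩
            · exact ⟨h2, Or.inr rfl⟩
        rw [this, card_pair hxy, if_pos ⟨h1, h2⟩]
        push_cast; ring
      · have : b ∩ {x, y} = {x} := by
          ext z; simp only [mem_inter, mem_insert, mem_singleton]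
          constructor
          · rintro ⟨h, rfl | rfl⟩
            · rfl
            · exact absurd h h2
          · rintro rfl
            exact ⟨h1, Or.inl rfl⟩
        rw [this, card_singleton, if_neg (fun h => h2 h.2)]
        push_cast; ring
    · by_cases h2 : y ∈ b
      · have : b ∩ {x, y} = {y} := by
          ext z; simp only [mem_inter, mem_insert, mem_singleton]
          constructor
          · rintro ⟨h, rfl | rfl⟩
            · exact absurd h h1
            · rfl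
          · rintro rfl
            exact ⟨h2, Or.inr rfl⟩
        rw [this, card_singleton, if_neg (fun h => h1 h.1)]
        push_cast; ring
      · have : b ∩ {x, y} = ∅ := by
          ext z; simp only [mem_inter, mem_insert, mem_singleton, notMem_empty, iff_false]
          rintro ⟨h, rfl | rfl⟩
          · exact absurd h h1
          · exact absurd h h2
        rw [this, card_empty, if_neg (fun h => h1 h.1)]
        push_cast; ring
  have a1 := sum34 (T := S.B.filter (fun b => x ∈ b ∧ y ∈ b)) (fun b hb =>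
    ⟨S.hB3 b (mem_filter.1 hb).1, h4 b (mem_filter.1 hb).1⟩) (fun k : ℕ => 2 * ((k : ℤ) - 2))
  rw [k1, a1] at e1
  unfold q2
  push_cast at e1
  linarith

end

end Pool.Agent.N390.Cnt
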