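import Mathlib
import Pool.Agent.N988.ES.Stm

/-!
# Parseval's identity for the crossing of hierarchical lattices (`S_PARS`)
-/

set_option autoImplicit false

open MeasureTheory Set Filter
open scoped Topology
open Pool.Agent.N988.EA Pool.Agent.N988.EC Pool.Agent.N988.EP Pool.Agent.N988.ES

namespace Pool.Agent.N390.ES

open Classical in
/-- indicator -/
noncomputable def ind (P : Prop) : ℝ := if P then 1 else 0

theorem ind_sq (P : Prop) : ind P ^ 2 = ind P := by
  unfold ind
  split_ifs <;> norm_num

theorem sum_ind {α : Type*} [Fintype α] (a : α) (f : α → ℝ) : ∑ x, ind (x = a) * f x = f a := by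
  rw [Finset.sum_eq_single a]
  · unfold ind
    rw [if_pos rfl, one_mul]
  · intro x _ hx
    unfold ind
    rw [if_neg hx, zero_mul]
  · intro h
    exact absurd (Finset.mem_univ a) h

theorem mem_fcell {b n : ℕ} (S : Finset (Edge b (n + 1))) (i : Fin b) (s : Bool) (e : Edge b n) :
    e ∈ fcell S i s ↔ ((i, s, e) : Edge b (n + 1)) ∈ S := by
  unfold fcell
  exact Finset.mem_preimage

theorem fcell_empty {b n : ℕ} (i : Fin b) (s : Bool) :
    fcell (∅ : Finset (Edge b (n + 1))) i s = ∅ := by
  apply Finset.eq_empty_of_forall_notMem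
  intro e he
  rw [mem_fcell] at he
  exact absurd he (Finset.notMem_empty _)

/-- the parts of a set -/
noncomputable def cells {b n : ℕ} (S : Finset (Edge b (n + 1))) :
    Fin b → Finset (Edge b n) × Finset (Edge b n) :=
  fun i => (fcell S i false, fcell S i true)

theorem cells_bij (b n : ℕ) : Function.Bijective (cells (b := b) (n := n)) := by
  classical
  constructor
  · intro S S' h
    apply Finset.ext
    intro e
    obtain ⟨i, s, e'⟩ := e
    have h1 := congrFun h i
    have h2 : fcell S i s = fcell S' i s := by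
      cases s
      · exact congrArg Prod.fst h1
      · exact congrArg Prod.snd h1
    exact (mem_fcell S i s e').symm.trans ((by rw [h2]) : e' ∈ fcell S i s ↔ e' ∈ fcell S' i s) |>.trans
      (mem_fcell S' i s e')
  · intro T
    let A : Finset (Edge b (n + 1)) := Finset.univ.filter (fun e : Fin b × Bool × Edge b n =>
      e.2.2 ∈ (if e.2.1 = true then (T e.1).2 else (T e.1).1))
    have hA : ∀ (i : Fin b) (s : Bool) (e : Edge b n), ((i, s, e) : Edge b (n + 1)) ∈ A ↔
        e ∈ (if s = true then (T i).2 else (T i).1) := by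
      intro i s e
      show ((i, s, e) : Fin b × Bool × Edge b n) ∈ (Finset.univ.filter
        (fun e : Fin b × Bool × Edge b n =>
          e.2.2 ∈ (if e.2.1 = true then (T e.1).2 else (T e.1).1))) ↔ _
      rw [Finset.mem_filter]
      exact ⟨fun h => h.2, fun h => ⟨Finset.mem_univ _, h⟩⟩
    refine ⟨A, ?_⟩
    funext i
    apply Prod.ext
    · apply Finset.ext
      intro e
      have h1 := (mem_fcell A i false e).trans (hA i false e)
      rw [if_neg (by simp)] at h1
      exact h1
    · apply Finset.ext
      intro e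
      have h1 := (mem_fcell A i true e).trans (hA i true e)
      rw [if_pos rfl] at h1
      exact h1

theorem sum_prod {b n : ℕ} (F : Finset (Edge b n) × Finset (Edge b n) → ℝ) :
    ∑ S : Finset (Edge b (n + 1)), ∏ i, F (cells S i) = (∑ q, F q) ^ b := by
  classical
  have h1 : ∑ S : Finset (Edge b (n + 1)), ∏ i, F (cells S i) =
      ∑ T : Fin b → Finset (Edge b n) × Finset (Edge b n), ∏ i, F (T i) :=
    Function.Bijective.sum_comp (cells_bij b n) (fun T => ∏ i, F (T i))
  rw [h1]
  have h2 := Finset.prod_univ_sum (fun _ : Fin b =>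
    (Finset.univ : Finset (Finset (Edge b n) × Finset (Edge b n)))) (fun _ q => F q)
  rw [Fintype.piFinset_univ] at h2
  rw [← h2, Finset.prod_const, Finset.card_univ, Fintype.card_fin]

/-- the factor of a branch -/
noncomputable def g {b n : ℕ} (p : ℝ) (q : Finset (Edge b n) × Finset (Edge b n)) : ℝ :=
  ind (q = (∅, ∅)) - xc p q.1 * xc p q.2

theorem comp (h : S_COMP) {b n : ℕ} (hb : 1 ≤ b) {p : ℝ} (h0 : 0 < p) (h1 : p < 1)
    (S : Finset (Edge b (n + 1))) : xc p S = ind (S = ∅) - ∏ i, g p (cells S i) := by
  classical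
  rw [(h b n hb p h0 h1).2 S]
  have e1 : ∀ i : Fin b, g p (cells S i) =
      ind (fcell S i false = ∅ ∧ fcell S i true = ∅) -
        xc p (fcell S i false) * xc p (fcell S i true) := by
    intro i
    unfold g cells
    simp only [Prod.mk.injEq]
  simp only [e1]
  unfold ind
  congr!

theorem sum_g {b n : ℕ} {p : ℝ} (h1 : xc p (∅ : Finset (Edge b n)) = p)
    (h2 : ∑ S : Finset (Edge b n), xc p S ^ 2 = p) :
    ∑ q : Finset (Edge b n) × Finset (Edge b n), g p q ^ 2 = 1 - p ^ 2 := by
  have e : ∀ q : Finset (Edge b n) × Finset (Edge b n), g p q ^ 2 =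
      ind (q = (∅, ∅)) * (1 - 2 * (xc p q.1 * xc p q.2)) + xc p q.1 ^ 2 * xc p q.2 ^ 2 := by
    intro q
    have hi := ind_sq (q = (∅, ∅))
    unfold g
    linear_combination hi
  simp only [e]
  rw [Finset.sum_add_distrib, sum_ind, Fintype.sum_prod_type]
  have h3 : ∑ x : Finset (Edge b n), ∑ y : Finset (Edge b n), xc p x ^ 2 * xc p y ^ 2 = p * p := by
    rw [← Finset.sum_mul_sum, h2]
  simp only [h1]
  rw [h3]
  ring

/-- `S_PARS` -/
theorem t_PARS (h : S_COMP) : S_PARS := by
  classical
  intro b n hb p h0 h1 hp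
  have hb1 : 1 ≤ b := by omega
  induction n with
  | zero =>
    obtain ⟨⟨e1, e2⟩, -⟩ := h b 0 hb1 p h0 h1
    refine ⟨e1, ?_⟩
    have hu : (Finset.univ : Finset (Finset (Edge b 0))) = {∅, Finset.univ} := by
      apply Finset.ext
      intro S
      rw [Finset.mem_insert, Finset.mem_singleton]
      refine ⟨fun _ => ?_, fun _ => Finset.mem_univ _⟩
      rcases S.eq_empty_or_nonempty with h | ⟨x, hx⟩
      · exact Or.inl h
      · refine Or.inr (Finset.ext fun y => ⟨fun _ => Finset.mem_univ _, fun _ => ?_⟩)
        have hxy : y = x := by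
          show (y : Unit) = (x : Unit)
          rfl
        rw [hxy]
        exact hx
    have hne : (∅ : Finset (Edge b 0)) ≠ Finset.univ := by
      intro hh
      have h3 : ((() : Unit) : Edge b 0) ∈ (∅ : Finset (Edge b 0)) := by
        rw [hh]
        exact Finset.mem_univ _
      exact absurd h3 (Finset.notMem_empty _)
    rw [hu, Finset.sum_pair hne, e1, e2, Real.sq_sqrt (by nlinarith)]
    ring
  | succ n ih =>
    obtain ⟨i1, i2⟩ := ih
    have hc := comp h (n := n) hb1 h0 h1
    have g0 : ∀ i : Fin b, g p (cells (∅ : Finset (Edge b (n + 1))) i) = 1 - p ^ 2 := by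
      intro i
      unfold g cells
      rw [fcell_empty, fcell_empty]
      have e3 : ind (((∅ : Finset (Edge b n)), (∅ : Finset (Edge b n))) = (∅, ∅)) = 1 := by
        unfold ind
        rw [if_pos rfl]
      rw [e3, i1]
      ring
    have p0 : ∏ i : Fin b, g p (cells (∅ : Finset (Edge b (n + 1))) i) = 1 - p := by
      simp only [g0]
      rw [Finset.prod_const, Finset.card_univ, Fintype.card_fin]
      linarith
    constructor
    · rw [hc, p0]
      unfold ind
      rw [if_pos rfl]
      ring
    · have e : ∀ S : Finset (Edge b (n + 1)), xc p S ^ 2 =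
          ind (S = ∅) * (1 - 2 * ∏ i, g p (cells S i)) + ∏ i, g p (cells S i) ^ 2 := by
        intro S
        have hi := ind_sq (S = ∅)
        rw [hc, Finset.prod_pow]
        linear_combination hi
      simp only [e]
      rw [Finset.sum_add_distrib, sum_ind, p0, sum_prod (fun q => g p q ^ 2), sum_g i1 i2]
      linarith

end Pool.Agent.N390.ES
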