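import Mathlib
import Pool.Agent.N390.Cnt

/-! Lower bounds for five, six, seven and eight points: the counting part. -/

namespace Pool.Agent.N390.Low

open Finset Pool.Agent.Helper543.Count Pool.Agent.Helper543.Bounds Pool.Agent.Helper543.Small
open Pool.Agent.N390.Cnt

variable {α : Type} [DecidableEq α]

lemma big (S : Cfg α) (hn : 3 ≤ S.P.card) (hPB : S.P ∉ S.B) : ∃ C ∈ S.B,
    (∀ b ∈ S.B, b.card ≤ C.card) ∧ (∀ l ∈ S.L, l.card ≤ C.card) ∧ C.card < S.P.card ∧
      3 ≤ C.card := by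
  have hBne : S.B.Nonempty := by
    have h2 : 2 < S.P.card := by omega
    obtain ⟨x, y, z, hx, hy, hz, hxy, hxz, hyz⟩ := two_lt_card_iff.1 h2
    obtain ⟨b, hb, _⟩ := S.ex3 x hx y hy z hz hxy hxz hyz
    exact ⟨b, hb⟩
  obtain ⟨C, hCB, hCmax⟩ := exists_max_image S.B card hBne
  have hC3 := S.hB3 C hCB
  have hL : ∀ l ∈ S.L, l.card ≤ C.card := by
    intro l hl
    by_cases h3 : 3 ≤ l.card
    · exact hCmax l (S.hLB l hl h3)
    · omega
  have hCP := S.hBP C hCB
  have hlt : C.card < S.P.card := by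
    apply card_lt_card
    refine (Finset.ssubset_iff_subset_ne).2 ⟨hCP, fun e => hPB (e ▸ hCB)⟩
  exact ⟨C, hCB, hCmax, hL, hlt, hC3⟩

/-- near pencils -/
lemma near (S : Cfg α) {C : Finset α} (hCB : C ∈ S.B) (hm : ∀ b ∈ S.B, b.card ≤ C.card)
    (hL : ∀ l ∈ S.L, l.card ≤ C.card) (hn : S.P.card = C.card + 1) : T S.P.card < cc S := by
  by_cases hCL : C ∈ S.L
  · exact nearB S hCL (S.hB3 C hCB) hm hL hn
  · exact nearA S (mem_sdiff.2 ⟨hCB, hCL⟩) hm hL hn

theorem low4 (S : Cfg α) (hn : S.P.card = 4) (hPB : S.P ∉ S.B) : 3 ≤ cc S := by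
  obtain ⟨C, hCB, hm, hL, hlt, hC3⟩ := big S (by omega) hPB
  have := near S hCB hm hL (by omega)
  rw [hn] at this
  have e : T 4 = 2 := by decide
  omega

theorem low5 (S : Cfg α) (hn : S.P.card = 5) (hPB : S.P ∉ S.B) : 5 ≤ cc S := by
  obtain ⟨C, hCB, hm, hL, hlt, hC3⟩ := big S (by omega) hPB
  by_cases h4 : C.card = 4
  · have := near S hCB hm hL (by omega)
    rw [hn] at this
    have e : T 5 = 4 := by decide
    omega
  · have h3 : ∀ b ∈ S.B, b.card ≤ 4 := fun b hb => by have := hm b hb; omega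
    obtain ⟨e1, e2, e3, e4, e5, e6⟩ := glob S h3
    have z : q 4 S.circ = 0 := by
      unfold q
      rw [filter_false_of_mem]
      · rfl
      · intro b hb
        have := hm b (mem_sdiff.1 hb).1
        omega
    have z2 : q 4 S.L = 0 := by
      unfold q
      rw [filter_false_of_mem]
      · rfl
      · intro b hb
        have := hL b hb
        omega
    have n1 := q_nonneg 3 S.circ
    have n2 := q_nonneg 2 S.L
    have n3 := q_nonneg 3 S.L
    rw [hn] at e2 e3 e4 e5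
    norm_num at e2 e3 e4 e5
    omega

theorem low6 (S : Cfg α) (hn : S.P.card = 6) (hPB : S.P ∉ S.B) : 8 ≤ cc S ∨
    ((∀ b ∈ S.B, b.card ≤ 4) ∧ q 3 S.circ = 4 ∧ q 4 S.circ = 3 ∧ q 2 S.L = 3 ∧ q 3 S.L = 4 ∧
      q 4 S.L = 0) := by
  obtain ⟨C, hCB, hm, hL, hlt, hC3⟩ := big S (by omega) hPB
  by_cases h5 : C.card = 5
  · have := near S hCB hm hL (by omega)
    rw [hn] at this
    have e : T 6 = 8 := by decide
    left
    omega
  · have h4 : ∀ b ∈ S.B, b.card ≤ 4 := fun b hb => by have := hm b hb; omega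
    obtain ⟨e1, e2, e3, e4, e5, e6⟩ := glob S h4
    have n1 := q_nonneg 3 S.circ
    have n2 := q_nonneg 2 S.L
    have n3 := q_nonneg 3 S.L
    have n4 := q_nonneg 4 S.circ
    have n5 := q_nonneg 4 S.L
    rw [hn] at e2 e3 e4 e5
    norm_num at e2 e3 e4 e5
    by_cases h8 : 8 ≤ cc S
    · exact Or.inl h8
    · right
      refine ⟨h4, ?_⟩
      generalize q 3 S.L = l3 at *
      generalize q 4 S.L = l4 at *
      have b1 : l3 ≤ 5 := by omega
      have b2 : l4 ≤ 2 := by omega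
      interval_cases l3 <;> interval_cases l4 <;> omega

theorem low7 (S : Cfg α) (hn : S.P.card = 7) (hPB : S.P ∉ S.B) : 11 ≤ cc S ∨
    ((∀ b ∈ S.B, b.card ≤ 4) ∧ q 3 S.circ = 3 ∧ q 4 S.circ = 7 ∧ q 2 S.L = 9 ∧ q 3 S.L = 4 ∧
      q 4 S.L = 0) := by
  obtain ⟨C, hCB, hm, hL, hlt, hC3⟩ := big S (by omega) hPB
  by_cases h6 : C.card = 6
  · have := near S hCB hm hL (by omega)
    rw [hn] at this
    have e : T 7 = 12 := by decide
    left
    omega
  by_cases h5 : C.card = 5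
  · left
    by_cases hCL : C ∈ S.L
    · have := LB1B S hCL hC3 hm hL (by omega)
      rw [hn, h5] at this
      norm_num at this
      omega
    · have := LB1A S (mem_sdiff.2 ⟨hCB, hCL⟩) hm hL (by omega)
      rw [hn, h5] at this
      norm_num at this
      omega
  · have h4 : ∀ b ∈ S.B, b.card ≤ 4 := fun b hb => by have := hm b hb; omega
    obtain ⟨e1, e2, e3, e4, e5, e6⟩ := glob S h4
    have n1 := q_nonneg 3 S.circ
    have n2 := q_nonneg 2 S.L
    have n3 := q_nonneg 3 S.L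
    have n4 := q_nonneg 4 S.circ
    have n5 := q_nonneg 4 S.L
    rw [hn] at e2 e3 e4 e5
    norm_num at e2 e3 e4 e5
    by_cases h8 : 11 ≤ cc S
    · exact Or.inl h8
    · right
      refine ⟨h4, ?_⟩
      generalize q 3 S.L = l3 at *
      generalize q 4 S.L = l4 at *
      have b1 : l3 ≤ 6 := by omega
      have b2 : l4 ≤ 3 := by omega
      interval_cases l3 <;> interval_cases l4 <;> omega

/-- multipliers -/
def w85 : Wt := ⟨6, 3, 1, 0, 0, -2, 0, 0, 0, 0, 0, 0, 5, 2⟩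

theorem tab85a : ∀ k : ℕ, k < 6 → ∀ j : ℕ, j < 3 → 3 ≤ k → j ≤ k → k ≤ 3 + j →
      Wc w85 (k : ℤ) (j : ℤ) ≤ 6 := by
  decide +kernel

theorem tab85b : ∀ k : ℕ, k < 6 → ∀ j : ℕ, j < 3 → 2 ≤ k → j ≤ k → k ≤ 3 + j →
      Wl w85 (k : ℤ) (j : ℤ) ≤ 0 := by
  decide +kernel

theorem tab85c : 6 * 15 < R w85 8 5 2 - Wc w85 5 5 := by
  decide +kernel

theorem low8' (S : Cfg α) (hn : S.P.card = 8) (hPB : S.P ∉ S.B) : 17 ≤ cc S ∨
    ((∀ b ∈ S.B, b.card ≤ 4) ∧ ((q 4 S.circ = 11 ∧ q 3 S.L = 7 ∧ q 4 S.L = 0) ∨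
      (q 4 S.circ + q 4 S.L = 12 ∧ (3 ≤ q 3 S.L ∨ (q 3 S.L = 2 ∧ q 4 S.L = 2))))) := by
  obtain ⟨C, hCB, hm, hL, hlt, hC3⟩ := big S (by omega) hPB
  by_cases h7 : C.card = 7
  · have := near S hCB hm hL (by omega)
    rw [hn] at this
    have e : T 8 = 18 := by decide
    left
    omega
  by_cases h6 : C.card = 6
  · left
    by_cases hCL : C ∈ S.L
    · have := LB1B S hCL hC3 hm hL (by omega)
      rw [hn, h6] at this
      norm_num at this
      omega
    · have := LB1A S (mem_sdiff.2 ⟨hCB, hCL⟩) hm hL (by omega)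
      rw [hn, h6] at this
      norm_num at this
      omega
  by_cases h5 : C.card = 5
  · left
    by_cases hCL : C ∈ S.L
    · have := LB1B S hCL hC3 hm hL (by omega)
      rw [hn, h5] at this
      norm_num at this
      omega
    · have t1 := tab85a
      have t2 := tab85b
      have t3 := tab85c
      have := caseA S (mem_sdiff.2 ⟨hCB, hCL⟩) w85 (by decide) (by decide) (by decide)
        (by decide) (by decide) (by decide) (by decide) hm hL
        (fun k j hk hkm hj hjk h => t1 k (by omega) j (by omega) hk hjk (by omega))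
        (fun k j hk hkm hj hjk h => t2 k (by omega) j (by omega) hk hjk (by omega))
      rw [hn, h5] at this
      have e3 : ((5 / 2 : ℕ) : ℤ) = 2 := by norm_num
      have e4 : w85.D = 6 := rfl
      have e5 : R w85 ((8 : ℕ) : ℤ) ((5 : ℕ) : ℤ) 2 = R w85 8 5 2 := rfl
      have e6 : Wc w85 ((5 : ℕ) : ℤ) ((5 : ℕ) : ℤ) = Wc w85 5 5 := rfl
      rw [e3, e4, e5, e6] at this
      omega
  · have h4 : ∀ b ∈ S.B, b.card ≤ 4 := fun b hb => by have := hm b hb; omega
    obtain ⟨e1, e2, e3, e4, e5, e6⟩ := glob S h4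
    have n1 := q_nonneg 3 S.circ
    have n2 := q_nonneg 2 S.L
    have n3 := q_nonneg 3 S.L
    have n4 := q_nonneg 4 S.circ
    have n5 := q_nonneg 4 S.L
    rw [hn] at e2 e3 e4 e5
    norm_num at e2 e3 e4 e5
    by_cases h8 : 17 ≤ cc S
    · exact Or.inl h8
    · right
      refine ⟨h4, ?_⟩
      generalize q 3 S.L = l3 at *
      generalize q 4 S.L = l4 at *
      have b1 : l3 ≤ 8 := by omega
      have b2 : l4 ≤ 3 := by omega
      interval_cases l3 <;> interval_cases l4 <;> omega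

end Pool.Agent.N390.Low
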