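import Mathlib
import Pool.Agent.N390.Low

/-! The lower bound for eight points. -/

namespace Pool.Agent.N390.Eight

open Finset Pool.Agent.Helper543.Count Pool.Agent.Helper543.Bounds Pool.Agent.Helper543.Small
open Pool.Agent.N390.Cnt Pool.Agent.N390.Low

variable {α : Type} [DecidableEq α]

lemma qB3 (S : Cfg α) (h4 : ∀ b ∈ S.B, b.card ≤ 4) (x : α) :
    q 3 (S.B.filter (fun b => x ∈ b)) = qx 3 S.circ x + qx 3 S.L x := by
  have h := sumBx S h4 (fun k => if k = 3 then 1 else 0) x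
  rw [q_eq_sum, h]
  norm_num

lemma exists_two_of_q {T : Finset (Finset α)} {k : ℕ} (h : 2 ≤ q k T) (l : Finset α) :
    ∃ D ∈ T, D.card = k ∧ D ≠ l := by
  unfold q at h
  have h1 : 1 < (T.filter (fun b => b.card = k)).card := by exact_mod_cast h
  obtain ⟨D, hD, hne⟩ := exists_mem_ne h1 l
  rw [mem_filter] at hD
  exact ⟨D, hD.1, hD.2, hne⟩

lemma one_le_q {T : Finset (Finset α)} {k : ℕ} {l : Finset α} (h : l ∈ T) (hk : l.card = k) :
    1 ≤ q k T := by
  unfold q
  have : 0 < (T.filter (fun b => b.card = k)).card := card_pos.2 ⟨l, mem_filter.2 ⟨h, hk⟩⟩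
  exact_mod_cast this

/-- an even number of blocks of size three through each pair: no two lines of size three meet -/
lemma no_two (S : Cfg α) (h4 : ∀ b ∈ S.B, b.card ≤ 4) (hev : ∀ x ∈ S.P, ∀ y ∈ S.P, x ≠ y →
    Even (q2 S 3 x y)) {x : α} (h3 : q 3 (S.B.filter (fun b => x ∈ b)) = 3)
    {l l' : Finset α} (hl : l ∈ S.L) (hl' : l' ∈ S.L) (hne : l ≠ l') (c : l.card = 3)
    (c' : l'.card = 3) (hx : x ∈ l) (hx' : x ∈ l') : False := by
  have hlB := S.hLB l hl (by omega)
  have hlB' := S.hLB l' hl' (by omega)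
  set T := (S.B.filter (fun b => x ∈ b)).filter (fun b => b.card = 3) with hT
  have hTc : T.card = 3 := by unfold q at h3; exact_mod_cast h3
  have m1 : l ∈ T := by rw [hT, mem_filter, mem_filter]; exact ⟨⟨hlB, hx⟩, c⟩
  have m2 : l' ∈ T := by rw [hT, mem_filter, mem_filter]; exact ⟨⟨hlB', hx'⟩, c'⟩
  have hR : ((T.erase l).erase l').card = 1 := by
    rw [card_erase_of_mem (mem_erase.2 ⟨hne.symm, m2⟩), card_erase_of_mem m1, hTc]
  obtain ⟨D, hD⟩ := card_eq_one.1 hR
  have hDm : D ∈ (T.erase l).erase l' := by rw [hD]; exact mem_singleton_self D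
  rw [mem_erase, mem_erase, hT, mem_filter, mem_filter] at hDm
  obtain ⟨d1, d2, ⟨d3, d4⟩, d5⟩ := hDm
  have hP := S.hLP l hl
  have hsub : l ⊆ D := by
    intro y hy
    by_cases hyx : y = x
    · rw [hyx]; exact d4
    have e1 := hev x (hP hx) y (hP hy) (Ne.symm hyx)
    have e2 : 1 ≤ q2 S 3 x y := one_le_q (mem_filter.2 ⟨hlB, hx, hy⟩) c
    have e3 : 2 ≤ q2 S 3 x y := by
      obtain ⟨r, hr⟩ := e1
      omega
    obtain ⟨E, hE, hEc, hEl⟩ := exists_two_of_q e3 l
    rw [mem_filter] at hE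
    have hEl' : E ≠ l' := by
      rintro rfl
      exact hne (S.un2 l hl E hl' x y (Ne.symm hyx) hx hy hx' hE.2.2)
    have : E ∈ (T.erase l).erase l' := by
      rw [mem_erase, mem_erase, hT, mem_filter, mem_filter]
      exact ⟨hEl', hEl, ⟨hE.1, hE.2.1⟩, hEc⟩
    rw [hD, mem_singleton] at this
    rw [← this]
    exact hE.2.2
  exact d2 (eq_of_subset_of_card_le hsub (by omega)).symm

theorem low8 (S : Cfg α) (hn : S.P.card = 8) (hPB : S.P ∉ S.B) : 17 ≤ cc S := by
  rcases low8' S hn hPB with h | ⟨h4, h⟩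
  · exact h
  exfalso
  have hC : ∀ b ∈ S.circ, b ⊆ S.P := fun b hb => S.hBP b (mem_sdiff.1 hb).1
  have hL : ∀ b ∈ S.L, b ⊆ S.P := S.hLP
  have s4c := sum_qx 4 S.circ S.P hC
  have s4l := sum_qx 4 S.L S.P hL
  have s3l := sum_qx 3 S.L S.P hL
  rcases h with ⟨a1, a2, a3⟩ | ⟨a1, a2⟩
  · have h1 : ∑ x ∈ S.P, (qx 4 S.circ x + qx 3 S.L x) ≤ ∑ x ∈ S.P, (8 : ℤ) := by
      apply sum_le_sum
      intro x hx
      obtain ⟨e1, e2, e3, e4⟩ := loc S h4 hx
      have := qx_nonneg 4 S.L x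
      rw [hn] at e1 e2
      norm_num at e1 e2
      omega
    rw [sum_add_distrib, s4c, s3l, a1, a2, sum_const, hn] at h1
    norm_num at h1
  · have h1 : ∀ x ∈ S.P, 0 ≤ 6 - (qx 4 S.circ x + qx 4 S.L x) := by
      intro x hx
      obtain ⟨e1, e2, e3, e4⟩ := loc S h4 hx
      rw [hn] at e1 e2
      norm_num at e1 e2
      omega
    have h2 : ∑ x ∈ S.P, (6 - (qx 4 S.circ x + qx 4 S.L x)) = 0 := by
      rw [sum_sub_distrib, sum_add_distrib, s4c, s4l, sum_const, hn]
      norm_num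
      linarith
    have h3 := (sum_eq_zero_iff_of_nonneg h1).1 h2
    have hB3 : ∀ x ∈ S.P, q 3 (S.B.filter (fun b => x ∈ b)) = 3 := by
      intro x hx
      obtain ⟨e1, e2, e3, e4⟩ := loc S h4 hx
      have := h3 x hx
      rw [qB3 S h4]
      rw [hn] at e1 e2
      norm_num at e1 e2
      omega
    have hev : ∀ x ∈ S.P, ∀ y ∈ S.P, x ≠ y → Even (q2 S 3 x y) := by
      intro x hx y hy hxy
      have := loc2 S h4 hx hy hxy
      rw [hn] at this
      norm_num at this
      refine ⟨3 - q2 S 4 x y, by linarith⟩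
    have hl3 : ∀ x ∈ S.P, qx 3 S.L x ≤ 1 := by
      intro x hx
      by_contra hcon
      push Not at hcon
      obtain ⟨l, hl, hlc, _⟩ := exists_two_of_q (show 2 ≤ qx 3 S.L x by omega) ∅
      obtain ⟨l', hl', hlc', hne⟩ := exists_two_of_q (show 2 ≤ qx 3 S.L x by omega) l
      rw [mem_filter] at hl hl'
      exact no_two S h4 hev (hB3 x hx) hl.1 hl'.1 hne.symm hlc hlc' hl.2 hl'.2
    have h5 : ∑ x ∈ S.P, qx 3 S.L x ≤ ∑ x ∈ S.P, (1 : ℤ) := sum_le_sum hl3
    rw [s3l, sum_const, hn] at h5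
    norm_num at h5
    have a3 : q 3 S.L = 2 ∧ q 4 S.L = 2 := by omega
    obtain ⟨a3, a4⟩ := a3
    obtain ⟨A, hA, cA, _⟩ := exists_two_of_q (show 2 ≤ q 4 S.L by omega) ∅
    obtain ⟨B, hB, cB, hne⟩ := exists_two_of_q (show 2 ≤ q 4 S.L by omega) A
    obtain ⟨D, hD, cD, _⟩ := exists_two_of_q (show 2 ≤ q 3 S.L by omega) ∅
    have hdis : Disjoint A B := by
      rw [disjoint_left]
      intro x hxA hxB
      have hx := hL A hA hxA
      obtain ⟨e1, e2, e3, e4⟩ := loc S h4 hx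
      have k := h3 x hx
      rw [hn] at e1 e2
      norm_num at e1 e2
      have n1 := qx_nonneg 3 S.L x
      have k2 : 2 ≤ qx 4 S.L x := by
        have : 1 < ((S.L.filter (fun b => x ∈ b)).filter (fun b => b.card = 4)).card := by
          rw [one_lt_card]
          exact ⟨A, by rw [mem_filter, mem_filter]; exact ⟨⟨hA, hxA⟩, cA⟩,
            B, by rw [mem_filter, mem_filter]; exact ⟨⟨hB, hxB⟩, cB⟩, hne.symm⟩
        unfold qx q
        exact_mod_cast this
      omega
    have hun : A ∪ B = S.P := by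
      apply eq_of_subset_of_card_le (union_subset (hL A hA) (hL B hB))
      rw [card_union_of_disjoint hdis]; omega
    have hDA : D ≠ A := by rintro rfl; omega
    have hDB : D ≠ B := by rintro rfl; omega
    have i1 := inter_le_one S hD hA hDA
    have i2 := inter_le_one S hD hB hDB
    have i3 : D = (D ∩ A) ∪ (D ∩ B) := by
      rw [← inter_union_distrib_left, hun, inter_eq_left.2 (hL D hD)]
    have i4 := card_union_le (D ∩ A) (D ∩ B)
    rw [← i3] at i4
    omega

end Pool.Agent.N390.Eight
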