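import Mathlib
import Pool.Agent.Helper543.PlaneC

/-! Inversion and the four-point determinant. -/

namespace Pool.Agent.N390.Hex

open Finset Pool.Agent.Helper543.Melchior
open Pool.Agent.Helper543.Blocks Pool.Agent.Helper543.PlaneC

noncomputable section

lemma G_iv {p a b c d : Pt} (ha : a ≠ p) (hb : b ≠ p) (hc : c ≠ p) (hd : d ≠ p) :
    G (iv p a) (iv p b) (iv p c) (iv p d) * (nrm p a * nrm p b * nrm p c * nrm p d) =
      - G a b c d := by
  have h1 := (nrm_pos ha).ne'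
  have h2 := (nrm_pos hb).ne'
  have h3 := (nrm_pos hc).ne'
  have h4 := (nrm_pos hd).ne'
  have ea : (iv p a).1 ^ 2 + (iv p a).2 ^ 2 = 1 / nrm p a := by
    simp only [iv]; field_simp; simp only [nrm]
  have eb : (iv p b).1 ^ 2 + (iv p b).2 ^ 2 = 1 / nrm p b := by
    simp only [iv]; field_simp; simp only [nrm]
  have ec : (iv p c).1 ^ 2 + (iv p c).2 ^ 2 = 1 / nrm p c := by
    simp only [iv]; field_simp; simp only [nrm]
  have ed : (iv p d).1 ^ 2 + (iv p d).2 ^ 2 = 1 / nrm p d := by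
    simp only [iv]; field_simp; simp only [nrm]
  have hG : ∀ a b c d : Pt, G a b c d =
      cr a c d * (b.1 ^ 2 + b.2 ^ 2) - cr a b d * (c.1 ^ 2 + c.2 ^ 2) +
      cr a b c * (d.1 ^ 2 + d.2 ^ 2) - cr b c d * (a.1 ^ 2 + a.2 ^ 2) := by
    intro a b c d
    simp only [G, nrm, cr]; ring
  rw [hG (iv p a), ea, eb, ec, ed]
  have k1 := cr_iv (p := p) ha hc hd
  have k2 := cr_iv (p := p) ha hb hd
  have k3 := cr_iv (p := p) ha hb hc
  have k4 := cr_iv (p := p) hb hc hd
  have e : (cr (iv p a) (iv p c) (iv p d) * (1 / nrm p b) - cr (iv p a) (iv p b) (iv p d) * (1 / nrm p c) +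
      cr (iv p a) (iv p b) (iv p c) * (1 / nrm p d) - cr (iv p b) (iv p c) (iv p d) * (1 / nrm p a)) *
      (nrm p a * nrm p b * nrm p c * nrm p d) =
      G p a c d - G p a b d + G p a b c - G p b c d := by
    rw [← k1, ← k2, ← k3, ← k4]
    field_simp
  rw [e]
  simp only [G, nrm]
  ring

lemma G_iv_eq_zero {p a b c d : Pt} (ha : a ≠ p) (hb : b ≠ p) (hc : c ≠ p) (hd : d ≠ p) :
    G (iv p a) (iv p b) (iv p c) (iv p d) = 0 ↔ G a b c d = 0 := by
  have h := G_iv (p := p) ha hb hc hd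
  have hn : nrm p a * nrm p b * nrm p c * nrm p d ≠ 0 :=
    mul_ne_zero (mul_ne_zero (mul_ne_zero (nrm_pos ha).ne' (nrm_pos hb).ne') (nrm_pos hc).ne')
      (nrm_pos hd).ne'
  constructor
  · intro h0; rw [h0, zero_mul] at h; linarith
  · intro h0
    rw [h0, neg_zero] at h
    rcases mul_eq_zero.1 h with h' | h'
    · exact h'
    · exact absurd h' hn

/-- coefficients -/
def bet (A d y z : Pt) : ℝ := (d.1 ^ 2 + d.2 ^ 2) * cr A y z

def gam (A d y z : Pt) : ℝ :=
  (d.1 ^ 2 + d.2 ^ 2) * (cr (A.1 + d.1, A.2 + d.2) y z - cr A y z)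

def alp (A d y z : Pt) : ℝ := G A (A.1 + d.1, A.2 + d.2) y z - bet A d y z

lemma G_param (A d y z : Pt) (s t : ℝ) :
    G (A.1 + s * d.1, A.2 + s * d.2) (A.1 + t * d.1, A.2 + t * d.2) y z =
      (t - s) * (alp A d y z + bet A d y z * (s + t) + gam A d y z * (s * t)) := by
  simp only [G, alp, bet, gam, nrm, cr]
  ring

lemma cr_param' (A d y z : Pt) (s : ℝ) :
    (d.1 ^ 2 + d.2 ^ 2) * cr (A.1 + s * d.1, A.2 + s * d.2) y z =
      bet A d y z + gam A d y z * s := by
  simp only [bet, gam, cr]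
  ring

/-- the four types of matchings -/
lemma four_types {s1 s2 s3 s4 s5 α β γ : ℝ} (h12 : s1 < s2) (h23 : s2 < s3) (h34 : s3 < s4)
    (h45 : s4 < s5) (hγ : γ ≠ 0) (L : ℝ → Prop) (hL : ∀ s, L s ↔ β + γ * s = 0)
    (Q : ℝ → ℝ → Prop) (hQ : ∀ s t, Q s t ↔ α + β * (s + t) + γ * (s * t) = 0)
    (hp : L s1 ∨ L s2 ∨ L s3 ∨ L s4 ∨ L s5)
    (hu : ∀ s t, L s → Q s t → s ≠ t → False)
    (h1 : L s1 ∨ Q s1 s2 ∨ Q s1 s3 ∨ Q s1 s4 ∨ Q s1 s5)
    (h2 : L s2 ∨ Q s2 s1 ∨ Q s2 s3 ∨ Q s2 s4 ∨ Q s2 s5)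
    (h3 : L s3 ∨ Q s3 s1 ∨ Q s3 s2 ∨ Q s3 s4 ∨ Q s3 s5)
    (h4 : L s4 ∨ Q s4 s1 ∨ Q s4 s2 ∨ Q s4 s3 ∨ Q s4 s5)
    (h5 : L s5 ∨ Q s5 s1 ∨ Q s5 s2 ∨ Q s5 s3 ∨ Q s5 s4) :
    (L s1 ∧ Q s2 s5) ∨ (L s5 ∧ Q s1 s4) ∨ (L s3 ∧ Q s1 s2) ∨ (L s3 ∧ Q s1 s4) := by
  -- at most one zero of `L`
  have hLu : ∀ s t, L s → L t → s = t := by
    intro s t hs ht
    rw [hL] at hs ht
    have : γ * (s - t) = 0 := by linarith
    rcases mul_eq_zero.1 this with h | h
    · exact absurd h hγ
    · linarith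
  have hsym : ∀ s t, Q s t → Q t s := by
    intro s t h
    rw [hQ] at h ⊢
    linarith
  -- products of offsets are equal
  have hprod : ∀ w, L w → ∀ a b c d, Q a b → Q c d → (a - w) * (b - w) = (c - w) * (d - w) := by
    intro w hw a b c d h h'
    rw [hL] at hw
    rw [hQ] at h h'
    have : γ * ((a - w) * (b - w) - (c - w) * (d - w)) = 0 := by
      have e : β = -γ * w := by linarith
      subst e
      linarith
    rcases mul_eq_zero.1 this with h3 | h3
    · exact absurd h3 hγ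
    · linarith
  rcases hp with hw | hw | hw | hw | hw
  · left
    refine ⟨hw, ?_⟩
    have n2 : ¬ L s2 := fun h => by have := hLu _ _ hw h; linarith
    have n5 : ¬ L s5 := fun h => by have := hLu _ _ hw h; linarith
    have e2 : ¬ Q s2 s1 := fun h => hu s1 s2 hw (hsym _ _ h) (by linarith)
    have e5 : ¬ Q s5 s1 := fun h => hu s1 s5 hw (hsym _ _ h) (by linarith)
    rcases h2 with h2 | h2 | h2 | h2 | h2
    · exact absurd h2 n2
    · exact absurd h2 e2
    · exfalso
      rcases h5 with h5 | h5 | h5 | h5 | h5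
      · exact n5 h5
      · exact e5 h5
      · have := hprod s1 hw _ _ _ _ h2 h5; nlinarith
      · have := hprod s1 hw _ _ _ _ h2 h5; nlinarith
      · have := hprod s1 hw _ _ _ _ h2 h5; nlinarith
    · exfalso
      rcases h5 with h5 | h5 | h5 | h5 | h5
      · exact n5 h5
      · exact e5 h5
      · have := hprod s1 hw _ _ _ _ h2 h5; nlinarith
      · have := hprod s1 hw _ _ _ _ h2 h5; nlinarith
      · have := hprod s1 hw _ _ _ _ h2 h5; nlinarith
    · exact h2
  · exfalso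
    have n1 : ¬ L s1 := fun h => by have := hLu _ _ hw h; linarith
    have n3 : ¬ L s3 := fun h => by have := hLu _ _ hw h; linarith
    have n4 : ¬ L s4 := fun h => by have := hLu _ _ hw h; linarith
    have e1 : ¬ Q s1 s2 := fun h => hu s2 s1 hw (hsym _ _ h) (by linarith)
    have e3 : ¬ Q s3 s2 := fun h => hu s2 s3 hw (hsym _ _ h) (by linarith)
    have e4 : ¬ Q s4 s2 := fun h => hu s2 s4 hw (hsym _ _ h) (by linarith)
    rcases h1 with h1 | h1 | h1 | h1 | h1
    · exact n1 h1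
    · exact e1 h1
    all_goals
      rcases h3 with h3 | h3 | h3 | h3 | h3
      · exact n3 h3
      · rcases h4 with h4 | h4 | h4 | h4 | h4
        · exact n4 h4
        · have := hprod s2 hw _ _ _ _ h3 h4; nlinarith
        · exact e4 h4
        · have := hprod s2 hw _ _ _ _ h1 h4; nlinarith
        · have := hprod s2 hw _ _ _ _ h1 h4; nlinarith
      · exact e3 h3
      · have := hprod s2 hw _ _ _ _ h1 h3; nlinarith
      · have := hprod s2 hw _ _ _ _ h1 h3; nlinarith
  · have n1 : ¬ L s1 := fun h => by have := hLu _ _ hw h; linarith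
    have n2 : ¬ L s2 := fun h => by have := hLu _ _ hw h; linarith
    have e1 : ¬ Q s1 s3 := fun h => hu s3 s1 hw (hsym _ _ h) (by linarith)
    have e2 : ¬ Q s2 s3 := fun h => hu s3 s2 hw (hsym _ _ h) (by linarith)
    rcases h1 with h1 | h1 | h1 | h1 | h1
    · exact absurd h1 n1
    · exact Or.inr (Or.inr (Or.inl ⟨hw, h1⟩))
    · exact absurd h1 e1
    · exact Or.inr (Or.inr (Or.inr ⟨hw, h1⟩))
    · exfalso
      rcases h2 with h2 | h2 | h2 | h2 | h2
      · exact n2 h2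
      · have := hprod s3 hw _ _ _ _ h1 h2; nlinarith
      · exact e2 h2
      · have := hprod s3 hw _ _ _ _ h1 h2; nlinarith
      · have := hprod s3 hw _ _ _ _ h1 h2; nlinarith
  · exfalso
    have n5 : ¬ L s5 := fun h => by have := hLu _ _ hw h; linarith
    have n3 : ¬ L s3 := fun h => by have := hLu _ _ hw h; linarith
    have n2 : ¬ L s2 := fun h => by have := hLu _ _ hw h; linarith
    have e5 : ¬ Q s5 s4 := fun h => hu s4 s5 hw (hsym _ _ h) (by linarith)
    have e3 : ¬ Q s3 s4 := fun h => hu s4 s3 hw (hsym _ _ h) (by linarith)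
    have e2 : ¬ Q s2 s4 := fun h => hu s4 s2 hw (hsym _ _ h) (by linarith)
    rcases h5 with h5 | h5 | h5 | h5 | h5
    · exact n5 h5
    pick_goal 4
    · exact e5 h5
    all_goals
      rcases h3 with h3 | h3 | h3 | h3 | h3
      · exact n3 h3
      · have := hprod s4 hw _ _ _ _ h5 h3; nlinarith
      · have := hprod s4 hw _ _ _ _ h5 h3; nlinarith
      · exact e3 h3
      · rcases h2 with h2 | h2 | h2 | h2 | h2
        · exact n2 h2
        · have := hprod s4 hw _ _ _ _ h5 h2; nlinarith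
        · have := hprod s4 hw _ _ _ _ h5 h2; nlinarith
        · exact e2 h2
        · have := hprod s4 hw _ _ _ _ h3 h2; nlinarith
  · right; left
    refine ⟨hw, ?_⟩
    have n1 : ¬ L s1 := fun h => by have := hLu _ _ hw h; linarith
    have n4 : ¬ L s4 := fun h => by have := hLu _ _ hw h; linarith
    have e1 : ¬ Q s1 s5 := fun h => hu s5 s1 hw (hsym _ _ h) (by linarith)
    have e4 : ¬ Q s4 s5 := fun h => hu s5 s4 hw (hsym _ _ h) (by linarith)
    rcases h1 with h1 | h1 | h1 | h1 | h1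
    · exact absurd h1 n1
    · exfalso
      rcases h4 with h4 | h4 | h4 | h4 | h4
      · exact n4 h4
      · have := hprod s5 hw _ _ _ _ h1 h4; nlinarith
      · have := hprod s5 hw _ _ _ _ h1 h4; nlinarith
      · have := hprod s5 hw _ _ _ _ h1 h4; nlinarith
      · exact e4 h4
    · exfalso
      rcases h4 with h4 | h4 | h4 | h4 | h4
      · exact n4 h4
      · have := hprod s5 hw _ _ _ _ h1 h4; nlinarith
      · have := hprod s5 hw _ _ _ _ h1 h4; nlinarith
      · have := hprod s5 hw _ _ _ _ h1 h4; nlinarith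
      · exact e4 h4
    · exact h1
    · exact absurd h1 e1

end

end Pool.Agent.N390.Hex
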