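import Mathlib
import Pool.Agent.N390.Hex1

/-! At most four points are in involution position with six points of a circle. -/

namespace Pool.Agent.N390.Hex

open Finset Pool.Agent.Helper543.Melchior
open Pool.Agent.Helper543.Blocks Pool.Agent.Helper543.PlaneC

noncomputable section

open scoped Classical

lemma G_perm (x x' y z : Pt) : G x y z x' = G x x' y z := by
  rw [G_swap34, G_swap23]; ring

lemma G_rot (x x' y z : Pt) : G x' x y z = - G x x' y z := G_swap12 _ _ _ _

/-- two blocks with three common points are equal -/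
lemma block_eq {P B B' : Finset Pt} (hB : B ∈ blocks P) (hB' : B' ∈ blocks P) {x y z : Pt}
    (hxy : y ≠ x) (hzx : z ≠ x) (hzy : z ≠ y) (hx : x ∈ B) (hy : y ∈ B) (hz : z ∈ B)
    (hx' : x ∈ B') (hy' : y ∈ B') (hz' : z ∈ B') : B = B' := by
  rw [block_third hB hx hy hz hxy hzx hzy, block_third hB' hx' hy' hz' hxy hzx hzy]

/-- the number of blocks through `y`, `z` and two points of `C` -/
def KK (P C : Finset Pt) (y z : Pt) : ℕ :=
  (((blocks P).filter (fun b => (b ∩ C).card = 2)).filter (fun b => y ∈ b ∧ z ∈ b)).card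

lemma partner {P C : Finset Pt} (_hC : C ∈ blocks P) (h6 : C.card = 6) {y z : Pt}
    (hy : y ∉ C) (hz : z ∉ C) (hyz : z ≠ y)
    (h3 : 3 ≤ KK P C y z) {x : Pt} (hx : x ∈ C) : ∃ x' ∈ C, x' ≠ x ∧ G x x' y z = 0 := by
  set T := ((blocks P).filter (fun b => (b ∩ C).card = 2)).filter (fun b => y ∈ b ∧ z ∈ b) with hT
  have hmem : ∀ b ∈ T, b ∈ blocks P ∧ (b ∩ C).card = 2 ∧ y ∈ b ∧ z ∈ b := by
    intro b hb
    rw [hT, mem_filter, mem_filter] at hb
    exact ⟨hb.1.1, hb.1.2, hb.2⟩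
  have hd : ∀ b ∈ T, ∀ b' ∈ T, b ≠ b' → Disjoint (b ∩ C) (b' ∩ C) := by
    intro b hb b' hb' hne
    obtain ⟨h1, h2, h3, h4⟩ := hmem b hb
    obtain ⟨h1', h2', h3', h4'⟩ := hmem b' hb'
    rw [disjoint_left]
    intro w hw hw'
    rw [mem_inter] at hw hw'
    apply hne
    have hwy : y ≠ w := fun e => hy (e ▸ hw.2)
    have hwz : z ≠ w := fun e => hz (e ▸ hw.2)
    exact block_eq h1 h1' hwy hwz hyz hw.1 h3 h4 hw'.1 h3' h4'
  have hcard : (T.biUnion (fun b => b ∩ C)).card = ∑ b ∈ T, (b ∩ C).card := card_biUnion hd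
  rw [sum_congr rfl (fun b hb => (hmem b hb).2.1), sum_const, smul_eq_mul] at hcard
  have hsub : T.biUnion (fun b => b ∩ C) ⊆ C := by
    intro w hw
    rw [mem_biUnion] at hw
    obtain ⟨b, _, hb⟩ := hw
    exact (mem_inter.1 hb).2
  have hTc : 3 ≤ T.card := h3
  have heq : T.biUnion (fun b => b ∩ C) = C := eq_of_subset_of_card_le hsub (by omega)
  rw [← heq, mem_biUnion] at hx
  obtain ⟨b, hb, hxb⟩ := hx
  obtain ⟨h1, h2, h4, h5⟩ := hmem b hb
  obtain ⟨x', hx', hne⟩ := exists_mem_ne (by omega : 1 < (b ∩ C).card) x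
  rw [mem_inter] at hxb hx'
  refine ⟨x', hx'.2, hne, ?_⟩
  have hyx : y ≠ x := fun e => hy (e ▸ hxb.2)
  have hyx' : y ≠ x' := fun e => hy (e ▸ hx'.2)
  have e := block_third h1 hxb.1 hx'.1 h4 hne hyx hyx'
  rw [e, mem_blk] at h5
  exact h5.2

lemma partner_unique {P C : Finset Pt} (hC : C ∈ blocks P) {y z : Pt} (hyP : y ∈ P)
    (hzP : z ∈ P) (hy : y ∉ C) (hz : z ∉ C) (hyz : z ≠ y) {x x' x'' : Pt} (hx : x ∈ C)
    (hx' : x' ∈ C) (hx'' : x'' ∈ C) (h1 : x' ≠ x) (h2 : x'' ≠ x) (h3 : x'' ≠ x')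
    (g1 : G x x' y z = 0) (g2 : G x x'' y z = 0) : False := by
  have hyx : y ≠ x := fun e => hy (e ▸ hx)
  have hzx : z ≠ x := fun e => hz (e ▸ hx)
  have hb := blk_mem_blocks (block_subset hC hx) hyP hzP hyx.symm hzx.symm hyz.symm
  have m1 : x' ∈ blk P x y z := by
    rw [mem_blk, G_perm]; exact ⟨block_subset hC hx', g1⟩
  have m2 : x'' ∈ blk P x y z := by
    rw [mem_blk, G_perm]; exact ⟨block_subset hC hx'', g2⟩
  have e := block_eq hb hC h1 h2 h3 (blk_mem1 (block_subset hC hx)) m1 m2 hx hx' hx''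
  exact hy (e ▸ blk_mem2 hyP)

lemma z_unique {P C : Finset Pt} (hC : C ∈ blocks P) {y z z' : Pt} (hyP : y ∈ P)
    (hzP : z ∈ P) (hzP' : z' ∈ P) (hy : y ∉ C) (hz : z ≠ y) (hz' : z' ≠ y)
    {a b c d : Pt} (ha : a ∈ C) (hb : b ∈ C) (hc : c ∈ C) (hd : d ∈ C) (hab : b ≠ a) (hac : c ≠ a)
    (hbc : c ≠ b) (hcd : d ≠ c) (g1 : G a b y z = 0) (g2 : G c d y z = 0)
    (g1' : G a b y z' = 0) (g2' : G c d y z' = 0) : z = z' := by
  by_contra hne
  have hya : y ≠ a := fun e => hy (e ▸ ha)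
  have hyb : y ≠ b := fun e => hy (e ▸ hb)
  have hyc : y ≠ c := fun e => hy (e ▸ hc)
  have hyd : y ≠ d := fun e => hy (e ▸ hd)
  have hPa := block_subset hC ha
  have hPb := block_subset hC hb
  have hPc := block_subset hC hc
  have hPd := block_subset hC hd
  have hb1 := blk_mem_blocks hPa hPb hyP hab.symm hya.symm hyb.symm
  have hb2 := blk_mem_blocks hPc hPd hyP hcd.symm hyc.symm hyd.symm
  have m1 : z ∈ blk P a b y := mem_blk.2 ⟨hzP, g1⟩
  have m1' : z' ∈ blk P a b y := mem_blk.2 ⟨hzP', g1'⟩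
  have m2 : z ∈ blk P c d y := mem_blk.2 ⟨hzP, g2⟩
  have m2' : z' ∈ blk P c d y := mem_blk.2 ⟨hzP', g2'⟩
  have e := block_eq hb1 hb2 hz hz' (fun e => hne e.symm) (blk_mem3 hyP) m1 m1' (blk_mem3 hyP)
    m2 m2'
  have hcm : c ∈ blk P a b y := e ▸ blk_mem1 hPc
  have e2 := block_eq hb1 hC hab hac hbc (blk_mem1 hPa) (blk_mem2 hPb) hcm ha hb hc
  exact hy (e2 ▸ blk_mem3 hyP)

lemma card_fiber {P C : Finset Pt} (hC : C ∈ blocks P) {y : Pt} (hyP : y ∈ P) (hy : y ∉ C)
    {a b c d : Pt} (ha : a ∈ C) (hb : b ∈ C) (hc : c ∈ C) (hd : d ∈ C) (hab : b ≠ a) (hac : c ≠ a)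
    (hbc : c ≠ b) (hcd : d ≠ c) :
    (((P \ C).erase y).filter (fun z => G a b y z = 0 ∧ G c d y z = 0)).card ≤ 1 := by
  rw [card_le_one]
  intro z hz z' hz'
  rw [mem_filter, mem_erase, mem_sdiff] at hz hz'
  exact z_unique hC hyP hz.1.2.1 hz'.1.2.1 hy hz.1.1 hz'.1.1 ha hb hc hd hab hac hbc hcd
    hz.2.1 hz.2.2 hz'.2.1 hz'.2.2

theorem hex {P C : Finset Pt} (hC : C ∈ blocks P) (h6 : C.card = 6) {y : Pt} (hyP : y ∈ P)
    (hy : y ∉ C) : (((P \ C).erase y).filter (fun z => 3 ≤ KK P C y z)).card ≤ 4 := by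
  -- a point of `C`
  obtain ⟨p, hp⟩ : C.Nonempty := card_pos.1 (by omega)
  have hPp := block_subset hC hp
  have h5 : (C.erase p).card = 5 := by rw [card_erase_of_mem hp]; omega
  obtain ⟨a0, ha0, b0, hb0, hab0⟩ := one_lt_card.1 (by omega : 1 < (C.erase p).card)
  rw [mem_erase] at ha0 hb0
  -- points of `C` are collinear after inversion
  have hcol : ∀ a ∈ C.erase p, cr (iv p a0) (iv p b0) (iv p a) = 0 := by
    intro a ha
    rw [mem_erase] at ha
    rw [cr_iv_eq_zero ha0.1 hb0.1 ha.1]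
    have e := block_third hC hp ha0.2 hb0.2 ha0.1 hb0.1 hab0.symm
    have := ha.2
    rw [e, mem_blk] at this
    exact this.2
  have hiv : iv p a0 ≠ iv p b0 := fun e => hab0 (iv_inj ha0.1 hb0.1 e)
  have hpar : ∀ a, ∃ s : ℝ, a ∈ C.erase p →
      (iv p a).1 - (iv p a0).1 = s * ((iv p b0).1 - (iv p a0).1) ∧
      (iv p a).2 - (iv p a0).2 = s * ((iv p b0).2 - (iv p a0).2) := by
    intro a
    by_cases ha : a ∈ C.erase p
    · obtain ⟨s, h1, h2⟩ := exists_param hiv (hcol a ha)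
      exact ⟨s, fun _ => ⟨h1, h2⟩⟩
    · exact ⟨0, fun h => absurd h ha⟩
  choose σ hσ using hpar
  set A : Pt := iv p a0 with hA
  set d : Pt := ((iv p b0).1 - A.1, (iv p b0).2 - A.2) with hd
  have hd0 : d.1 ^ 2 + d.2 ^ 2 ≠ 0 := by
    intro h
    apply hiv
    have e1 : d.1 = 0 := by nlinarith [sq_nonneg d.1, sq_nonneg d.2]
    have e2 : d.2 = 0 := by nlinarith [sq_nonneg d.1, sq_nonneg d.2]
    simp only [hd] at e1 e2
    ext <;> linarith
  have hpt : ∀ a ∈ C.erase p, iv p a = (A.1 + σ a * d.1, A.2 + σ a * d.2) := by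
    intro a ha
    obtain ⟨h1, h2⟩ := hσ a ha
    ext
    · simp only [hd]; linarith
    · simp only [hd]; linarith
  have hσinj : Set.InjOn σ (C.erase p : Set Pt) := by
    intro a ha b hb e
    have ha' : a ∈ C.erase p := ha
    have hb' : b ∈ C.erase p := hb
    have : iv p a = iv p b := by rw [hpt a ha', hpt b hb', e]
    exact iv_inj (mem_erase.1 ha').1 (mem_erase.1 hb').1 this
  -- enumeration
  have hS5 : ((C.erase p).image σ).card = 5 := by
    rw [card_image_of_injOn hσinj, h5]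
  let e := ((C.erase p).image σ).orderEmbOfFin hS5
  have hemem : ∀ i, e i ∈ (C.erase p).image σ := fun i => orderEmbOfFin_mem _ _ _
  have hc : ∀ i, ∃ c ∈ C.erase p, σ c = e i := fun i => mem_image.1 (hemem i)
  choose c hcC hce using hc
  have hcall : ∀ a ∈ C.erase p, ∃ i, a = c i := by
    intro a ha
    have h1 : σ a ∈ ((C.erase p).image σ) := mem_image_of_mem _ ha
    have h2 : σ a ∈ Set.range e := by
      rw [range_orderEmbOfFin]; exact h1
    obtain ⟨i, hi⟩ := h2
    exact ⟨i, hσinj ha (hcC i) (by rw [hce i]; exact hi.symm)⟩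
  have hcne : ∀ i j, i ≠ j → c i ≠ c j := by
    intro i j hij h
    apply hij
    apply e.injective
    rw [← hce i, ← hce j, h]
  have hlt : ∀ i j, i < j → σ (c i) < σ (c j) := by
    intro i j hij
    rw [hce i, hce j]
    exact e.strictMono hij
  have hcp : ∀ i, c i ≠ p := fun i => (mem_erase.1 (hcC i)).1
  have hcC' : ∀ i, c i ∈ C := fun i => (mem_erase.1 (hcC i)).2
  -- covering
  have hsub : ((P \ C).erase y).filter (fun z => 3 ≤ KK P C y z) ⊆
      (((P \ C).erase y).filter (fun z => G p (c 0) y z = 0 ∧ G (c 1) (c 4) y z = 0)) ∪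
      ((((P \ C).erase y).filter (fun z => G p (c 4) y z = 0 ∧ G (c 0) (c 3) y z = 0)) ∪
      ((((P \ C).erase y).filter (fun z => G p (c 2) y z = 0 ∧ G (c 0) (c 1) y z = 0)) ∪
      (((P \ C).erase y).filter (fun z => G p (c 2) y z = 0 ∧ G (c 0) (c 3) y z = 0)))) := by
    intro z hz
    rw [mem_filter] at hz
    obtain ⟨hzT, h3⟩ := hz
    have hzT' := hzT
    rw [mem_erase, mem_sdiff] at hzT'
    obtain ⟨hzy, hzP, hzC⟩ := hzT'
    have hyp : y ≠ p := fun e => hy (e ▸ hp)
    have hzp : z ≠ p := fun e => hzC (e ▸ hp)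
    have hpn := fun {x : Pt} (hx : x ∈ C) => partner hC h6 hy hzC hzy h3 hx
    have hpu := fun {x x' x'' : Pt} (hx : x ∈ C) (hx' : x' ∈ C) (hx'' : x'' ∈ C) =>
      partner_unique hC hyP hzP hy hzC hzy hx hx' hx''
    -- translation
    have tQ : ∀ i j, i ≠ j → (G (c i) (c j) y z = 0 ↔
        alp A d (iv p y) (iv p z) + bet A d (iv p y) (iv p z) * (σ (c i) + σ (c j)) +
          gam A d (iv p y) (iv p z) * (σ (c i) * σ (c j)) = 0) := by
      intro i j hij
      rw [← G_iv_eq_zero (hcp i) (hcp j) hyp hzp, hpt _ (hcC i), hpt _ (hcC j), G_param]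
      have hne : σ (c j) - σ (c i) ≠ 0 := by
        intro h
        exact hcne i j hij (hσinj (hcC i) (hcC j) (by linarith))
      constructor
      · intro h
        rcases mul_eq_zero.1 h with h | h
        · exact absurd h hne
        · exact h
      · intro h; rw [h, mul_zero]
    have tL : ∀ i, (G p (c i) y z = 0 ↔
        bet A d (iv p y) (iv p z) + gam A d (iv p y) (iv p z) * σ (c i) = 0) := by
      intro i
      rw [← cr_iv_eq_zero (hcp i) hyp hzp, hpt _ (hcC i), ← cr_param' A d]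
      constructor
      · intro h; rw [h, mul_zero]
      · intro h
        rcases mul_eq_zero.1 h with h | h
        · exact absurd h hd0
        · exact h
    set α := alp A d (iv p y) (iv p z)
    set β := bet A d (iv p y) (iv p z)
    set γ := gam A d (iv p y) (iv p z)
    -- partner of `p`
    obtain ⟨w, hwC, hwp, hwG⟩ := hpn hp
    obtain ⟨j, rfl⟩ := hcall w (mem_erase.2 ⟨hwp, hwC⟩)
    have hLj := (tL j).1 hwG
    have hγ : γ ≠ 0 := by
      intro h0
      rw [h0, zero_mul, add_zero] at hLj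
      have hall : ∀ i, G p (c i) y z = 0 := by
        intro i
        rw [tL i, h0, hLj]; ring
      exact hpu hp (hcC' 0) (hcC' 1) (hcp 0) (hcp 1) (hcne 1 0 (by decide)) (hall 0) (hall 1)
    have hu : ∀ s t, (β + γ * s = 0) → (α + β * (s + t) + γ * (s * t) = 0) → s ≠ t → False := by
      intro s t hs ht _
      have hsj : s = σ (c j) := by
        have : γ * (s - σ (c j)) = 0 := by linarith
        rcases mul_eq_zero.1 this with h | h
        · exact absurd h hγ
        · linarith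
      have h0 : α + β * s = 0 := by linear_combination ht - t * hs
      obtain ⟨k, hk⟩ : ∃ k, k ≠ j := exists_ne j
      have hG : G (c j) (c k) y z = 0 := by
        rw [tQ j k hk.symm, ← hsj]
        linear_combination h0 + σ (c k) * hs
      have hG2 : G (c j) p y z = 0 := by rw [G_rot, hwG, neg_zero]
      exact hpu (hcC' j) (hcC' k) hp (hcne k j hk) (hcp j).symm (hcp k).symm hG hG2
    have hpart : ∀ i, (β + γ * σ (c i) = 0) ∨ ∃ k, k ≠ i ∧
        (α + β * (σ (c i) + σ (c k)) + γ * (σ (c i) * σ (c k)) = 0) := by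
      intro i
      obtain ⟨w, hw, hwi, hwG⟩ := hpn (hcC' i)
      by_cases hwp : w = p
      · left
        rw [← tL i]
        rw [hwp, G_rot] at hwG
        linarith
      · right
        obtain ⟨k, rfl⟩ := hcall w (mem_erase.2 ⟨hwp, hw⟩)
        have hki : k ≠ i := fun e => hwi (by rw [e])
        exact ⟨k, hki, (tQ i k hki.symm).1 hwG⟩
    have key := four_types (hlt 0 1 (by decide)) (hlt 1 2 (by decide)) (hlt 2 3 (by decide))
      (hlt 3 4 (by decide)) hγ (fun s => β + γ * s = 0) (fun s => Iff.rfl)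
      (fun s t => α + β * (s + t) + γ * (s * t) = 0) (fun s t => Iff.rfl)
      (by
        fin_cases j
        · exact Or.inl hLj
        · exact Or.inr (Or.inl hLj)
        · exact Or.inr (Or.inr (Or.inl hLj))
        · exact Or.inr (Or.inr (Or.inr (Or.inl hLj)))
        · exact Or.inr (Or.inr (Or.inr (Or.inr hLj)))) hu
      (by
        rcases hpart 0 with h | ⟨k, hk, h⟩
        · exact Or.inl h
        · fin_cases k
          · exact absurd rfl hk
          · exact Or.inr (Or.inl h)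
          · exact Or.inr (Or.inr (Or.inl h))
          · exact Or.inr (Or.inr (Or.inr (Or.inl h)))
          · exact Or.inr (Or.inr (Or.inr (Or.inr h))))
      (by
        rcases hpart 1 with h | ⟨k, hk, h⟩
        · exact Or.inl h
        · fin_cases k
          · exact Or.inr (Or.inl h)
          · exact absurd rfl hk
          · exact Or.inr (Or.inr (Or.inl h))
          · exact Or.inr (Or.inr (Or.inr (Or.inl h)))
          · exact Or.inr (Or.inr (Or.inr (Or.inr h))))
      (by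
        rcases hpart 2 with h | ⟨k, hk, h⟩
        · exact Or.inl h
        · fin_cases k
          · exact Or.inr (Or.inl h)
          · exact Or.inr (Or.inr (Or.inl h))
          · exact absurd rfl hk
          · exact Or.inr (Or.inr (Or.inr (Or.inl h)))
          · exact Or.inr (Or.inr (Or.inr (Or.inr h))))
      (by
        rcases hpart 3 with h | ⟨k, hk, h⟩
        · exact Or.inl h
        · fin_cases k
          · exact Or.inr (Or.inl h)
          · exact Or.inr (Or.inr (Or.inl h))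
          · exact Or.inr (Or.inr (Or.inr (Or.inl h)))
          · exact absurd rfl hk
          · exact Or.inr (Or.inr (Or.inr (Or.inr h))))
      (by
        rcases hpart 4 with h | ⟨k, hk, h⟩
        · exact Or.inl h
        · fin_cases k
          · exact Or.inr (Or.inl h)
          · exact Or.inr (Or.inr (Or.inl h))
          · exact Or.inr (Or.inr (Or.inr (Or.inl h)))
          · exact Or.inr (Or.inr (Or.inr (Or.inr h)))
          · exact absurd rfl hk)
    simp only [mem_union, mem_filter]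
    rcases key with ⟨h1, h2⟩ | ⟨h1, h2⟩ | ⟨h1, h2⟩ | ⟨h1, h2⟩
    · exact Or.inl ⟨hzT, (tL 0).2 h1, (tQ 1 4 (by decide)).2 h2⟩
    · exact Or.inr (Or.inl ⟨hzT, (tL 4).2 h1, (tQ 0 3 (by decide)).2 h2⟩)
    · exact Or.inr (Or.inr (Or.inl ⟨hzT, (tL 2).2 h1, (tQ 0 1 (by decide)).2 h2⟩))
    · exact Or.inr (Or.inr (Or.inr ⟨hzT, (tL 2).2 h1, (tQ 0 3 (by decide)).2 h2⟩))
  have f1 := card_fiber hC hyP hy hp (hcC' 0) (hcC' 1) (hcC' 4) (hcp 0) (hcp 1)
    (hcne 1 0 (by decide)) (hcne 4 1 (by decide))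
  have f2 := card_fiber hC hyP hy hp (hcC' 4) (hcC' 0) (hcC' 3) (hcp 4) (hcp 0)
    (hcne 0 4 (by decide)) (hcne 3 0 (by decide))
  have f3 := card_fiber hC hyP hy hp (hcC' 2) (hcC' 0) (hcC' 1) (hcp 2) (hcp 0)
    (hcne 0 2 (by decide)) (hcne 1 0 (by decide))
  have f4 := card_fiber hC hyP hy hp (hcC' 2) (hcC' 0) (hcC' 3) (hcp 2) (hcp 0)
    (hcne 0 2 (by decide)) (hcne 3 0 (by decide))
  calc _ ≤ _ := card_le_card hsub
    _ ≤ _ := card_union_le _ _
    _ ≤ 1 + _ := add_le_add f1 (card_union_le _ _)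
    _ ≤ 1 + (1 + _) := add_le_add le_rfl (add_le_add f2 (card_union_le _ _))
    _ ≤ 1 + (1 + (1 + 1)) := add_le_add le_rfl (add_le_add le_rfl (add_le_add f3 f4))
    _ = 4 := by norm_num

end

end Pool.Agent.N390.Hex
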