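import Mathlib
import Pool.Agent.Helper543.Small
import Pool.Agent.N390.Hex2

/-! The lower bound for fourteen points. The theorems `certX` and `caseAX` are the theorems `cert`
and `caseA` of `Pool/Agent/Helper543/Bounds.lean` with an improved bound for the number of blocks
through two outer points and two points of a largest circle. -/

namespace Pool.Agent.N390.Four

open Finset Pool.Agent.Helper543.Count Pool.Agent.Helper543.Bounds Pool.Agent.Helper543.Small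

section
variable {α : Type} [DecidableEq α]

/-- the total -/
def RX (w : Wt) (n m h X : ℤ) : ℤ :=
  w.y1 * (m * (m - 1) * (n - m)) + w.y2 * (m * ((n - m) * (n - m - 1))) +
  w.y3 * ((n - m) * (n - m - 1) * (n - m - 2)) + w.y4 * (m * (m - 1)) +
  w.y5 * (m * (n - m)) + w.y6 * ((n - m) * (n - m - 1)) + w.u1 * (3 * m) +
  w.u2 * (3 * (n - m)) + w.u3 * (3 * m) + w.u4 * (3 * (n - m)) + w.u5 * 3 -
  w.v1 * X - w.v2 * ((n - m) * h)

theorem certX (S : Cfg α) {C : Finset α} (hC : C ⊆ S.P) (X : ℤ)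
    (g6 : ∑ b ∈ S.B with (b ∩ C).card = 2, ((b.card : ℤ) - 2) * ((b.card : ℤ) - 3) ≤ X) (w : Wt) (h1 : 0 ≤ w.u1) (h2 : 0 ≤ w.u2)
    (h3 : 0 ≤ w.u3) (h4 : 0 ≤ w.u4) (h5 : 0 ≤ w.u5) (h6 : 0 ≤ w.v1) (h7 : 0 ≤ w.v2) :
    RX w S.P.card C.card ((C.card / 2 : ℕ) : ℤ) X ≤
      ∑ b ∈ S.circ, Wc w b.card (b ∩ C).card + ∑ l ∈ S.L, Wl w l.card (l ∩ C).card := by
  have e1 := E1 S hC
  have e2 := E2 S hC
  have e3 := E3 S hC
  have e4 := E4 S hC
  have e5 := E5 S hC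
  have e6 := E6 S hC
  have g1 := U3 S hC
  have g2 := U4 S (C := C)
  have g3 := U5 S hC
  have g4 := U6 S (C := C)
  have g5 := S.m3
  have g7 := U2 S hC
  have hK : ((S.P \ C).card : ℤ) = (S.P.card : ℤ) - C.card := by
    rw [card_sdiff_int, inter_eq_right.2 hC]
  rw [hK] at g2 g4
  rw [sum_filter] at g6 g7
  rw [split_B] at e1 e2 e3 g1 g2 g6
  have key : ∑ b ∈ S.circ, Wc w b.card (b ∩ C).card + ∑ l ∈ S.L, Wl w l.card (l ∩ C).card =
      w.y1 * (∑ b ∈ S.circ, ((b ∩ C).card : ℤ) * ((b ∩ C).card - 1) * ((b.card : ℤ) - (b ∩ C).card) +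
        ∑ l ∈ S.L, (if (3 : ℤ) ≤ l.card then
          ((l ∩ C).card : ℤ) * ((l ∩ C).card - 1) * ((l.card : ℤ) - (l ∩ C).card) else 0)) +
      w.y2 * (∑ b ∈ S.circ, ((b ∩ C).card : ℤ) * (((b.card : ℤ) - (b ∩ C).card) *
          ((b.card : ℤ) - (b ∩ C).card - 1)) +
        ∑ l ∈ S.L, (if (3 : ℤ) ≤ l.card then ((l ∩ C).card : ℤ) * (((l.card : ℤ) - (l ∩ C).card) *
          ((l.card : ℤ) - (l ∩ C).card - 1)) else 0)) +
      w.y3 * (∑ b ∈ S.circ, ((b.card : ℤ) - (b ∩ C).card) * ((b.card : ℤ) - (b ∩ C).card - 1) *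
          ((b.card : ℤ) - (b ∩ C).card - 2) +
        ∑ l ∈ S.L, (if (3 : ℤ) ≤ l.card then ((l.card : ℤ) - (l ∩ C).card) *
          ((l.card : ℤ) - (l ∩ C).card - 1) * ((l.card : ℤ) - (l ∩ C).card - 2) else 0)) -
      w.u1 * (∑ b ∈ S.circ, ((b ∩ C).card : ℤ) * ((b.card : ℤ) - 4) +
        ∑ l ∈ S.L, (if (3 : ℤ) ≤ l.card then ((l ∩ C).card : ℤ) * ((l.card : ℤ) - 4) else 0)) -
      w.u2 * (∑ b ∈ S.circ, ((b.card : ℤ) - (b ∩ C).card) * ((b.card : ℤ) - 4) +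
        ∑ l ∈ S.L, (if (3 : ℤ) ≤ l.card then
          ((l.card : ℤ) - (l ∩ C).card) * ((l.card : ℤ) - 4) else 0)) +
      w.y4 * (∑ l ∈ S.L, ((l ∩ C).card : ℤ) * ((l ∩ C).card - 1)) +
      w.y5 * (∑ l ∈ S.L, ((l ∩ C).card : ℤ) * ((l.card : ℤ) - (l ∩ C).card)) +
      w.y6 * (∑ l ∈ S.L, ((l.card : ℤ) - (l ∩ C).card) * ((l.card : ℤ) - (l ∩ C).card - 1)) -
      w.u3 * (∑ b ∈ S.circ, ((b ∩ C).card : ℤ) * ((b.card : ℤ) - 4) +
        ∑ b ∈ S.L, ((b ∩ C).card : ℤ) * ((b.card : ℤ) - 3)) -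
      w.u4 * (∑ b ∈ S.circ, ((b.card : ℤ) - (b ∩ C).card) * ((b.card : ℤ) - 4) +
        ∑ b ∈ S.L, ((b.card : ℤ) - (b ∩ C).card) * ((b.card : ℤ) - 3)) -
      w.u5 * (∑ l ∈ S.L, ((l.card : ℤ) - 3)) -
      w.v1 * (∑ b ∈ S.circ, (if ((b ∩ C).card : ℤ) = 2 then
          ((b.card : ℤ) - 2) * ((b.card : ℤ) - 3) else 0) +
        ∑ l ∈ S.L, (if (3 : ℤ) ≤ l.card then (if ((l ∩ C).card : ℤ) = 2 then
          ((l.card : ℤ) - 2) * ((l.card : ℤ) - 3) else 0) else 0)) -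
      w.v2 * (∑ l ∈ S.L, (if ((l ∩ C).card : ℤ) = 2 then ((l.card : ℤ) - 2) else 0)) := by
    simp only [Wc, Wl, sum_add_distrib, sum_sub_distrib, ← mul_sum]
    ring
  rw [key]
  have c2 : ∀ b : Finset α, (((b ∩ C).card : ℤ) = 2) = ((b ∩ C).card = 2) := by
    intro b
    apply propext
    constructor
    · intro h; exact_mod_cast h
    · intro h; exact_mod_cast h
  simp only [c2]
  rw [e1, e2, e3, e4, e5, e6]
  have k1 := mul_le_mul_of_nonneg_left g1 h1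
  have k2 := mul_le_mul_of_nonneg_left g2 h2
  have k3 := mul_le_mul_of_nonneg_left g3 h3
  have k4 := mul_le_mul_of_nonneg_left g4 h4
  have k5 := mul_le_mul_of_nonneg_left g5 h5
  have k6 := mul_le_mul_of_nonneg_left g6 h6
  have k7 := mul_le_mul_of_nonneg_left g7 h7
  unfold RX
  linarith

theorem caseAX (S : Cfg α) {C : Finset α} (hC : C ∈ S.circ) (X : ℤ)
    (g6 : ∑ b ∈ S.B with (b ∩ C).card = 2, ((b.card : ℤ) - 2) * ((b.card : ℤ) - 3) ≤ X) (w : Wt) (h1 : 0 ≤ w.u1)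
    (h2 : 0 ≤ w.u2) (h3 : 0 ≤ w.u3) (h4 : 0 ≤ w.u4) (h5 : 0 ≤ w.u5) (h6 : 0 ≤ w.v1)
    (h7 : 0 ≤ w.v2) (hm : ∀ b ∈ S.B, b.card ≤ C.card) (hm' : ∀ b ∈ S.L, b.card ≤ C.card)
    (hc : ∀ k j : ℕ, 3 ≤ k → k ≤ C.card → j ≤ 2 → j ≤ k → k ≤ S.P.card - C.card + j →
      Wc w k j ≤ w.D)
    (hl : ∀ k j : ℕ, 2 ≤ k → k ≤ C.card → j ≤ 2 → j ≤ k → k ≤ S.P.card - C.card + j →
      Wl w k j ≤ 0) :
    RX w S.P.card C.card ((C.card / 2 : ℕ) : ℤ) X - Wc w C.card C.card ≤ w.D * (cc S - 1) := by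
  have hCB := (mem_sdiff.1 hC).1
  have hCL := (mem_sdiff.1 hC).2
  have hCP := S.hBP C hCB
  have h := certX S hCP X g6 w h1 h2 h3 h4 h5 h6 h7
  have hj : ∀ b ⊆ S.P, b.card ≤ S.P.card - C.card + (b ∩ C).card := by
    intro b hb
    have e1 := card_sdiff_add_card_inter b C
    have e2 : (b \ C).card ≤ (S.P \ C).card := card_le_card (sdiff_subset_sdiff hb (Subset.refl C))
    rw [card_sdiff_of_subset hCP] at e2
    omega
  have hcirc : ∑ b ∈ S.circ, Wc w b.card (b ∩ C).card ≤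
      Wc w C.card C.card + w.D * (cc S - 1) := by
    rw [← add_sum_erase S.circ _ hC, inter_self]
    have : ∑ b ∈ S.circ.erase C, Wc w b.card (b ∩ C).card ≤ ∑ b ∈ S.circ.erase C, w.D := by
      apply sum_le_sum
      intro b hb
      have hbne := ne_of_mem_erase hb
      have hbc := mem_of_mem_erase hb
      have hbB := (mem_sdiff.1 hbc).1
      exact hc b.card (b ∩ C).card (S.hB3 b hbB) (hm b hbB) (inter_le_two S hbB hCB hbne)
        (card_le_card inter_subset_left) (hj b (S.hBP b hbB))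
    rw [sum_const, card_erase_of_mem hC, nsmul_eq_mul] at this
    have hpos : 1 ≤ S.circ.card := card_pos.2 ⟨C, hC⟩
    have hcast : ((S.circ.card - 1 : ℕ) : ℤ) = cc S - 1 := by
      unfold cc; push_cast [Nat.cast_sub hpos]; ring
    rw [hcast] at this
    linarith
  have hlin : ∑ l ∈ S.L, Wl w l.card (l ∩ C).card ≤ 0 := by
    apply sum_nonpos
    intro l hlL
    have hj2 : (l ∩ C).card ≤ 2 := by
      by_cases h3 : 3 ≤ l.card
      · have hlB := S.hLB l hlL h3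
        exact inter_le_two S hlB hCB (fun e => hCL (e ▸ hlL))
      · have := card_le_card (inter_subset_left : l ∩ C ⊆ l)
        omega
    exact hl l.card (l ∩ C).card (S.hL2 l hlL) (hm' l hlL) hj2
      (card_le_card inter_subset_left) (hj l (S.hLP l hlL))
  linarith


end

end Pool.Agent.N390.Four
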