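import Mathlib
import Pool.Agent.N390.Four

/-! The lower bound for fourteen points. -/

namespace Pool.Agent.N390.Fourteen

open Finset Pool.Agent.Helper543.Count Pool.Agent.Helper543.Bounds Pool.Agent.Helper543.Small
open Pool.Agent.Helper543.Blocks Pool.Agent.Helper543.PlaneC Pool.Agent.Helper543.Melchior
open Pool.Agent.N390.Four Pool.Agent.N390.Hex

open scoped Classical

lemma KK_le {P C : Finset Pt} {y z : Pt} (hy : y ∉ C) (hz : z ∉ C) (hyz : z ≠ y) :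
    KK P C y z ≤ C.card / 2 := by
  unfold KK
  apply disjoint_pairs
  · intro b hb
    exact (mem_filter.1 (mem_filter.1 hb).1).2
  · intro b hb b' hb' hne
    rw [mem_filter, mem_filter] at hb hb'
    rw [disjoint_left]
    intro x hx hx'
    rw [mem_inter] at hx hx'
    apply hne
    have hwy : y ≠ x := fun e => hy (e ▸ hx.2)
    have hwz : z ≠ x := fun e => hz (e ▸ hx.2)
    exact block_eq hb.1.1 hb'.1.1 hwy hwz hyz hx.1 hb.2.1 hb.2.2 hx'.1 hb'.2.1 hb'.2.2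

lemma sum_KK (P C : Finset Pt) : ∑ b ∈ blocks P with (b ∩ C).card = 2, ((b \ C).offDiag.card) =
    ∑ y ∈ P \ C, ∑ z ∈ (P \ C).erase y, KK P C y z := by
  have h1 : ∀ b ∈ (blocks P).filter (fun b => (b ∩ C).card = 2), (b \ C).offDiag =
      (P \ C).offDiag.filter (fun t => t.1 ∈ b ∧ t.2 ∈ b) := by
    intro b hb
    have hs := block_subset (mem_filter.1 hb).1
    ext ⟨x, y⟩
    simp only [mem_filter, mem_offDiag, mem_sdiff]
    constructor
    · rintro ⟨⟨h1, h2⟩, ⟨h3, h4⟩, h5⟩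
      exact ⟨⟨⟨hs h1, h2⟩, ⟨hs h3, h4⟩, h5⟩, h1, h3⟩
    · rintro ⟨⟨⟨_, h2⟩, ⟨_, h4⟩, h5⟩, h6, h7⟩
      exact ⟨⟨h6, h2⟩, ⟨h7, h4⟩, h5⟩
  rw [sum_congr rfl (fun b hb => by rw [h1 b hb])]
  simp_rw [card_filter _ ((P \ C).offDiag)]
  rw [sum_comm]
  have h2 : ∑ t ∈ (P \ C).offDiag, ∑ b ∈ blocks P with (b ∩ C).card = 2,
      (if t.1 ∈ b ∧ t.2 ∈ b then 1 else 0) = ∑ t ∈ (P \ C).offDiag, KK P C t.1 t.2 := by
    refine sum_congr rfl fun t _ => ?_
    rw [KK, card_filter]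
  rw [h2]
  have h3 : (P \ C).offDiag = (P \ C).biUnion
      (fun y => ((P \ C).erase y).image (fun z => (y, z))) := by
    ext ⟨y, z⟩
    simp only [mem_offDiag, mem_biUnion, mem_image, mem_erase, Prod.mk.injEq]
    constructor
    · rintro ⟨h1, h2, h3⟩
      exact ⟨y, h1, z, ⟨fun e => h3 e.symm, h2⟩, rfl, rfl⟩
    · rintro ⟨y', h1, z', ⟨h2, h3⟩, rfl, rfl⟩
      exact ⟨h1, h3, fun e => h2 e.symm⟩
  rw [h3, sum_biUnion]
  · refine sum_congr rfl fun y _ => ?_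
    rw [sum_image]
    intro z _ z' _ h
    exact (Prod.mk.inj h).2
  · intro y _ y' _ hne
    simp only [Function.onFun]
    rw [disjoint_left]
    intro t ht ht'
    rw [mem_image] at ht ht'
    obtain ⟨z, _, rfl⟩ := ht
    obtain ⟨z', _, h⟩ := ht'
    exact hne (Prod.mk.inj h).1.symm

theorem U1hex {P C : Finset Pt} (hC : C ∈ blocks P) (h6 : C.card = 6) :
    ∑ b ∈ blocks P with (b ∩ C).card = 2, ((b.card : ℤ) - 2) * ((b.card : ℤ) - 3) ≤
      ((P.card : ℤ) - 6) * (2 * ((P.card : ℤ) - 7) + 4) := by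
  have hCP := block_subset hC
  have hK : ((P \ C).card : ℤ) = (P.card : ℤ) - 6 := by
    rw [card_sdiff_int, inter_eq_right.2 hCP, h6]; rfl
  have h1 : ∀ y ∈ P \ C, (∑ z ∈ (P \ C).erase y, KK P C y z : ℕ) ≤
      2 * ((P \ C).card - 1) + 4 := by
    intro y hy
    rw [mem_sdiff] at hy
    have h2 : ∀ z ∈ (P \ C).erase y, KK P C y z ≤ 2 + (if 3 ≤ KK P C y z then 1 else 0) := by
      intro z hz
      rw [mem_erase, mem_sdiff] at hz
      have := KK_le (P := P) hy.2 hz.2.2 hz.1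
      rw [h6] at this
      split_ifs <;> omega
    refine (sum_le_sum h2).trans ?_
    rw [sum_add_distrib, sum_const, smul_eq_mul, card_erase_of_mem (mem_sdiff.2 hy), ← card_filter]
    have := hex hC h6 hy.1 hy.2
    omega
  have h3 : ∑ y ∈ P \ C, ∑ z ∈ (P \ C).erase y, KK P C y z ≤
      (P \ C).card * (2 * ((P \ C).card - 1) + 4) := by
    rw [← smul_eq_mul, ← sum_const]
    exact sum_le_sum h1
  rw [← sum_KK] at h3
  have h4 : ((∑ b ∈ blocks P with (b ∩ C).card = 2, ((b \ C).offDiag.card) : ℕ) : ℤ) ≤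
      ((P.card : ℤ) - 6) * (2 * ((P.card : ℤ) - 7) + 4) := by
    have h5 : ((∑ b ∈ blocks P with (b ∩ C).card = 2, ((b \ C).offDiag.card) : ℕ) : ℤ) ≤
      (((P \ C).card * (2 * ((P \ C).card - 1) + 4) : ℕ) : ℤ) := by exact_mod_cast h3
    refine h5.trans ?_
    rcases Nat.eq_zero_or_pos (P \ C).card with h0 | h0
    · rw [h0] at hK ⊢
      have : (P.card : ℤ) - 6 = 0 := by rw [← hK]; rfl
      rw [this]; simp
    · rw [← hK]
      have e : (((P \ C).card - 1 : ℕ) : ℤ) = (P.card : ℤ) - 7 := by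
        rw [Nat.cast_sub h0, hK]; push_cast; ring
      push_cast
      rw [e]
  refine le_trans (le_of_eq ?_) h4
  rw [Nat.cast_sum]
  refine sum_congr rfl fun b hb => ?_
  rw [offDiag_int, card_sdiff_int, (mem_filter.1 hb).2]
  push_cast
  ring

/-- multipliers -/
def tA (m : ℕ) : Wt :=
  match m with
  | 4 => ⟨48, 6, 6, 2, -3, -6, -3, 2, 2, 3, 3, 0, 0, 0⟩
  | 5 => ⟨315, 36, 36, 12, -35, -70, -35, 46, 46, 35, 35, 0, 0, 0⟩
  | 7 => ⟨522, 89, 64, 13, -58, -116, -58, 40, 90, 58, 58, 0, 45, 0⟩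
  | _ => ⟨0, 0, 0, 0, 0, 0, 0, 0, 0, 0, 0, 0, 0, 0⟩

/-- multipliers -/
def tB (m : ℕ) : Wt :=
  match m with
  | 4 => ⟨96, 12, 12, 4, 0, -19, -6, 18, 4, 13, 6, 0, 0, 0⟩
  | 5 => ⟨315, 36, 36, 12, 0, -70, -35, 46, 46, 35, 35, 0, 0, 0⟩
  | 6 => ⟨144, 27, 9, 5, 0, -24, -16, 18, 22, 8, 16, 0, 0, 0⟩
  | _ => ⟨0, 0, 0, 0, 0, 0, 0, 0, 0, 0, 0, 0, 0, 0⟩

theorem tableA : ∀ m < 13, 3 ≤ m → m ≠ 6 → (chk2 14 m ∨ chkA 14 m ∨ goodA 14 m (tA m)) := by
  decide +kernel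

theorem tableB : ∀ m < 13, 3 ≤ m → (chk2 14 m ∨ chkB 14 m ∨ goodB 14 m (tB m)) := by
  decide +kernel

/-- multipliers for the hexagon -/
def wH : Wt := ⟨72, 12, 9, 2, -8, -16, -8, 6, 12, 8, 8, 0, 6, 0⟩

theorem tableH : (∀ k : ℕ, k < 7 → ∀ j : ℕ, j < 3 → 3 ≤ k → j ≤ k → Wc wH (k : ℤ) (j : ℤ) ≤ 72) ∧
    (∀ k : ℕ, k < 7 → ∀ j : ℕ, j < 3 → 2 ≤ k → j ≤ k → Wl wH (k : ℤ) (j : ℤ) ≤ 0) ∧
    72 * (T 14 - 1) < RX wH 14 6 3 144 - Wc wH 6 6 := by
  decide +kernel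

theorem lower14 {P : Finset Pt} (hn : P.card = 14) (h3 : 3 ≤ P.card)
    (hP : ∀ B ∈ blocks P, ∃ x ∈ P, x ∉ B) : T 14 < cc (cfg P h3 hP) := by
  set S := cfg P h3 hP with hS
  have hSP : S.P = P := rfl
  have hSB : S.B = blocks P := rfl
  have hPB : S.P ∉ S.B := by
    intro hmem
    obtain ⟨x, hx, hx'⟩ := hP _ hmem
    exact hx' hx
  have hBne : S.B.Nonempty := by
    have h2 : 2 < S.P.card := by rw [hSP]; omega
    obtain ⟨x, y, z, hx, hy, hz, hxy, hxz, hyz⟩ := two_lt_card_iff.1 h2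
    obtain ⟨b, hb, _⟩ := S.ex3 x hx y hy z hz hxy hxz hyz
    exact ⟨b, hb⟩
  obtain ⟨C, hCB, hCmax⟩ := exists_max_image S.B card hBne
  have hC3 := S.hB3 C hCB
  have hL : ∀ l ∈ S.L, l.card ≤ C.card := by
    intro l hl
    by_cases h3 : 3 ≤ l.card
    · exact hCmax l (S.hLB l hl h3)
    · omega
  have hCP := S.hBP C hCB
  have hlt : C.card < S.P.card := by
    apply card_lt_card
    refine (Finset.ssubset_iff_subset_ne).2 ⟨hCP, fun e => hPB (e ▸ hCB)⟩
  have hn' : S.P.card = 14 := hn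
  have e14 : (14 : ℕ) = S.P.card := hn'.symm
  by_cases hnear : S.P.card = C.card + 1
  · by_cases hCL : C ∈ S.L
    · have := nearB S hCL hC3 hCmax hL hnear
      rwa [hn'] at this
    · have := nearA S (mem_sdiff.2 ⟨hCB, hCL⟩) hCmax hL hnear
      rwa [hn'] at this
  by_cases hCL : C ∈ S.L
  · rcases tableB C.card (by omega) hC3 with h | h | h
    · rw [e14] at h; have := useChk2 S C.card hC3 hCmax h; rwa [hn'] at this
    · rw [e14] at h; have := useChkB S hCL hC3 hCmax hL hlt.le h; rwa [hn'] at this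
    · rw [e14] at h; have := useB S hCL hC3 hCmax hL _ h; rwa [hn'] at this
  · have hCc : C ∈ S.circ := mem_sdiff.2 ⟨hCB, hCL⟩
    by_cases h6 : C.card = 6
    · have hCb : C ∈ blocks P := hCB
      have g6 := U1hex hCb h6
      have hX : ((P.card : ℤ) - 6) * (2 * ((P.card : ℤ) - 7) + 4) = 144 := by
        rw [hn]; norm_num
      rw [hX] at g6
      obtain ⟨t1, t2, t3⟩ := tableH
      have h := caseAX S hCc 144 g6 wH (by decide) (by decide) (by decide) (by decide) (by decide)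
        (by decide) (by decide) hCmax hL
        (fun k j hk hkm hj hjk _ => t1 k (by omega) j (by omega) hk hjk)
        (fun k j hk hkm hj hjk _ => t2 k (by omega) j (by omega) hk hjk)
      rw [hn', h6] at h
      have e3 : ((6 / 2 : ℕ) : ℤ) = 3 := by norm_num
      rw [e3] at h
      have e4 : wH.D = 72 := rfl
      rw [e4] at h
      by_contra hcon
      push Not at hcon
      have : RX wH ((14 : ℕ) : ℤ) ((6 : ℕ) : ℤ) 3 144 = RX wH 14 6 3 144 := rfl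
      rw [this] at h
      have h7 : Wc wH ((6 : ℕ) : ℤ) ((6 : ℕ) : ℤ) = Wc wH 6 6 := rfl
      rw [h7] at h
      linarith
    · rcases tableA C.card (by omega) hC3 h6 with h | h | h
      · rw [e14] at h; have := useChk2 S C.card hC3 hCmax h; rwa [hn'] at this
      · rw [e14] at h; have := useChkA S hCc hCmax hL hlt.le h; rwa [hn'] at this
      · rw [e14] at h; have := useA S hCc hCmax hL _ h; rwa [hn'] at this

end Pool.Agent.N390.Fourteen
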