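import Mathlib
import Pool.Agent.Helper543.PlaneC

/-! Sets of points with integer coordinates: computing the number of circles. -/

namespace Pool.Agent.N390.Ints

open Finset Pool.Agent.Helper543.Melchior
open Pool.Agent.Helper543.Blocks Pool.Agent.Helper543.PlaneC

/-- squared distance -/
def nz (p a : ℤ × ℤ) : ℤ := (a.1 - p.1) ^ 2 + (a.2 - p.2) ^ 2

/-- the determinant -/
def Gz (p a b c : ℤ × ℤ) : ℤ :=
  (a.1 - p.1) * ((b.2 - p.2) * nz p c - (c.2 - p.2) * nz p b)
  - (a.2 - p.2) * ((b.1 - p.1) * nz p c - (c.1 - p.1) * nz p b)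
  + nz p a * ((b.1 - p.1) * (c.2 - p.2) - (b.2 - p.2) * (c.1 - p.1))

/-- cross product -/
def crz (a b c : ℤ × ℤ) : ℤ := (b.1 - a.1) * (c.2 - a.2) - (b.2 - a.2) * (c.1 - a.1)

section

variable {n : ℕ} (pt : Fin n → ℤ × ℤ)

/-- the points on a block -/
def cod (t : Fin n × Fin n × Fin n) : Finset (Fin n) :=
  univ.filter (fun x => Gz (pt t.1) (pt t.2.1) (pt t.2.2) (pt x) = 0)

/-- triples of distinct, non-collinear points -/
def tri : Finset (Fin n × Fin n × Fin n) :=
  univ.filter (fun t => t.1 ≠ t.2.1 ∧ t.1 ≠ t.2.2 ∧ t.2.1 ≠ t.2.2 ∧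
    crz (pt t.1) (pt t.2.1) (pt t.2.2) ≠ 0)

/-- the circles -/
def codes : Finset (Finset (Fin n)) := (tri pt).image (cod pt)

end

noncomputable section

/-- the real point -/
def zr (p : ℤ × ℤ) : Pt := ((p.1 : ℝ), (p.2 : ℝ))

lemma zr_inj : Function.Injective zr := by
  intro p p' h
  simp only [zr, Prod.mk.injEq, Int.cast_inj] at h
  exact Prod.ext h.1 h.2

lemma G_cast (a b c x : ℤ × ℤ) : G (zr a) (zr b) (zr c) (zr x) = ((Gz a b c x : ℤ) : ℝ) := by
  simp only [G, Gz, nrm, nz, zr]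
  push_cast
  ring

lemma cr_cast (a b c : ℤ × ℤ) : cr (zr a) (zr b) (zr c) = ((crz a b c : ℤ) : ℝ) := by
  simp only [cr, crz, zr]
  push_cast
  ring

open scoped Classical

variable {n : ℕ} (pt : Fin n → ℤ × ℤ)

/-- the set -/
def PZ : Finset Pt := univ.image (fun i => zr (pt i))

lemma blk_eq (i j k : Fin n) : blk (PZ pt) (zr (pt i)) (zr (pt j)) (zr (pt k)) =
    (cod pt (i, j, k)).image (fun x => zr (pt x)) := by
  ext x
  rw [mem_blk, PZ, mem_image, mem_image]
  constructor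
  · rintro ⟨⟨l, _, rfl⟩, h⟩
    rw [G_cast] at h
    exact ⟨l, by simp only [cod, mem_filter, mem_univ, true_and]; exact_mod_cast h, rfl⟩
  · rintro ⟨l, h, rfl⟩
    simp only [cod, mem_filter, mem_univ, true_and] at h
    refine ⟨⟨l, mem_univ _, rfl⟩, ?_⟩
    rw [G_cast, h]; simp

theorem blocks_le : (blocks (PZ pt) \ lines (PZ pt)).card ≤ (codes pt).card := by
  have h1 : blocks (PZ pt) \ lines (PZ pt) ⊆ (codes pt).image
      (fun A => A.image (fun x => zr (pt x))) := by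
    intro B hB
    rw [mem_sdiff, mem_blocks] at hB
    obtain ⟨⟨a, ha, b, hb, c, hc, hab, hac, hbc, rfl⟩, hl⟩ := hB
    have ha' := ha
    have hb' := hb
    have hc' := hc
    rw [PZ, mem_image] at ha hb hc
    obtain ⟨i, _, rfl⟩ := ha
    obtain ⟨j, _, rfl⟩ := hb
    obtain ⟨k, _, rfl⟩ := hc
    rw [mem_image]
    refine ⟨cod pt (i, j, k), ?_, (blk_eq pt i j k).symm⟩
    rw [codes, mem_image]
    refine ⟨(i, j, k), ?_, rfl⟩
    simp only [tri, mem_filter, mem_univ, true_and]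
    refine ⟨fun e => hab (by rw [e]), fun e => hac (by rw [e]), fun e => hbc (by rw [e]), ?_⟩
    intro h0
    apply hl
    apply block_mem_lines (blk_mem_blocks ha' hb' hc' hab hac hbc) (blk_mem1 ha') (blk_mem2 hb')
      (blk_mem3 hc') hab hac.symm hbc.symm
    rw [cr_cast, h0]; simp
  exact (card_le_card h1).trans card_image_le

/-- the set in the Euclidean plane -/
def EZ : Finset Plane := univ.image (fun i => psi (zr (pt i)))

lemma psi_inj : Function.Injective psi := fun u v e => by rw [← phi_psi u, e, phi_psi]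

lemma image_EZ : (EZ pt).image phi = PZ pt := by
  rw [EZ, PZ, image_image]
  congr 1

lemma card_EZ (h : Function.Injective pt) : (EZ pt).card = n := by
  rw [EZ, card_image_of_injective, card_univ, Fintype.card_fin]
  exact psi_inj.comp (zr_inj.comp h)

theorem ncard_EZ : (Circles (EZ pt : Set Plane)).ncard ≤ (codes pt).card := by
  rw [ncard_circles, image_EZ]
  convert blocks_le pt

theorem adm_EZ (hn : 3 ≤ n) (hinj : Function.Injective pt)
    (h : ∀ i j k : Fin n, i ≠ j → i ≠ k → j ≠ k → ∃ x, Gz (pt i) (pt j) (pt k) (pt x) ≠ 0) :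
    Admissible (EZ pt : Set Plane) := by
  rw [admissible_iff _ (by rw [card_EZ pt hinj]; exact hn), image_EZ]
  intro B hB
  rw [mem_blocks] at hB
  obtain ⟨a, ha, b, hb, c, hc, hab, hac, hbc, rfl⟩ := hB
  rw [PZ, mem_image] at ha hb hc
  obtain ⟨i, _, rfl⟩ := ha
  obtain ⟨j, _, rfl⟩ := hb
  obtain ⟨k, _, rfl⟩ := hc
  obtain ⟨x, hx⟩ := h i j k (fun e => hab (by rw [e])) (fun e => hac (by rw [e]))
    (fun e => hbc (by rw [e]))
  refine ⟨zr (pt x), by rw [PZ]; exact mem_image_of_mem _ (mem_univ _), ?_⟩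
  rw [mem_blk]
  rintro ⟨_, h0⟩
  rw [G_cast] at h0
  exact hx (by exact_mod_cast h0)

end

/-- six points with eight circles -/
def p6 : Fin 6 → ℤ × ℤ := ![(0, 15), (-5, 0), (15, 0), (0, 0), (5, 10), (-3, 6)]

/-- seven points with eleven circles -/
def p7 : Fin 7 → ℤ × ℤ := ![(0, 15), (-5, 0), (15, 0), (0, 0), (5, 10), (-3, 6), (0, 5)]

/-- eight points with seventeen circles -/
def p8 : Fin 8 → ℤ × ℤ := ![(0, 0), (5, 0), (10, 0), (15, 0), (6, 3), (9, 3), (5, 5), (10, 5)]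

theorem c6 : (codes p6).card = 8 := by decide +kernel
theorem c7 : (codes p7).card = 11 := by decide +kernel
theorem c8 : (codes p8).card = 17 := by decide +kernel
theorem i6 : Function.Injective p6 := by decide +kernel
theorem i7 : Function.Injective p7 := by decide +kernel
theorem i8 : Function.Injective p8 := by decide +kernel
theorem a6 : ∀ i j k : Fin 6, i ≠ j → i ≠ k → j ≠ k → ∃ x, Gz (p6 i) (p6 j) (p6 k) (p6 x) ≠ 0 := by
  decide +kernel
theorem a7 : ∀ i j k : Fin 7, i ≠ j → i ≠ k → j ≠ k → ∃ x, Gz (p7 i) (p7 j) (p7 k) (p7 x) ≠ 0 := by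
  decide +kernel
theorem a8 : ∀ i j k : Fin 8, i ≠ j → i ≠ k → j ≠ k → ∃ x, Gz (p8 i) (p8 j) (p8 k) (p8 x) ≠ 0 := by
  decide +kernel

end Pool.Agent.N390.Ints
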