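import Pool.Agent.N461.LK.Stm

/-! Project LK (helper461), leaf K (helper390): the value of the complete `k`-partite 3-graph. -/

set_option autoImplicit false
open Finset
open scoped Classical

namespace Pool.Agent.N390.LK_K
open Pool.Agent.N461.LK
open Pool.Agent.N461.LP (dr Np)

variable {k : ℕ} {V : Type} [Fintype V]

theorem comp_sum (c : V → Fin k) (f : Fin k → ℝ) : ∑ z, f (c z) = ∑ i, cl c i * f i := by
  rw [← sum_fiberwise (s := univ) (g := c)]
  refine sum_congr rfl fun i _ => ?_
  rw [sum_congr rfl (fun z hz => by rw [(mem_filter.mp hz).2]), sum_const, nsmul_eq_mul]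
  rfl

theorem sum_one : (∑ _z : V, (1 : ℝ)) = Fintype.card V := by
  rw [sum_const, card_univ, nsmul_eq_mul, mul_one]

theorem sum_cl (c : V → Fin k) (i : Fin k) :
    (∑ z : V, if c z = i then (1 : ℝ) else 0) = cl c i := by
  unfold cl
  rw [card_filter]
  push_cast
  rfl

theorem tf_diag (c : V → Fin k) (x : V) : dr (Tf c) x x = 0 := by
  unfold dr
  refine sum_eq_zero fun z _ => ?_
  unfold Tf
  rw [if_neg (fun h => h.1 rfl)]
  norm_num

theorem tf_in (c : V → Fin k) {x y : V} (hxy : x ≠ y) (h : c x = c y) :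
    dr (Tf c) x y = Fintype.card V - cl c (c x) := by
  have h1 : ∀ z, (Tf c x y z : ℝ) = 1 - (if c z = c x then (1 : ℝ) else 0) := by
    intro z
    by_cases hz : c z = c x
    · rw [if_pos hz]
      unfold Tf
      by_cases h2 : x ≠ y ∧ x ≠ z ∧ y ≠ z
      · rw [if_pos h2]
        unfold Rk
        rw [if_pos ⟨h, h.symm.trans hz.symm⟩]
        norm_num
      · rw [if_neg h2]
        norm_num
    · have h2 : x ≠ z := fun e => hz (by rw [e])
      have h3 : y ≠ z := fun e => hz (by rw [← e, h])
      rw [if_neg hz]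
      unfold Tf
      rw [if_pos ⟨hxy, h2, h3⟩]
      unfold Rk
      rw [if_neg (fun q => hz (q.2.symm.trans h.symm))]
      norm_num
  unfold dr
  rw [sum_congr rfl fun z _ => h1 z, sum_sub_distrib, sum_one, sum_cl]

theorem tf_out (c : V → Fin k) {x y : V} (h : c x ≠ c y) :
    dr (Tf c) x y = Fintype.card V - 2 := by
  have hxy : x ≠ y := fun e => h (by rw [e])
  have h1 : ∀ z, (Tf c x y z : ℝ) =
      1 - (if z = x then (1 : ℝ) else 0) - (if z = y then (1 : ℝ) else 0) := by
    intro z
    by_cases a : z = x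
    · rw [if_pos a, if_neg (fun e => hxy (a.symm.trans e))]
      unfold Tf
      rw [if_neg (fun q => q.2.1 a.symm)]
      norm_num
    · by_cases b : z = y
      · rw [if_neg a, if_pos b]
        unfold Tf
        rw [if_neg (fun q => q.2.2 b.symm)]
        norm_num
      · rw [if_neg a, if_neg b]
        unfold Tf
        rw [if_pos ⟨hxy, Ne.symm a, Ne.symm b⟩]
        unfold Rk
        rw [if_neg (fun q => h q.1)]
        norm_num
  unfold dr
  rw [sum_congr rfl fun z _ => h1 z, sum_sub_distrib, sum_sub_distrib, sum_one,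
    sum_ite_eq' univ x, sum_ite_eq' univ y, if_pos (mem_univ _), if_pos (mem_univ _)]
  ring

theorem main : Pool.Agent.N461.LK.S_K := by
  intro k p V _ c hp
  set n : ℝ := (Fintype.card V : ℝ) with hn
  have h1 : ∀ x y : V, dr (Tf c) x y ^ p =
      ((n - 2) ^ p + (if c y = c x then (1 : ℝ) else 0) *
        ((n - cl c (c x)) ^ p - (n - 2) ^ p)) -
        (if y = x then (n - cl c (c x)) ^ p else 0) := by
    intro x y
    by_cases hxy : y = x
    · subst hxy
      rw [tf_diag, if_pos rfl, if_pos rfl, Real.zero_rpow (by linarith)]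
      ring
    · rw [if_neg hxy, sub_zero]
      by_cases hc : c y = c x
      · rw [if_pos hc, tf_in c (Ne.symm hxy) hc.symm, ← hn]
        ring
      · rw [if_neg hc, tf_out c (fun h => hc h.symm), ← hn]
        ring
  have h2 : ∀ x : V, ∑ y, dr (Tf c) x y ^ p = cl c (c x) * (n - cl c (c x)) ^ p +
      (n - cl c (c x)) * (n - 2) ^ p - (n - cl c (c x)) ^ p := by
    intro x
    rw [sum_congr rfl fun y _ => h1 x y, sum_sub_distrib, sum_ite_eq' univ x, if_pos (mem_univ _),
      sum_add_distrib, ← sum_mul, sum_cl, sum_const, card_univ, nsmul_eq_mul, ← hn]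
    ring
  unfold Np
  rw [sum_congr rfl fun x _ => h2 x]
  rw [comp_sum c (fun i => cl c i * (n - cl c i) ^ p + (n - cl c i) * (n - 2) ^ p -
    (n - cl c i) ^ p)]
  refine sum_congr rfl fun i _ => ?_
  unfold ph
  ring

end Pool.Agent.N390.LK_K
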