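import Pool.Agent.N699.PC.Stm

set_option autoImplicit false

/-! Project Q3 (helper699), leaves FIN1A, FIN2A, FIN3A, ALLA (helper390). -/

namespace Pool.Agent.N390.Q3
open Finset
open Pool.Agent.N699.PC

theorem t_FIN2A : Pool.Agent.N699.PC.FIN2A := by
  intro hM hS hO l1 l2 k m n hn
  have hn2 : 3 * n = 4 ^ k * (8 * (3 * m + 2) + 1) + 1 := by
    rw [hn]; congr 2; ring
  have hn3 : 3 * n = 4 ^ k * (2 * (12 * m + 8) + 1) + 1 := by
    rw [hn]; congr 2; ring
  have h0 : h n = 0 := by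
    by_contra hne
    obtain ⟨x, y, hxy⟩ := hS n hne
    refine l1 k (3 * m + 2) x y 0 ?_
    have e : 3 * (y ^ 2 + 0 ^ 2) = 3 * y ^ 2 := by ring
    rw [e]
    omega
  have h1 : ∑ j ∈ Icc 1 n, (if j ^ 2 ≤ n then (-1) ^ j * h (n - j ^ 2) else 0) = 0 := by
    refine sum_eq_zero fun j _ => ?_
    split_ifs with hj
    · have h2 : h (n - j ^ 2) = 0 := by
        by_contra hne
        obtain ⟨x, y, hxy⟩ := hS _ hne
        refine l1 k (3 * m + 2) x y j ?_
        rw [mul_add]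
        omega
      rw [h2, mul_zero]
    · rfl
  have h2 : (2 : ℤ) ∣ ∑ j ∈ Icc 1 n, (if 2 * j ^ 2 ≤ n then h (n - 2 * j ^ 2) else 0) := by
    refine dvd_sum fun j _ => ?_
    split_ifs with hj
    · by_contra hne
      have h3 : Odd (h (n - 2 * j ^ 2)) := by
        rw [← Int.not_even_iff_odd, even_iff_two_dvd]
        exact hne
      obtain ⟨x, hx⟩ := (hO _).1 h3
      refine l2 k (12 * m + 8) x j ?_
      omega
    · exact dvd_zero _
  have h3 := hM n
  rw [h1, h0] at h3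
  omega

theorem t_FIN3A : Pool.Agent.N699.PC.FIN3A := by
  intro hM hS hO l3 l4 k m n hn
  have hn2 : 3 * n = 4 ^ k * (16 * (3 * m + 2) + 6) + 1 := by
    rw [hn]; congr 2; ring
  have h0 : h n = 0 := by
    by_contra hne
    obtain ⟨x, y, hxy⟩ := hS n hne
    refine l3 k (3 * m + 2) x y ?_
    omega
  have h1 : (2 : ℤ) ∣ ∑ j ∈ Icc 1 n, (if j ^ 2 ≤ n then (-1) ^ j * h (n - j ^ 2) else 0) := by
    refine dvd_sum fun j _ => ?_
    split_ifs with hj
    · refine Dvd.dvd.mul_left ?_ _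
      by_contra hne
      have h3 : Odd (h (n - j ^ 2)) := by
        rw [← Int.not_even_iff_odd, even_iff_two_dvd]
        exact hne
      obtain ⟨x, hx⟩ := (hO _).1 h3
      refine l4 k m x j ?_
      omega
    · exact dvd_zero _
  have h3 := hM n
  rw [h0] at h3
  omega

/-- parity of the exponent of two -/
theorem two_sq : ∀ (k x m : ℕ), 2 * x ^ 2 ≠ 4 ^ k * (2 * m + 1)
  | 0, x, m => by
    rw [pow_zero, one_mul]
    omega
  | k + 1, x, m => by
    intro hx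
    have e1 : 4 ^ (k + 1) * (2 * m + 1) = 4 * (4 ^ k * (2 * m + 1)) := by ring
    rw [e1] at hx
    rcases Nat.even_or_odd' x with ⟨y, rfl | rfl⟩
    · refine two_sq k y m ?_
      have e2 : 2 * (2 * y) ^ 2 = 4 * (2 * y ^ 2) := by ring
      rw [e2] at hx
      omega
    · have e2 : 2 * (2 * y + 1) ^ 2 = 4 * (2 * (y * y) + 2 * y) + 2 := by ring
      rw [e2] at hx
      omega

open scoped Classical in
theorem cardP2 (n : ℕ) : P2 (3 * n - 1) =
    ((Icc 1 n).filter fun j => ∃ x : ℕ, 3 * n = 3 * j ^ 2 + 2 * x ^ 2 + 1).card := by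
  unfold P2
  refine card_nbij' (fun p => p.2) (fun j => (if hj : ∃ x : ℕ, 3 * n = 3 * j ^ 2 + 2 * x ^ 2 + 1
    then hj.choose else 0, j)) ?_ ?_ ?_ ?_
  · rintro ⟨x, j⟩ hp
    simp only [coe_filter, mem_product, mem_range, Set.mem_ofPred_eq] at hp
    obtain ⟨_, h1, h2, h3⟩ := hp
    simp only [coe_filter, mem_Icc, Set.mem_ofPred_eq]
    have h4 : j ≤ j ^ 2 := Nat.le_self_pow two_ne_zero j
    have h5 : 0 < j ^ 2 := by positivity
    exact ⟨⟨h2, by omega⟩, x, by omega⟩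
  · intro j hj
    simp only [coe_filter, mem_Icc, Set.mem_ofPred_eq] at hj
    obtain ⟨⟨h1, h2⟩, h3⟩ := hj
    simp only [coe_filter, mem_product, mem_range, Set.mem_ofPred_eq]
    rw [dif_pos h3]
    have h4 := h3.choose_spec
    set x := h3.choose
    have h5 : x ≤ x ^ 2 := Nat.le_self_pow two_ne_zero x
    have h6 : j ≤ j ^ 2 := Nat.le_self_pow two_ne_zero j
    have h7 : 1 ≤ x := by
      rcases Nat.eq_zero_or_pos x with h0 | h0
      · rw [h0] at h4
        omega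
      · exact h0
    exact ⟨⟨by omega, by omega⟩, h7, h1, by omega⟩
  · rintro ⟨x, j⟩ hp
    simp only [coe_filter, mem_product, mem_range, Set.mem_ofPred_eq] at hp
    obtain ⟨_, h1, h2, h3⟩ := hp
    have h5 : 0 < j ^ 2 := by positivity
    have h4 : ∃ x : ℕ, 3 * n = 3 * j ^ 2 + 2 * x ^ 2 + 1 := ⟨x, by omega⟩
    show ((if hj : ∃ x : ℕ, 3 * n = 3 * j ^ 2 + 2 * x ^ 2 + 1 then hj.choose else 0), j) = (x, j)
    rw [dif_pos h4]
    have h6 := h4.choose_spec
    set y := h4.choose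
    have h7 : y ^ 2 = x ^ 2 := by omega
    rw [Nat.pow_left_injective two_ne_zero h7]
  · intro j _
    rfl

theorem t_FIN1A : Pool.Agent.N699.PC.FIN1A := by
  classical
  intro hM hO h4 hP k m n hn
  have hn2 : 3 * n = 4 ^ k * (2 * (12 * m + 5) + 1) + 1 := by
    rw [hn]; congr 2; ring
  have hno : ¬ ∃ x : ℕ, 3 * n = 2 * x ^ 2 + 1 := by
    rintro ⟨x, hx⟩
    refine two_sq k x (12 * m + 5) ?_
    omega
  have hn1 : 1 ≤ n := by omega
  have h5 := h4 n hn1 hno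
  have h6 : (2 : ℤ) ∣ ∑ j ∈ Icc 1 n, (if j ^ 2 ≤ n then (-1) ^ j * h (n - j ^ 2) else 0) -
      (P2 (3 * n - 1) : ℤ) := by
    rw [cardP2, card_filter]
    push_cast
    rw [← sum_sub_distrib]
    refine dvd_sum fun j _ => ?_
    by_cases hj : j ^ 2 ≤ n
    · rw [if_pos hj]
      have h7 : (∃ x : ℕ, 3 * n = 3 * j ^ 2 + 2 * x ^ 2 + 1) ↔ Odd (h (n - j ^ 2)) := by
        rw [hO]
        constructor
        · rintro ⟨x, hx⟩
          exact ⟨x, by omega⟩
        · rintro ⟨x, hx⟩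
          exact ⟨x, by omega⟩
      by_cases hodd : Odd (h (n - j ^ 2))
      · rw [if_pos (h7.2 hodd)]
        obtain ⟨y, hy⟩ := hodd
        rw [hy]
        rcases neg_one_pow_eq_or ℤ j with e | e
        · rw [e]; omega
        · rw [e]; omega
      · rw [if_neg (fun h8 => hodd (h7.1 h8)), sub_zero]
        rw [Int.not_odd_iff_even, even_iff_two_dvd] at hodd
        exact hodd.mul_left _
    · rw [if_neg hj, if_neg]
      · norm_num
      · rintro ⟨x, hx⟩
        omega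
  have e : 4 ^ k * (24 * m + 11) = 3 * n - 1 := by omega
  have h8 := hP k m
  rw [e] at h8
  have h9 := hM n
  omega

theorem t_ALLA : Pool.Agent.N699.PC.ALLA := by
  intro f1 f2 f3 k n _
  have h3 : 4 ^ k % 3 = 1 := by
    rw [Nat.pow_mod]
    norm_num
  have e1 : 2 ^ (2 * k + 3) = 8 * 4 ^ k := by
    rw [pow_add, pow_mul]
    norm_num
    ring
  have e2 : 2 ^ (2 * k + 4) = 16 * 4 ^ k := by
    rw [pow_add, pow_mul]
    norm_num
    ring
  rw [e1, e2]
  obtain ⟨s1, hs1⟩ : ∃ s : ℕ, 11 * 4 ^ k + 1 = 3 * s := ⟨(11 * 4 ^ k + 1) / 3, by omega⟩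
  obtain ⟨s2, hs2⟩ : ∃ s : ℕ, 17 * 4 ^ k + 1 = 3 * s := ⟨(17 * 4 ^ k + 1) / 3, by omega⟩
  obtain ⟨s3, hs3⟩ : ∃ s : ℕ, 38 * 4 ^ k + 1 = 3 * s := ⟨(38 * 4 ^ k + 1) / 3, by omega⟩
  rw [hs1, hs2, hs3, Nat.mul_div_cancel_left _ (by norm_num : 0 < 3),
    Nat.mul_div_cancel_left _ (by norm_num : 0 < 3), Nat.mul_div_cancel_left _ (by norm_num : 0 < 3)]
  refine ⟨f1 k n _ ?_, f2 k n _ ?_, f3 k n _ ?_⟩
  · linarith
  · linarith
  · linarith

end Pool.Agent.N390.Q3
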