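import Mathlib
import Pool.Agent.N390.Eight

/-! The lower bound for seven points: combinatorial part. -/

namespace Pool.Agent.N390.Seven

open Finset Pool.Agent.Helper543.Count Pool.Agent.Helper543.Bounds Pool.Agent.Helper543.Small
open Pool.Agent.N390.Cnt Pool.Agent.N390.Low Pool.Agent.N390.Eight

variable {α : Type} [DecidableEq α]

lemma three_form {o : α} {l : Finset α} (ho : o ∈ l) (hc : l.card = 3) : ∃ a a', a ≠ a' ∧
    o ≠ a ∧ o ≠ a' ∧ l = {o, a, a'} := by
  have h1 : (l.erase o).card = 2 := by rw [card_erase_of_mem ho, hc]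
  obtain ⟨a, a', haa, h⟩ := card_eq_two.1 h1
  have h2 : a ∈ l.erase o := by rw [h]; simp
  have h3 : a' ∈ l.erase o := by rw [h]; simp
  refine ⟨a, a', haa, (ne_of_mem_erase h2).symm, (ne_of_mem_erase h3).symm, ?_⟩
  rw [← insert_erase ho, h]

/-- the blocks of size three form a Fano plane and the others have size four -/
structure Fano (S : Cfg α) : Prop where
  hn : S.P.card = 7
  h4 : ∀ b ∈ S.B, b.card ≤ 4
  ex : ∀ x ∈ S.P, ∀ y ∈ S.P, x ≠ y → ∃ b ∈ S.B, b.card = 3 ∧ x ∈ b ∧ y ∈ b
  un : ∀ b ∈ S.B, ∀ b' ∈ S.B, b.card = 3 → b'.card = 3 → ∀ x y, x ≠ y → x ∈ b → y ∈ b →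
    x ∈ b' → y ∈ b' → b = b'

lemma sqB (S : Cfg α) (F : Fano S) {o : α} {l l' : Finset α} (hl : l ∈ S.B) (hl' : l' ∈ S.B)
    (c : l.card = 3) (c' : l'.card = 3) (ho : o ∈ l) (ho' : o ∈ l') (hne : l ≠ l') :
    (l ∪ l').erase o ∈ S.B := by
  have hoP := S.hBP l hl ho
  obtain ⟨a, a', haa, hoa, hoa', rfl⟩ := three_form ho c
  obtain ⟨b, b', hbb, hob, hob', rfl⟩ := three_form ho' c'
  have hPa : a ∈ S.P := S.hBP _ hl (by simp)
  have hPa' : a' ∈ S.P := S.hBP _ hl (by simp)
  have hPb : b ∈ S.P := S.hBP _ hl' (by simp)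
  have hPb' : b' ∈ S.P := S.hBP _ hl' (by simp)
  have hab : a ≠ b := by
    rintro rfl
    exact hne (F.un _ hl _ hl' c c' o a hoa (by simp) (by simp) (by simp) (by simp))
  have hab' : a ≠ b' := by
    rintro rfl
    exact hne (F.un _ hl _ hl' c c' o a hoa (by simp) (by simp) (by simp) (by simp))
  have ha'b : a' ≠ b := by
    rintro rfl
    exact hne (F.un _ hl _ hl' c c' o a' hoa' (by simp) (by simp) (by simp) (by simp))
  have ha'b' : a' ≠ b' := by
    rintro rfl
    exact hne (F.un _ hl _ hl' c c' o a' hoa' (by simp) (by simp) (by simp) (by simp))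
  obtain ⟨X, hX, hXa, hXa', hXb⟩ := S.ex3 a hPa a' hPa' b hPb haa hab ha'b
  have hoX : o ∉ X := by
    intro h
    have := S.un3 X hX _ hl o a a' hoa hoa' haa h hXa hXa' (by simp) (by simp) (by simp)
    rw [this] at hXb
    simp only [mem_insert, mem_singleton] at hXb
    rcases hXb with h | h | h
    · exact hob h.symm
    · exact hab h.symm
    · exact ha'b h.symm
  have hX3 : X.card ≠ 3 := by
    intro h
    have := F.un X hX _ hl h c a a' haa hXa hXa' (by simp) (by simp)
    rw [this] at hXb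
    simp only [mem_insert, mem_singleton] at hXb
    rcases hXb with h | h | h
    · exact hob h.symm
    · exact hab h.symm
    · exact ha'b h.symm
  have hX4 : X.card = 4 := by
    have := F.h4 X hX
    have := S.hB3 X hX
    omega
  have hset : (({o, a, a'} : Finset α) ∪ {o, b, b'}).erase o = {a, a', b, b'} := by
    ext z
    simp only [mem_erase, mem_union, mem_insert, mem_singleton]
    constructor
    · rintro ⟨h1, (h | h | h) | (h | h | h)⟩ <;> simp_all
    · rintro (h | h | h | h) <;> subst h <;> simp_all [Ne.symm]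
  rw [hset]
  have c4 : ({a, a', b, b'} : Finset α).card = 4 := by
    rw [card_insert_of_notMem (by simp [haa, hab, hab']),
      card_insert_of_notMem (by simp [ha'b, ha'b']), card_insert_of_notMem (by simp [hbb]),
      card_singleton]
  have hXb' : b' ∈ X := by
    by_contra hb'
    -- a fourth point
    have : ∃ z ∈ X, z ∉ ({a, a', b} : Finset α) := by
      by_contra hcon
      push Not at hcon
      have h1 : X ⊆ {a, a', b} := fun z hz => hcon z hz
      have h2 := card_le_card h1
      have h3 := card_le_three (a := a) (b := a') (c := b)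
      omega
    obtain ⟨z, hz, hz'⟩ := this
    simp only [mem_insert, mem_singleton, not_or] at hz'
    obtain ⟨hza, hza', hzb⟩ := hz'
    have hzo : z ≠ o := fun h => hoX (h ▸ hz)
    have hzb' : z ≠ b' := fun h => hb' (h ▸ hz)
    have hPz := S.hBP X hX hz
    obtain ⟨Y, hY, cY, hYb, hYz⟩ := F.ex b hPb z hPz (Ne.symm hzb)
    have hoY : o ∉ Y := by
      intro h
      have := F.un Y hY _ hl' cY c' o b hob h hYb (by simp) (by simp)
      rw [this] at hYz
      simp only [mem_insert, mem_singleton] at hYz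
      rcases hYz with h | h | h
      · exact hzo h
      · exact hzb h
      · exact hzb' h
    have hYb' : b' ∉ Y := by
      intro h
      have := F.un Y hY _ hl' cY c' b b' hbb hYb h (by simp) (by simp)
      rw [this] at hYz
      simp only [mem_insert, mem_singleton] at hYz
      rcases hYz with h | h | h
      · exact hzo h
      · exact hzb h
      · exact hzb' h
    have hXY : X ≠ Y := fun h => by rw [h] at hX4; omega
    have hYa : a ∉ Y := by
      intro h
      exact hXY (S.un3 X hX Y hY a b z hab (Ne.symm hza) (Ne.symm hzb) hXa hXb hz h hYb hYz)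
    have hYa' : a' ∉ Y := by
      intro h
      exact hXY (S.un3 X hX Y hY a' b z ha'b (Ne.symm hza') (Ne.symm hzb) hXa' hXb hz h hYb hYz)
    -- the block through o and z
    obtain ⟨D, hD, cD, hDo, hDz⟩ := F.ex o hoP z hPz hzo.symm
    have hDa : a ∉ D := by
      intro h
      have := F.un D hD _ hl cD c o a hoa hDo h (by simp) (by simp)
      rw [this] at hDz
      simp only [mem_insert, mem_singleton] at hDz
      rcases hDz with h | h | h
      · exact hzo h
      · exact hza h
      · exact hza' h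
    have hDa' : a' ∉ D := by
      intro h
      have := F.un D hD _ hl cD c o a' hoa' hDo h (by simp) (by simp)
      rw [this] at hDz
      simp only [mem_insert, mem_singleton] at hDz
      rcases hDz with h | h | h
      · exact hzo h
      · exact hza h
      · exact hza' h
    have hDb : b ∉ D := by
      intro h
      have := F.un D hD _ hl' cD c' o b hob hDo h (by simp) (by simp)
      rw [this] at hDz
      simp only [mem_insert, mem_singleton] at hDz
      rcases hDz with h | h | h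
      · exact hzo h
      · exact hzb h
      · exact hzb' h
    have hDb' : b' ∉ D := by
      intro h
      have := F.un D hD _ hl' cD c' o b' hob' hDo h (by simp) (by simp)
      rw [this] at hDz
      simp only [mem_insert, mem_singleton] at hDz
      rcases hDz with h | h | h
      · exact hzo h
      · exact hzb h
      · exact hzb' h
    -- count outside
    have s1 : Y.erase b ⊆ S.P \ {o, a, a', b, b'} := by
      intro w hw
      rw [mem_erase] at hw
      rw [mem_sdiff]
      refine ⟨S.hBP Y hY hw.2, ?_⟩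
      simp only [mem_insert, mem_singleton, not_or]
      exact ⟨fun h => hoY (h ▸ hw.2), fun h => hYa (h ▸ hw.2), fun h => hYa' (h ▸ hw.2), hw.1,
        fun h => hYb' (h ▸ hw.2)⟩
    have s2 : D.erase o ⊆ S.P \ {o, a, a', b, b'} := by
      intro w hw
      rw [mem_erase] at hw
      rw [mem_sdiff]
      refine ⟨S.hBP D hD hw.2, ?_⟩
      simp only [mem_insert, mem_singleton, not_or]
      exact ⟨hw.1, fun h => hDa (h ▸ hw.2), fun h => hDa' (h ▸ hw.2), fun h => hDb (h ▸ hw.2),
        fun h => hDb' (h ▸ hw.2)⟩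
    have c5 : ({o, a, a', b, b'} : Finset α).card = 5 := by
      rw [card_insert_of_notMem (by simp [hoa, hoa', hob, hob']), c4]
    have c2 : (S.P \ {o, a, a', b, b'}).card = 2 := by
      rw [card_sdiff_of_subset, c5, F.hn]
      intro w hw
      simp only [mem_insert, mem_singleton] at hw
      rcases hw with rfl | rfl | rfl | rfl | rfl <;> assumption
    have t1 : Y.erase b = S.P \ {o, a, a', b, b'} :=
      eq_of_subset_of_card_le s1 (by rw [card_erase_of_mem hYb, c2, cY])
    have t2 : D.erase o = S.P \ {o, a, a', b, b'} :=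
      eq_of_subset_of_card_le s2 (by rw [card_erase_of_mem hDo, c2, cD])
    obtain ⟨u, v, huv, hYe⟩ := card_eq_two.1 c2
    have hu : u ∈ Y.erase b := by rw [t1, hYe]; simp
    have hv : v ∈ Y.erase b := by rw [t1, hYe]; simp
    have hu' : u ∈ D.erase o := by rw [t2, hYe]; simp
    have hv' : v ∈ D.erase o := by rw [t2, hYe]; simp
    have := F.un Y hY D hD cY cD u v huv (mem_of_mem_erase hu) (mem_of_mem_erase hv)
      (mem_of_mem_erase hu') (mem_of_mem_erase hv')
    exact hoY (this ▸ hDo)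
  have : ({a, a', b, b'} : Finset α) = X := by
    apply eq_of_subset_of_card_le
    · intro w hw
      simp only [mem_insert, mem_singleton] at hw
      rcases hw with rfl | rfl | rfl | rfl <;> assumption
    · omega
  rw [this]
  exact hX

theorem low7' (S : Cfg α) (hn : S.P.card = 7) (hPB : S.P ∉ S.B) : 11 ≤ cc S ∨
    (Fano S ∧ q 4 S.L = 0 ∧ ∃ o, ∃ l ∈ S.L, ∃ l' ∈ S.L, ∃ D ∈ S.B, D ∉ S.L ∧ l.card = 3 ∧
      l'.card = 3 ∧ D.card = 3 ∧ l ≠ l' ∧ o ∈ l ∧ o ∈ l' ∧ o ∈ D) := by
  rcases low7 S hn hPB with h | ⟨h4, c3, c4, l2, l3, l4⟩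
  · exact Or.inl h
  right
  have hC : ∀ b ∈ S.circ, b ⊆ S.P := fun b hb => S.hBP b (mem_sdiff.1 hb).1
  have hL : ∀ b ∈ S.L, b ⊆ S.P := S.hLP
  have s4c := sum_qx 4 S.circ S.P hC
  have s4l := sum_qx 4 S.L S.P hL
  have s3l := sum_qx 3 S.L S.P hL
  have h1 : ∀ x ∈ S.P, 0 ≤ 4 - (qx 4 S.circ x + qx 4 S.L x) := by
    intro x hx
    obtain ⟨e1, e2, e3, e4⟩ := loc S h4 hx
    rw [hn] at e1 e2
    norm_num at e1 e2
    omega
  have h2 : ∑ x ∈ S.P, (4 - (qx 4 S.circ x + qx 4 S.L x)) = 0 := by
    rw [sum_sub_distrib, sum_add_distrib, s4c, s4l, sum_const, hn, c4, l4]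
    norm_num
  have h3 := (sum_eq_zero_iff_of_nonneg h1).1 h2
  have h5 : ∀ x ∈ S.P, qx 4 S.L x = 0 := by
    rw [l4] at s4l
    norm_num at s4l
    exact (sum_eq_zero_iff_of_nonneg (fun x _ => qx_nonneg 4 S.L x)).1 s4l
  have hB3 : ∀ x ∈ S.P, q 3 (S.B.filter (fun b => x ∈ b)) = 3 ∧ qx 3 S.L x ≤ 2 := by
    intro x hx
    obtain ⟨e1, e2, e3, e4⟩ := loc S h4 hx
    have := h3 x hx
    have := h5 x hx
    rw [qB3 S h4]
    rw [hn] at e1 e2
    norm_num at e1 e2
    omega
  have hex : ∀ x ∈ S.P, ∀ y ∈ S.P, x ≠ y → ∃ b ∈ S.B, b.card = 3 ∧ x ∈ b ∧ y ∈ b := by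
    intro x hx y hy hxy
    have := loc2 S h4 hx hy hxy
    rw [hn] at this
    norm_num at this
    have h0 : 0 ≤ q2 S 3 x y := q_nonneg _ _
    have h1 : 1 ≤ q2 S 3 x y := by omega
    unfold q2 q at h1
    have h2 : 0 < ((S.B.filter (fun b => x ∈ b ∧ y ∈ b)).filter (fun b => b.card = 3)).card := by
      exact_mod_cast h1
    obtain ⟨b, hb⟩ := card_pos.1 h2
    rw [mem_filter, mem_filter] at hb
    exact ⟨b, hb.1.1, hb.2, hb.1.2.1, hb.1.2.2⟩
  have hun : ∀ b ∈ S.B, ∀ b' ∈ S.B, b.card = 3 → b'.card = 3 → ∀ x y, x ≠ y → x ∈ b → y ∈ b →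
      x ∈ b' → y ∈ b' → b = b' := by
    intro b hb b' hb' cb cb' x y hxy hxb hyb hxb' hyb'
    by_contra hne
    have hx := S.hBP b hb hxb
    have hT := (hB3 x hx).1
    set T := (S.B.filter (fun b => x ∈ b)).filter (fun b => b.card = 3) with hTd
    have hTc : T.card = 3 := by unfold q at hT; exact_mod_cast hT
    have m1 : b ∈ T := by rw [hTd, mem_filter, mem_filter]; exact ⟨⟨hb, hxb⟩, cb⟩
    have m2 : b' ∈ T := by rw [hTd, mem_filter, mem_filter]; exact ⟨⟨hb', hxb'⟩, cb'⟩
    have hR : ((T.erase b).erase b').card = 1 := by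
      rw [card_erase_of_mem (mem_erase.2 ⟨Ne.symm hne, m2⟩), card_erase_of_mem m1, hTc]
    obtain ⟨D, hD⟩ := card_eq_one.1 hR
    have hDm : D ∈ (T.erase b).erase b' := by rw [hD]; exact mem_singleton_self D
    rw [mem_erase, mem_erase, hTd, mem_filter, mem_filter] at hDm
    obtain ⟨d1, d2, ⟨d3, d4⟩, d5⟩ := hDm
    have hcov : S.P ⊆ (b ∪ b') ∪ D := by
      intro z hz
      by_cases hzx : z = x
      · rw [hzx]; simp [hxb]
      obtain ⟨E, hE, cE, hxE, hzE⟩ := hex x hx z hz (Ne.symm hzx)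
      by_cases h1 : E = b
      · subst h1; simp [hzE]
      by_cases h2 : E = b'
      · subst h2; simp [hzE]
      have : E ∈ (T.erase b).erase b' := by
        rw [mem_erase, mem_erase, hTd, mem_filter, mem_filter]
        exact ⟨h2, h1, ⟨hE, hxE⟩, cE⟩
      rw [hD, mem_singleton] at this
      rw [← this]; simp [hzE]
    have k1 := card_le_card hcov
    have k2 := card_union_add_card_inter (b ∪ b') D
    have k3 := card_union_add_card_inter b b'
    have k4 : 1 < (b ∩ b').card := by
      rw [one_lt_card]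
      exact ⟨x, mem_inter.2 ⟨hxb, hxb'⟩, y, mem_inter.2 ⟨hyb, hyb'⟩, hxy⟩
    have k5 : 0 < ((b ∪ b') ∩ D).card :=
      card_pos.2 ⟨x, mem_inter.2 ⟨mem_union_left _ hxb, d4⟩⟩
    omega
  refine ⟨⟨hn, h4, hex, hun⟩, l4, ?_⟩
  -- a point on two lines
  have h6 : ∃ o ∈ S.P, 2 ≤ qx 3 S.L o := by
    by_contra hcon
    push Not at hcon
    have : ∑ x ∈ S.P, qx 3 S.L x ≤ ∑ x ∈ S.P, (1 : ℤ) :=
      sum_le_sum (fun x hx => by have := hcon x hx; omega)
    rw [s3l, sum_const, hn, l3] at this
    norm_num at this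
  obtain ⟨o, ho, ho2⟩ := h6
  obtain ⟨l, hl, hlc, _⟩ := exists_two_of_q ho2 ∅
  obtain ⟨l', hl', hlc', hne⟩ := exists_two_of_q ho2 l
  rw [mem_filter] at hl hl'
  have hk := hB3 o ho
  rw [qB3 S h4] at hk
  have hk1 : 1 ≤ qx 3 S.circ o := by omega
  unfold qx q at hk1
  have hk2 : 0 < ((S.circ.filter (fun b => o ∈ b)).filter (fun b => b.card = 3)).card := by
    exact_mod_cast hk1
  obtain ⟨D, hD⟩ := card_pos.1 hk2
  rw [mem_filter, mem_filter] at hD
  have hDc := mem_sdiff.1 hD.1.1
  exact ⟨o, l, hl.1, l', hl'.1, D, hDc.1, hDc.2, hlc, hlc', hD.2, hne.symm, hl.2, hl'.2, hD.1.2⟩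

end Pool.Agent.N390.Seven
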