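import Mathlib
import Pool.Agent.N390.Seven
import Pool.Agent.Helper543.PlaneC

/-! Radical axes, and the lower bounds for six and seven points. -/

namespace Pool.Agent.N390.Radical

open Finset Pool.Agent.Helper543.Count Pool.Agent.Helper543.Bounds Pool.Agent.Helper543.Small
open Pool.Agent.Helper543.Blocks Pool.Agent.Helper543.PlaneC Pool.Agent.Helper543.Melchior
open Pool.Agent.N390.Cnt Pool.Agent.N390.Low Pool.Agent.N390.Eight Pool.Agent.N390.Seven

/-- a proper circle through four points -/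
lemma exists_On4 {P X : Finset Pt} (hX : X ∈ blocks P) (hXL : X ∉ lines P) {a b c : Pt}
    (ha : a ∈ X) (hb : b ∈ X) (hc : c ∈ X) (hab : a ≠ b) (hac : a ≠ c) (hbc : b ≠ c) :
    ∃ p q k : ℝ, ∀ z, z ∈ X ↔ z ∈ P ∧ On p q k z := by
  have hcr : cr a b c ≠ 0 := by
    intro h0
    exact hXL (block_mem_lines hX ha hb hc hab hac.symm hbc.symm h0)
  obtain ⟨p, q, k, h1, h2, h3⟩ := exists_On hcr
  refine ⟨p, q, k, fun z => ?_⟩
  have hXe : X = blk P a b c := block_third hX ha hb hc hab.symm hac.symm hbc.symm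
  rw [hXe, mem_blk]
  constructor
  · rintro ⟨h4, h5⟩
    exact ⟨h4, On_of_G hcr h1 h2 h3 h5⟩
  · rintro ⟨h4, h5⟩
    exact ⟨h4, G_of_On h1 h2 h3 h5⟩

/-- an affine function vanishing at two points vanishes on their line -/
lemma aff_line {u v w : ℝ} {a b x : Pt} (hab : a ≠ b) (ha : u * a.1 + v * a.2 + w = 0)
    (hb : u * b.1 + v * b.2 + w = 0) (h : cr a b x = 0) : u * x.1 + v * x.2 + w = 0 := by
  obtain ⟨s, h1, h2⟩ := exists_param hab h
  have e1 : x.1 = a.1 + s * (b.1 - a.1) := by linarith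
  have e2 : x.2 = a.2 + s * (b.2 - a.2) := by linarith
  rw [e1, e2]
  linear_combination (1 - s) * ha + s * hb

/-- an affine function vanishing at three independent points vanishes -/
lemma aff_zero {u v w : ℝ} {a b c : Pt} (hcr : cr a b c ≠ 0) (ha : u * a.1 + v * a.2 + w = 0)
    (hb : u * b.1 + v * b.2 + w = 0) (hc : u * c.1 + v * c.2 + w = 0) :
    u = 0 ∧ v = 0 ∧ w = 0 := by
  have h1 : u * cr a b c = 0 := by
    simp only [cr]
    linear_combination (c.2 - a.2) * (hb - ha) - (b.2 - a.2) * (hc - ha)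
  have h2 : v * cr a b c = 0 := by
    simp only [cr]
    linear_combination (b.1 - a.1) * (hc - ha) - (c.1 - a.1) * (hb - ha)
  have hu : u = 0 := (mul_eq_zero.1 h1).resolve_right hcr
  have hv : v = 0 := (mul_eq_zero.1 h2).resolve_right hcr
  subst hu hv
  exact ⟨rfl, rfl, by linarith⟩

lemma radical {a a' b b' c c' o : Pt} {p1 q1 k1 p2 q2 k2 p3 q3 k3 : ℝ}
    (a1 : On p1 q1 k1 a) (a1' : On p1 q1 k1 a') (b1 : On p1 q1 k1 b) (b1' : On p1 q1 k1 b')
    (a2 : On p2 q2 k2 a) (a2' : On p2 q2 k2 a') (c2 : On p2 q2 k2 c) (c2' : On p2 q2 k2 c')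
    (b3 : On p3 q3 k3 b) (b3' : On p3 q3 k3 b') (c3 : On p3 q3 k3 c) (c3' : On p3 q3 k3 c')
    (haa : a ≠ a') (hbb : b ≠ b') (ha : cr a a' o = 0) (hb : cr b b' o = 0)
    (hc : cr c c' o ≠ 0) : On p3 q3 k3 a := by
  simp only [On] at *
  have u1 : (2 * (p1 - p2)) * o.1 + (2 * (q1 - q2)) * o.2 + (k1 - k2) = 0 :=
    aff_line haa (by linarith) (by linarith) ha
  have u2 : (2 * (p1 - p3)) * o.1 + (2 * (q1 - q3)) * o.2 + (k1 - k3) = 0 :=
    aff_line hbb (by linarith) (by linarith) hb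
  obtain ⟨h1, h2, h3⟩ := aff_zero (u := 2 * (p2 - p3)) (v := 2 * (q2 - q3)) (w := k2 - k3)
    hc (by linarith) (by linarith) (by linarith)
  have e1 : p2 = p3 := by linarith
  have e2 : q2 = q3 := by linarith
  have e3 : k2 = k3 := by linarith
  rw [← e1, ← e2, ← e3]
  exact a2

theorem lower7 {P : Finset Pt} (hn : P.card = 7) (h3 : 3 ≤ P.card)
    (hP : ∀ B ∈ blocks P, ∃ x ∈ P, x ∉ B) : 11 ≤ cc (cfg P h3 hP) := by
  classical
  have hPB : (cfg P h3 hP).P ∉ (cfg P h3 hP).B := by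
    intro hmem
    obtain ⟨x, hx, hx'⟩ := hP _ hmem
    exact hx' hx
  rcases low7' (cfg P h3 hP) hn hPB with h | ⟨F, h4, o, l, hl, l', hl', D, hD, hDL, cl, cl', cD,
    hne, hol, hol', hoD⟩
  · exact h
  exfalso
  have hlB : l ∈ (cfg P h3 hP).B := (cfg P h3 hP).hLB l hl (by omega)
  have hlB' : l' ∈ (cfg P h3 hP).B := (cfg P h3 hP).hLB l' hl' (by omega)
  have hDl : D ≠ l := fun h => hDL (h ▸ hl)
  have hDl' : D ≠ l' := fun h => hDL (h ▸ hl')
  have K1 := sqB _ F hlB hlB' cl cl' hol hol' hne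
  have K2 := sqB _ F hlB hD cl cD hol hoD hDl.symm
  have K3 := sqB _ F hlB' hD cl' cD hol' hoD hDl'.symm
  have cardK : ∀ A B : Finset Pt, A ∈ (cfg P h3 hP).B → B ∈ (cfg P h3 hP).B → A.card = 3 →
      B.card = 3 → o ∈ A → o ∈ B → A ≠ B → ((A ∪ B).erase o).card = 4 := by
    intro A B hA hB cA cB hoA hoB hAB
    rw [card_erase_of_mem (mem_union_left _ hoA)]
    have k1 := card_union_add_card_inter A B
    have k2 : (A ∩ B).card ≤ 1 := by
      by_contra hcon
      push Not at hcon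
      obtain ⟨x, hx, y, hy, hxy⟩ := one_lt_card.1 hcon
      rw [mem_inter] at hx hy
      exact hAB (F.un A hA B hB cA cB x y hxy hx.1 hy.1 hx.2 hy.2)
    have k3 : 0 < (A ∩ B).card := card_pos.2 ⟨o, mem_inter.2 ⟨hoA, hoB⟩⟩
    omega
  have c1 := cardK l l' hlB hlB' cl cl' hol hol' hne
  have c2 := cardK l D hlB hD cl cD hol hoD hDl.symm
  have c3 := cardK l' D hlB' hD cl' cD hol' hoD hDl'.symm
  have no4 : ∀ A : Finset Pt, A.card = 4 → A ∉ lines P := by
    intro A hA hAL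
    have := one_le_q (T := (cfg P h3 hP).L) hAL hA
    omega
  obtain ⟨a, a', haa, hoa, hoa', rfl⟩ := three_form hol cl
  obtain ⟨b, b', hbb, hob, hob', rfl⟩ := three_form hol' cl'
  obtain ⟨c, c', hcc, hoc, hoc', rfl⟩ := three_form hoD cD
  -- distinctness
  have dab : ∀ x ∈ ({o, a, a'} : Finset Pt), x ∈ ({o, b, b'} : Finset Pt) → x = o := by
    intro x hx hx'
    by_contra hxo
    exact hne (F.un _ hlB _ hlB' cl cl' o x (Ne.symm hxo) (by simp) hx (by simp) hx')
  have dac : ∀ x ∈ ({o, a, a'} : Finset Pt), x ∈ ({o, c, c'} : Finset Pt) → x = o := by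
    intro x hx hx'
    by_contra hxo
    exact hDl (F.un _ hD _ hlB cD cl o x (Ne.symm hxo) (by simp) hx' (by simp) hx)
  have dbc : ∀ x ∈ ({o, b, b'} : Finset Pt), x ∈ ({o, c, c'} : Finset Pt) → x = o := by
    intro x hx hx'
    by_contra hxo
    exact hDl' (F.un _ hD _ hlB' cD cl' o x (Ne.symm hxo) (by simp) hx' (by simp) hx)
  have hab : a ≠ b := by rintro rfl; exact hoa (dab a (by simp) (by simp)).symm
  have hab' : a ≠ b' := by rintro rfl; exact hoa (dab a (by simp) (by simp)).symm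
  have hac : a ≠ c := by rintro rfl; exact hoa (dac a (by simp) (by simp)).symm
  have hac' : a ≠ c' := by rintro rfl; exact hoa (dac a (by simp) (by simp)).symm
  have ha'b : a' ≠ b := by rintro rfl; exact hoa' (dab a' (by simp) (by simp)).symm
  have ha'c : a' ≠ c := by rintro rfl; exact hoa' (dac a' (by simp) (by simp)).symm
  have hbc : b ≠ c := by rintro rfl; exact hob (dbc b (by simp) (by simp)).symm
  have hb'c : b' ≠ c := by rintro rfl; exact hob' (dbc b' (by simp) (by simp)).symm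
  obtain ⟨p1, q1, k1, f1⟩ := exists_On4 (P := P) K1 (no4 _ c1) (a := a) (b := a') (c := b)
    (by simp [hoa.symm]) (by simp [hoa'.symm]) (by simp [hob.symm]) haa hab ha'b
  obtain ⟨p2, q2, k2, f2⟩ := exists_On4 (P := P) K2 (no4 _ c2) (a := a) (b := a') (c := c)
    (by simp [hoa.symm]) (by simp [hoa'.symm]) (by simp [hoc.symm]) haa hac ha'c
  obtain ⟨p3, q3, k3, f3⟩ := exists_On4 (P := P) K3 (no4 _ c3) (a := b) (b := b') (c := c)
    (by simp [hob.symm]) (by simp [hob'.symm]) (by simp [hoc.symm]) hbb hbc hb'c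
  have la : cr a a' o = 0 := by
    have := eq_lineOf hl (x := a) (y := a') (by simp) (by simp) haa
    have h5 : o ∈ lineOf P a a' := by rw [← this]; simp
    exact (mem_lineOf.1 h5).2
  have lb : cr b b' o = 0 := by
    have := eq_lineOf hl' (x := b) (y := b') (by simp) (by simp) hbb
    have h5 : o ∈ lineOf P b b' := by rw [← this]; simp
    exact (mem_lineOf.1 h5).2
  have lc : cr c c' o ≠ 0 := by
    intro h0
    exact hDL (block_mem_lines hD (a := c) (b := c') (c := o) (by simp) (by simp) (by simp) hcc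
      hoc hoc' h0)
  have haP : a ∈ P := (cfg P h3 hP).hBP _ hlB (by simp)
  have fin := radical ((f1 a).1 (by simp [hoa.symm])).2 ((f1 a').1 (by simp [hoa'.symm])).2
    ((f1 b).1 (by simp [hob.symm])).2 ((f1 b').1 (by simp [hob'.symm])).2
    ((f2 a).1 (by simp [hoa.symm])).2 ((f2 a').1 (by simp [hoa'.symm])).2
    ((f2 c).1 (by simp [hoc.symm])).2 ((f2 c').1 (by simp [hoc'.symm])).2
    ((f3 b).1 (by simp [hob.symm])).2 ((f3 b').1 (by simp [hob'.symm])).2
    ((f3 c).1 (by simp [hoc.symm])).2 ((f3 c').1 (by simp [hoc'.symm])).2 haa hbb la lb lc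
  have := (f3 a).2 ⟨haP, fin⟩
  simp only [mem_erase, mem_union, mem_insert, mem_singleton] at this
  rcases this with ⟨h1, (h2 | h2 | h2) | (h2 | h2 | h2)⟩
  · exact hoa h2.symm
  · exact hab h2
  · exact hab' h2
  · exact hoa h2.symm
  · exact hac h2
  · exact hac' h2

end Pool.Agent.N390.Radical
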