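import Mathlib
import Pool.Agent.N390.Radical

/-! The lower bound for six points. -/

namespace Pool.Agent.N390.Six

open Finset Pool.Agent.Helper543.Count Pool.Agent.Helper543.Bounds Pool.Agent.Helper543.Small
open Pool.Agent.Helper543.Blocks Pool.Agent.Helper543.PlaneC Pool.Agent.Helper543.Melchior
open Pool.Agent.N390.Cnt Pool.Agent.N390.Low Pool.Agent.N390.Eight Pool.Agent.N390.Seven
open Pool.Agent.N390.Radical

/-- the diagonals of a complete quadrilateral are not radical axes of three circles -/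
lemma quad {a a' b b' c c' : Pt} {p1 q1 k1 p2 q2 k2 p3 q3 k3 : ℝ}
    (b1 : On p1 q1 k1 b) (b1' : On p1 q1 k1 b') (c1 : On p1 q1 k1 c) (c1' : On p1 q1 k1 c')
    (a2 : On p2 q2 k2 a) (a2' : On p2 q2 k2 a') (c2 : On p2 q2 k2 c) (c2' : On p2 q2 k2 c')
    (a3 : On p3 q3 k3 a) (a3' : On p3 q3 k3 a') (b3 : On p3 q3 k3 b) (b3' : On p3 q3 k3 b')
    (l1 : cr a b c = 0) (l2 : cr a b' c' = 0) (l3 : cr a' b c' = 0) (l4 : cr a' b' c = 0)
    (hab : a ≠ b) (hab' : a ≠ b') (hbb : b ≠ b') (hac : a ≠ c) (hac' : a ≠ c')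
    (hbc : b ≠ c) (hbc' : b' ≠ c') (hna : ¬ On p1 q1 k1 a) : False := by
  have hD := cr_ne_of_On a3 b3 b3' hab hab' hbb
  obtain ⟨t, h1, h2⟩ := exists_param hab l1
  obtain ⟨t', h1', h2'⟩ := exists_param hab' l2
  have ec1 : c.1 = a.1 + t * (b.1 - a.1) := by linarith
  have ec2 : c.2 = a.2 + t * (b.2 - a.2) := by linarith
  have ec1' : c'.1 = a.1 + t' * (b'.1 - a.1) := by linarith
  have ec2' : c'.2 = a.2 + t' * (b'.2 - a.2) := by linarith
  have ht0 : t ≠ 0 := by
    rintro rfl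
    apply hac
    ext
    · linarith
    · linarith
  have ht1 : t - 1 ≠ 0 := by
    intro h
    have : t = 1 := by linarith
    subst this
    apply hbc
    ext
    · linarith
    · linarith
  have ht0' : t' ≠ 0 := by
    rintro rfl
    apply hac'
    ext
    · linarith
    · linarith
  have ht1' : t' - 1 ≠ 0 := by
    intro h
    have : t' = 1 := by linarith
    subst this
    apply hbc'
    ext
    · linarith
    · linarith
  simp only [On] at b1 b1' c1 c1' a2 a2' c2 c2' a3 a3' b3 b3'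
  -- the affine functions
  obtain ⟨u1, hu1⟩ : ∃ u, u = 2 * (p2 - p3) := ⟨_, rfl⟩
  obtain ⟨u2, hu2⟩ : ∃ u, u = 2 * (q2 - q3) := ⟨_, rfl⟩
  obtain ⟨u0, hu0⟩ : ∃ u, u = k2 - k3 := ⟨_, rfl⟩
  obtain ⟨v1, hv1⟩ : ∃ u, u = 2 * (p3 - p1) := ⟨_, rfl⟩
  obtain ⟨v2, hv2⟩ : ∃ u, u = 2 * (q3 - q1) := ⟨_, rfl⟩
  obtain ⟨v0, hv0⟩ : ∃ u, u = k3 - k1 := ⟨_, rfl⟩
  have ua : u1 * a.1 + u2 * a.2 + u0 = 0 := by rw [hu1, hu2, hu0]; linarith
  have ua' : u1 * a'.1 + u2 * a'.2 + u0 = 0 := by rw [hu1, hu2, hu0]; linarith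
  have vb : v1 * b.1 + v2 * b.2 + v0 = 0 := by rw [hv1, hv2, hv0]; linarith
  have vb' : v1 * b'.1 + v2 * b'.2 + v0 = 0 := by rw [hv1, hv2, hv0]; linarith
  have wc : (u1 + v1) * c.1 + (u2 + v2) * c.2 + (u0 + v0) = 0 := by
    rw [hu1, hu2, hu0, hv1, hv2, hv0]; linarith
  have wc' : (u1 + v1) * c'.1 + (u2 + v2) * c'.2 + (u0 + v0) = 0 := by
    rw [hu1, hu2, hu0, hv1, hv2, hv0]; linarith
  have hs : v1 * a.1 + v2 * a.2 + v0 ≠ 0 := by
    intro h0
    apply hna
    simp only [On]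
    rw [hv1, hv2, hv0] at h0
    linarith
  obtain ⟨s, hs'⟩ : ∃ s, s = v1 * a.1 + v2 * a.2 + v0 := ⟨_, rfl⟩
  rw [← hs'] at hs
  obtain ⟨α, hα⟩ : ∃ α, α = u1 * (b.1 - a.1) + u2 * (b.2 - a.2) := ⟨_, rfl⟩
  obtain ⟨α', hα'⟩ : ∃ α, α = u1 * (b'.1 - a.1) + u2 * (b'.2 - a.2) := ⟨_, rfl⟩
  have e1 : t * α = s * (t - 1) := by
    rw [ec1, ec2] at wc
    rw [hα, hs']
    linear_combination wc - ua - t * vb
  have e1' : t' * α' = s * (t' - 1) := by
    rw [ec1', ec2'] at wc'
    rw [hα', hs']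
    linear_combination wc' - ua - t' * vb'
  obtain ⟨D, hDd⟩ : ∃ D, D = cr a b b' := ⟨_, rfl⟩
  obtain ⟨X, hX⟩ : ∃ D, D = cr a a' b' := ⟨_, rfl⟩
  obtain ⟨Y, hY⟩ : ∃ D, D = cr a b a' := ⟨_, rfl⟩
  rw [← hDd] at hD
  have e2 : X * α + Y * α' = 0 := by
    rw [hX, hY, hα, hα']
    simp only [cr]
    linear_combination ((b.1 - a.1) * (b'.2 - a.2) - (b.2 - a.2) * (b'.1 - a.1)) * (ua' - ua)
  have e3 : t' * X + Y = t' * D := by
    rw [hX, hY, hDd]
    simp only [cr, ec1', ec2'] at l3 ⊢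
    linear_combination (-1) * l3
  have e4 : X + t * Y = t * D := by
    rw [hX, hY, hDd]
    simp only [cr, ec1, ec2] at l4 ⊢
    linear_combination l4
  have e5 : X * t' * (t - 1) + Y * t * (t' - 1) = 0 := by
    have : s * (X * t' * (t - 1) + Y * t * (t' - 1)) = 0 := by
      linear_combination t * t' * e2 - X * t' * e1 - Y * t * e1'
    exact (mul_eq_zero.1 this).resolve_left hs
  have e6 : t * t' * D * ((t - 1) * (t' - 1)) = 0 := by
    have z1 : X + Y = (t + t' - t * t') * D := by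
      linear_combination (1 / 2 : ℝ) * e5 + (-(t : ℝ) / 2 + 1) * e3 + (-(t' : ℝ) / 2 + 1) * e4
    have z2 : t * t' * (X + Y) = (t + t') * D - (X + Y) := by
      linear_combination e5 + e3 + e4
    rw [z1] at z2
    linear_combination (-1) * z2
  have : t * t' * D * ((t - 1) * (t' - 1)) ≠ 0 := by positivity
  exact this e6

theorem lower6 {P : Finset Pt} (hn : P.card = 6) (h3 : 3 ≤ P.card)
    (hP : ∀ B ∈ blocks P, ∃ x ∈ P, x ∉ B) : 8 ≤ cc (cfg P h3 hP) := by
  classical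
  have hPB : (cfg P h3 hP).P ∉ (cfg P h3 hP).B := by
    intro hmem
    obtain ⟨x, hx, hx'⟩ := hP _ hmem
    exact hx' hx
  rcases low6 (cfg P h3 hP) hn hPB with h | ⟨h4, c3, c4, l2, l3, l4⟩
  · exact h
  exfalso
  have key : ∀ S : Cfg Pt, S = cfg P h3 hP → False := by
    intro S hS
    rw [← hS] at h4 c3 c4 l2 l3 l4
    have hSP : S.P = P := by rw [hS]; rfl
    have hn' : S.P.card = 6 := by rw [hSP, hn]
    have hC : ∀ b ∈ S.circ, b ⊆ S.P := fun b hb => S.hBP b (mem_sdiff.1 hb).1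
    have hL : ∀ b ∈ S.L, b ⊆ S.P := S.hLP
    have s4c := sum_qx 4 S.circ S.P hC
    have s4l := sum_qx 4 S.L S.P hL
    have s3l := sum_qx 3 S.L S.P hL
    have z4 : ∀ x ∈ S.P, qx 4 S.L x = 0 := by
      rw [l4] at s4l
      norm_num at s4l
      exact (sum_eq_zero_iff_of_nonneg (fun x _ => qx_nonneg 4 S.L x)).1 s4l
    have h1 : ∀ x ∈ S.P, 0 ≤ 2 - qx 4 S.circ x := by
      intro x hx
      obtain ⟨e1, e2, e3, e4⟩ := loc S h4 hx
      have := z4 x hx
      rw [hn'] at e1 e2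
      norm_num at e1 e2
      omega
    have h2 : ∑ x ∈ S.P, (2 - qx 4 S.circ x) = 0 := by
      rw [sum_sub_distrib, s4c, sum_const, hn', c4]
      norm_num
    have h5 := (sum_eq_zero_iff_of_nonneg h1).1 h2
    have h6 : ∀ x ∈ S.P, 0 ≤ 2 - qx 3 S.L x := by
      intro x hx
      obtain ⟨e1, e2, e3, e4⟩ := loc S h4 hx
      have := z4 x hx
      have := qx_nonneg 2 S.L x
      rw [hn'] at e1 e2
      norm_num at e1 e2
      omega
    have h7 : ∑ x ∈ S.P, (2 - qx 3 S.L x) = 0 := by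
      rw [sum_sub_distrib, s3l, sum_const, hn', l3]
      norm_num
    have h8 := (sum_eq_zero_iff_of_nonneg h6).1 h7
    -- the three circles
    have hT : (S.circ.filter (fun b => b.card = 4)).card = 3 := by
      unfold q at c4; exact_mod_cast c4
    obtain ⟨K1, K2, K3, k12, k13, k23, hTe⟩ := card_eq_three.1 hT
    have m1 : K1 ∈ S.circ.filter (fun b => b.card = 4) := by rw [hTe]; simp
    have m2 : K2 ∈ S.circ.filter (fun b => b.card = 4) := by rw [hTe]; simp
    have m3 : K3 ∈ S.circ.filter (fun b => b.card = 4) := by rw [hTe]; simp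
    rw [mem_filter] at m1 m2 m3
    have tri : ∀ x ∈ S.P, (x ∉ K1 ∧ x ∈ K2 ∧ x ∈ K3) ∨ (x ∈ K1 ∧ x ∉ K2 ∧ x ∈ K3) ∨
        (x ∈ K1 ∧ x ∈ K2 ∧ x ∉ K3) := by
      intro x hx
      have e : qx 4 S.circ x = 2 := by have := h5 x hx; linarith
      unfold qx q at e
      have e' : ((S.circ.filter (fun b => x ∈ b)).filter (fun b => b.card = 4)).card = 2 := by
        exact_mod_cast e
      rw [filter_comm, card_filter, hTe, sum_insert (by simp [k12, k13]),
        sum_insert (by simp [k23]), sum_singleton] at e'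
      by_cases x1 : x ∈ K1 <;> by_cases x2 : x ∈ K2 <;> by_cases x3 : x ∈ K3 <;>
        simp [x1, x2, x3] at e' ⊢
    have t1 : ∀ x ∈ S.P, x ∉ K1 → x ∈ K2 ∧ x ∈ K3 := by
      intro x hx h
      rcases tri x hx with h' | h' | h'
      · exact h'.2
      · exact absurd h'.1 h
      · exact absurd h'.1 h
    have t2 : ∀ x ∈ S.P, x ∉ K2 → x ∈ K1 ∧ x ∈ K3 := by
      intro x hx h
      rcases tri x hx with h' | h' | h'
      · exact absurd h'.2.1 h
      · exact ⟨h'.1, h'.2.2⟩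
      · exact absurd h'.2.1 h
    have t3 : ∀ x ∈ S.P, x ∉ K3 → x ∈ K1 ∧ x ∈ K2 := by
      intro x hx h
      rcases tri x hx with h' | h' | h'
      · exact absurd h'.2.2 h
      · exact absurd h'.2.2 h
      · exact ⟨h'.1, h'.2.1⟩
    clear tri
    have compl2 : ∀ K ∈ S.circ, K.card = 4 → (S.P \ K).card = 2 := by
      intro K hK cK
      rw [card_sdiff_of_subset (hC K hK), hn', cK]
    -- a line of size three misses every circle at one point
    have meet : ∀ l ∈ S.L, l.card = 3 → ∀ K ∈ S.circ, K.card = 4 → ∃ y ∈ l, y ∉ K := by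
      intro l hl cl K hK cK
      by_contra hcon
      push Not at hcon
      have i1 := inter_le_two S (S.hLB l hl (by omega)) (mem_sdiff.1 hK).1 (by rintro rfl; omega)
      have i2 : l ∩ K = l := inter_eq_left.2 hcon
      rw [i2] at i1
      omega
    have shape : ∀ l ∈ S.L, l.card = 3 → ∀ x ∈ l, x ∉ K1 → ∃ y z, y ∉ K2 ∧ z ∉ K3 ∧ x ≠ y ∧
        x ≠ z ∧ y ≠ z ∧ l = {x, y, z} := by
      intro l hl cl x hx hx1
      obtain ⟨y, hy, hy2⟩ := meet l hl cl K2 m2.1 m2.2
      obtain ⟨z, hz, hz3⟩ := meet l hl cl K3 m3.1 m3.2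
      have xy : x ≠ y := by rintro rfl; exact hx1 (t2 x (hL l hl hx) hy2).1
      have xz : x ≠ z := by rintro rfl; exact hx1 (t3 x (hL l hl hx) hz3).1
      have yz : y ≠ z := by rintro rfl; exact hy2 (t3 y (hL l hl hy) hz3).2
      refine ⟨y, z, hy2, hz3, xy, xz, yz, ?_⟩
      symm
      apply eq_of_subset_of_card_le
      · intro w hw
        simp only [mem_insert, mem_singleton] at hw
        rcases hw with rfl | rfl | rfl <;> assumption
      · rw [card_eq_three.2 ⟨x, y, z, xy, xz, yz, rfl⟩, cl]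
    have twoL : ∀ x ∈ S.P, ∃ l ∈ S.L, ∃ l' ∈ S.L, l ≠ l' ∧ l.card = 3 ∧ l'.card = 3 ∧ x ∈ l ∧
        x ∈ l' := by
      intro x hx
      have e : (2 : ℤ) ≤ qx 3 S.L x := by have := h8 x hx; linarith
      obtain ⟨l, hl, hlc, _⟩ := exists_two_of_q e ∅
      obtain ⟨l', hl', hlc', hne⟩ := exists_two_of_q e l
      rw [mem_filter] at hl hl'
      exact ⟨l, hl.1, l', hl'.1, hne.symm, hlc, hlc', hl.2, hl'.2⟩
    -- labels
    obtain ⟨a, a', haa, hX1⟩ := card_eq_two.1 (compl2 K1 m1.1 m1.2)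
    have ha : a ∈ S.P ∧ a ∉ K1 := by rw [← mem_sdiff, hX1]; simp
    have ha' : a' ∈ S.P ∧ a' ∉ K1 := by rw [← mem_sdiff, hX1]; simp
    obtain ⟨l, hl, l', hl', hne, cl, cl', hal, hal'⟩ := twoL a ha.1
    obtain ⟨b, c, hb2, hc3, hab, hac, hbc, hle⟩ := shape l hl cl a hal ha.2
    obtain ⟨b', c', hb2', hc3', hab', hac', hbc', hle'⟩ := shape l' hl' cl' a hal' ha.2
    have bl : b ∈ l := by rw [hle]; simp
    have cll : c ∈ l := by rw [hle]; simp
    have bl' : b' ∈ l' := by rw [hle']; simp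
    have cll' : c' ∈ l' := by rw [hle']; simp
    have hbb : b ≠ b' := by
      rintro rfl
      exact hne (S.un2 l hl l' hl' a b hab hal bl hal' bl')
    have hcc : c ≠ c' := by
      rintro rfl
      exact hne (S.un2 l hl l' hl' a c hac hal cll hal' cll')
    have hbP := hL l hl bl
    have hcP := hL l hl cll
    have hbP' := hL l' hl' bl'
    have hcP' := hL l' hl' cll'
    have hX2 : S.P \ K2 = {b, b'} := by
      symm
      apply eq_of_subset_of_card_le
      · intro w hw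
        simp only [mem_insert, mem_singleton] at hw
        rcases hw with rfl | rfl
        · exact mem_sdiff.2 ⟨hbP, hb2⟩
        · exact mem_sdiff.2 ⟨hbP', hb2'⟩
      · rw [compl2 K2 m2.1 m2.2, card_pair hbb]
    have hX3 : S.P \ K3 = {c, c'} := by
      symm
      apply eq_of_subset_of_card_le
      · intro w hw
        simp only [mem_insert, mem_singleton] at hw
        rcases hw with rfl | rfl
        · exact mem_sdiff.2 ⟨hcP, hc3⟩
        · exact mem_sdiff.2 ⟨hcP', hc3'⟩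
      · rw [compl2 K3 m3.1 m3.2, card_pair hcc]
    have ta := t1 a ha.1 ha.2
    have ta' := t1 a' ha'.1 ha'.2
    have tb := t2 b hbP hb2
    have tc := t3 c hcP hc3
    have tb' := t2 b' hbP' hb2'
    have tc' := t3 c' hcP' hc3'
    have a'b : a' ≠ b := by rintro rfl; exact ha'.2 tb.1
    have a'b' : a' ≠ b' := by rintro rfl; exact ha'.2 tb'.1
    have a'c : a' ≠ c := by rintro rfl; exact ha'.2 tc.1
    have a'c' : a' ≠ c' := by rintro rfl; exact ha'.2 tc'.1
    have a'l : a' ∉ l := by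
      rw [hle]
      simp only [mem_insert, mem_singleton, not_or]
      exact ⟨haa.symm, a'b, a'c⟩
    have a'l' : a' ∉ l' := by
      rw [hle']
      simp only [mem_insert, mem_singleton, not_or]
      exact ⟨haa.symm, a'b', a'c'⟩
    -- the lines through a'
    have two' : (∃ m ∈ S.L, a' ∈ m ∧ b ∈ m ∧ c' ∈ m) ∧ (∃ m ∈ S.L, a' ∈ m ∧ b' ∈ m ∧ c ∈ m) := by
      obtain ⟨m, hm, m', hm', hmm, cm, cm', ham, ham'⟩ := twoL a' ha'.1
      obtain ⟨y, z, hy2, hz3, hay, haz, hyz, hme⟩ := shape m hm cm a' ham ha'.2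
      obtain ⟨y', z', hy2', hz3', hay', haz', hyz', hme'⟩ := shape m' hm' cm' a' ham' ha'.2
      have ym : y ∈ m := by rw [hme]; simp
      have zm : z ∈ m := by rw [hme]; simp
      have ym' : y' ∈ m' := by rw [hme']; simp
      have zm' : z' ∈ m' := by rw [hme']; simp
      have hyy : y ≠ y' := by
        rintro rfl
        exact hmm (S.un2 m hm m' hm' a' y hay ham ym ham' ym')
      have hzz : z ≠ z' := by
        rintro rfl
        exact hmm (S.un2 m hm m' hm' a' z haz ham zm ham' zm')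
      have yX : y ∈ ({b, b'} : Finset Pt) := by
        rw [← hX2]; exact mem_sdiff.2 ⟨hL m hm ym, hy2⟩
      have yX' : y' ∈ ({b, b'} : Finset Pt) := by
        rw [← hX2]; exact mem_sdiff.2 ⟨hL m' hm' ym', hy2'⟩
      have zX : z ∈ ({c, c'} : Finset Pt) := by
        rw [← hX3]; exact mem_sdiff.2 ⟨hL m hm zm, hz3⟩
      have zX' : z' ∈ ({c, c'} : Finset Pt) := by
        rw [← hX3]; exact mem_sdiff.2 ⟨hL m' hm' zm', hz3'⟩
      rw [mem_insert, mem_singleton] at yX yX' zX zX'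
      have nobc : ∀ m ∈ S.L, a' ∈ m → b ∈ m → c ∈ m → False := by
        intro m hm h1 h2 h3
        have := S.un2 m hm l hl b c hbc h2 h3 bl cll
        exact a'l (this ▸ h1)
      have nobc' : ∀ m ∈ S.L, a' ∈ m → b' ∈ m → c' ∈ m → False := by
        intro m hm h1 h2 h3
        have := S.un2 m hm l' hl' b' c' hbc' h2 h3 bl' cll'
        exact a'l' (this ▸ h1)
      rcases yX with rfl | rfl
      · have yb' : y' = b' := by
          rcases yX' with h | h
          · exact absurd h.symm hyy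
          · exact h
        subst yb'
        have zc : z = c' := by
          rcases zX with h | h
          · subst h; exact (nobc m hm ham ym zm).elim
          · exact h
        subst zc
        have zc' : z' = c := by
          rcases zX' with h | h
          · exact h
          · exact absurd h.symm hzz
        subst zc'
        exact ⟨⟨m, hm, ham, ym, zm⟩, ⟨m', hm', ham', ym', zm'⟩⟩
      · have yb' : y' = b := by
          rcases yX' with h | h
          · exact h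
          · exact absurd h.symm hyy
        subst yb'
        have zc : z = c := by
          rcases zX with h | h
          · exact h
          · subst h; exact (nobc' m hm ham ym zm).elim
        subst zc
        have zc' : z' = c' := by
          rcases zX' with h | h
          · exact absurd h.symm hzz
          · exact h
        subst zc'
        exact ⟨⟨m', hm', ham', ym', zm'⟩, ⟨m, hm, ham, ym, zm⟩⟩
    obtain ⟨⟨m, hm, am, bm, cm⟩, ⟨m', hm', am', bm', cm'⟩⟩ := two'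
    -- equations
    have col : ∀ l ∈ S.L, ∀ x ∈ l, ∀ y ∈ l, ∀ z ∈ l, x ≠ y → cr x y z = 0 := by
      intro l hl x hx y hy z hz hxy
      have hl2 : l ∈ lines P := by rw [hS] at hl; exact hl
      have := eq_lineOf hl2 hx hy hxy
      rw [this, mem_lineOf] at hz
      exact hz.2
    have l1 := col l hl a hal b bl c cll hab
    have l2 := col l' hl' a hal' b' bl' c' cll' hab'
    have l3 := col m hm a' am b bm c' cm a'b
    have l4 := col m' hm' a' am' b' bm' c cm' a'b'
    have onK : ∀ K ∈ S.circ, K.card = 4 → ∃ p q k : ℝ, ∀ z, z ∈ K ↔ z ∈ P ∧ On p q k z := by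
      intro K hK cK
      have hK' := mem_sdiff.1 hK
      have hKB : K ∈ blocks P := by rw [hS] at hK'; exact hK'.1
      have hKL : K ∉ lines P := by rw [hS] at hK'; exact hK'.2
      obtain ⟨x, y, z, hx, hy, hz, hxy, hxz, hyz⟩ := two_lt_card_iff.1 (show 2 < K.card by omega)
      exact exists_On4 hKB hKL hx hy hz hxy hxz hyz
    obtain ⟨p1, q1, k1, f1⟩ := onK K1 m1.1 m1.2
    obtain ⟨p2, q2, k2, f2⟩ := onK K2 m2.1 m2.2
    obtain ⟨p3, q3, k3, f3⟩ := onK K3 m3.1 m3.2
    have g : ∀ {K : Finset Pt} {p q k : ℝ} {x : Pt}, (∀ z, z ∈ K ↔ z ∈ P ∧ On p q k z) → x ∈ K →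
        On p q k x := fun hf hx => ((hf _).1 hx).2
    apply quad (g f1 tb.1) (g f1 tb'.1) (g f1 tc.1) (g f1 tc'.1) (g f2 ta.1) (g f2 ta'.1)
      (g f2 tc.2) (g f2 tc'.2) (g f3 ta.2) (g f3 ta'.2) (g f3 tb.2) (g f3 tb'.2)
      l1 l2 l3 l4 hab hab' hbb hac hac' hbc hbc'
    intro hon
    exact ha.2 ((f1 a).2 ⟨hSP ▸ ha.1, hon⟩)
  exact key _ rfl

end Pool.Agent.N390.Six
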