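import Pool.Agent.N404.TG.Stm

set_option autoImplicit false

namespace Pool.Agent.N390.TG_GROW

open Finset Classical Pool.Agent.N404.TG

theorem count {V : Type} [Fintype V] (G : SimpleGraph V) (A B : Finset V)
    (hAB : A ⊆ B) (hN : ∀ x ∈ A, ∀ y, G.Adj x y → y ∈ B) :
    ∑ x ∈ A, G.degree x ≤ eIn G A + eIn G B := by
  have h1 : ∀ x, G.degree x = ∑ e ∈ G.edgeFinset, if x ∈ e then 1 else 0 := by
    intro x
    rw [← G.card_incidenceFinset_eq_degree x, G.incidenceFinset_eq_filter x, Finset.card_filter]
  have h2 : ∑ x ∈ A, G.degree x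
      = ∑ e ∈ G.edgeFinset, ∑ x ∈ A, (if x ∈ e then 1 else 0) := by
    rw [Finset.sum_comm]
    exact Finset.sum_congr rfl fun x _ => h1 x
  rw [h2]
  unfold eIn
  rw [Finset.card_filter, Finset.card_filter, ← Finset.sum_add_distrib]
  refine Finset.sum_le_sum fun e he => ?_
  induction e using Sym2.ind with
  | _ a b =>
    have hadj : G.Adj a b := by simpa using he
    have hne : a ≠ b := hadj.ne
    have h3 : ∑ x ∈ A, (if x ∈ s(a, b) then 1 else 0)
        ≤ (if a ∈ A then 1 else 0) + (if b ∈ A then 1 else 0) := by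
      have : ∀ x ∈ A, (if x ∈ s(a, b) then 1 else 0)
          ≤ (if x = a then 1 else 0) + (if x = b then 1 else 0) := by
        intro x _
        by_cases hxa : x = a <;> by_cases hxb : x = b <;> simp [Sym2.mem_iff, hxa, hxb]
      refine (Finset.sum_le_sum this).trans ?_
      rw [Finset.sum_add_distrib]
      simp [Finset.sum_ite_eq']
    refine h3.trans ?_
    have hb : (∀ v ∈ s(a, b), v ∈ A) ↔ (a ∈ A ∧ b ∈ A) := by simp
    have hb' : (∀ v ∈ s(a, b), v ∈ B) ↔ (a ∈ B ∧ b ∈ B) := by simp
    simp only [hb, hb']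
    by_cases ha : a ∈ A
    · have hbB : b ∈ B := hN a ha b hadj
      have haB : a ∈ B := hAB ha
      by_cases hbA : b ∈ A <;> simp [ha, hbA, haB, hbB]
    · by_cases hbA : b ∈ A
      · have haB : a ∈ B := hN b hbA a hadj.symm
        have hbB : b ∈ B := hAB hbA
        simp [ha, hbA, haB, hbB]
      · simp [ha, hbA]

theorem main : S_GROW := by
  intro V _ G hG hdeg r hsp v
  by_contra hcon
  push Not at hcon
  set B : ℕ → Finset V := fun j => univ.filter fun w => G.dist v w ≤ j with hB
  have hmono : ∀ i j, i ≤ j → B i ⊆ B j := by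
    intro i j hij w hw
    simp only [hB, Finset.mem_filter, Finset.mem_univ, true_and] at hw ⊢
    omega
  have hne : ∀ j, (B j).Nonempty := fun j => ⟨v, by simp [hB]⟩
  have hr : (B r).card < 2 ^ r := hcon
  have hs : ∀ j ≤ r, eIn G (B j) ≤ (B j).card := by
    intro j hj
    refine hsp _ (hne j) ?_
    exact (Finset.card_le_card (hmono j r hj)).trans hr.le
  have key : ∀ j, j ≤ r → 2 ^ j ≤ (B j).card := by
    intro j
    induction j with
    | zero => intro _; simpa using (hne 0).card_pos
    | succ j ih =>
      intro hj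
      have ih' := ih (by omega)
      have hc := count G (B j) (B (j + 1)) (hmono _ _ (by omega)) (by
        intro x hx y hxy
        simp only [hB, Finset.mem_filter, Finset.mem_univ, true_and] at hx ⊢
        have h1 := hG.dist_triangle (u := v) (v := x) (w := y)
        have h2 : G.dist x y = 1 := SimpleGraph.dist_eq_one_iff_adj.mpr hxy
        omega)
      have h3 : 3 * (B j).card ≤ ∑ x ∈ B j, G.degree x := by
        have := Finset.card_nsmul_le_sum (B j) (fun x => G.degree x) 3 (fun x _ => hdeg x)
        simpa [mul_comm] using this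
      have h4 := hs j (by omega)
      have h5 := hs (j + 1) hj
      rw [pow_succ]
      omega
  exact absurd (key r le_rfl) (by omega)

end Pool.Agent.N390.TG_GROW
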